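import Pool.Agent.Lib_helper91.ZT.Base

/-!
# Block systems on the line, codes, the barrier relation, scale data
-/

set_option linter.unusedSectionVars false
set_option linter.unusedVariables false

universe u

namespace Pool.Agent.ZT

open FirstOrder Language Pool.Agent.ZF1

/-- The data of a block system: a line `(R, lt)` with countable dense set `Q` and injection
`io : Q → ω`, points `u < o` of the line, the end points `a q < b q` of the blocks `J_q`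
(`q ∈ Q`), the points `e (q, i)` (`i ∈ ω`) of the blocks and the colours `col i ∈ {0, 1, 2}`. -/
structure BS (V : Type u) where
  R : V
  lt : V
  Q : V
  io : V
  u : V
  o : V
  a : V
  b : V
  e : V
  col : V

section
variable {V : Type u} [Lset.Structure V] [IsZF V]

namespace BS

/-- the properties of a block system -/
structure Ok (B : BS V) : Prop where
  line : Line B.R B.lt B.Q B.io
  uR : B.u ∈ B.R
  oR : B.o ∈ B.R
  aR : ∀ q ∈ B.Q, ap B.a q ∈ B.R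
  bR : ∀ q ∈ B.Q, ap B.b q ∈ B.R
  ua : ∀ q ∈ B.Q, Lt B.lt B.u (ap B.a q)
  bo : ∀ q ∈ B.Q, Lt B.lt (ap B.b q) B.o
  ord : ∀ q ∈ B.Q, ∀ q' ∈ B.Q, Lt B.lt q q' → Lt B.lt (ap B.b q) (ap B.a q')
  eR : ∀ q ∈ B.Q, ∀ i ∈ (omega : V), ap B.e (opair q i) ∈ B.R
  e0 : ∀ q ∈ B.Q, ap B.e (opair q emp) = ap B.a q
  es : ∀ q ∈ B.Q, ∀ i ∈ (omega : V),
    Lt B.lt (ap B.e (opair q i)) (ap B.e (opair q (succ i)))
  eb : ∀ q ∈ B.Q, ∀ i ∈ (omega : V), Lt B.lt (ap B.e (opair q i)) (ap B.b q)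
  c3 : ∀ i ∈ (omega : V), ap B.col i = emp ∨ ap B.col i = succ emp ∨ ap B.col i = succ (succ emp)
  c1 : ∀ i ∈ (omega : V), ap B.col i ≠ ap B.col (succ i)
  c2 : ∀ i ∈ (omega : V), ap B.col i ≠ ap B.col (succ (succ i))

/-- the index of the marked box of the block `J_q` -/
noncomputable def k (B : BS V) (q : V) : V := succ (succ (ap B.io q))

/-- `s ∈ J_q` -/
def InJ (B : BS V) (q s : V) : Prop := Lt B.lt (ap B.a q) s ∧ Lt B.lt s (ap B.b q)

/-- `s` is in the box `i` of the block `J_q` -/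
def InBox (B : BS V) (q i s : V) : Prop :=
  Lt B.lt (ap B.e (opair q i)) s ∧ Lt B.lt s (ap B.e (opair q (succ i)))

/-- `s` is in the closed box `i` of the block `J_q` -/
def InCBox (B : BS V) (q i s : V) : Prop :=
  Le B.lt (ap B.e (opair q i)) s ∧ Le B.lt s (ap B.e (opair q (succ i)))

instance {B : BS V} {t : (ℕ → V) → V} [ht : DF t] : DF (fun v => B.k (t v)) := by
  unfold k; infer_instance

instance {B : BS V} {t s : (ℕ → V) → V} [ht : DF t] [hs : DF s] :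
    DP (fun v => B.InJ (t v) (s v)) := by
  unfold InJ; infer_instance

instance {B : BS V} {t s r : (ℕ → V) → V} [ht : DF t] [hs : DF s] [hr : DF r] :
    DP (fun v => B.InBox (t v) (s v) (r v)) := by
  unfold InBox; infer_instance

instance {B : BS V} {t s r : (ℕ → V) → V} [ht : DF t] [hs : DF s] [hr : DF r] :
    DP (fun v => B.InCBox (t v) (s v) (r v)) := by
  unfold InCBox; infer_instance

/-- the five code predicates; the index `c` selects one of them: `c = 0, 1, 2`: `s` is in a box of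
colour `c`; `c = 3`: `s` is in a box with index `1`; `c = 4`: `s` is in a marked box; otherwise:
`s` is in a block. -/
def Code (B : BS V) : Fin 6 → V → Prop
  | 0 => fun s => ∃ q ∈ B.Q, ∃ i ∈ (omega : V), ap B.col i = emp ∧ B.InBox q i s
  | 1 => fun s => ∃ q ∈ B.Q, ∃ i ∈ (omega : V), ap B.col i = succ emp ∧ B.InBox q i s
  | 2 => fun s => ∃ q ∈ B.Q, ∃ i ∈ (omega : V), ap B.col i = succ (succ emp) ∧ B.InBox q i s
  | 3 => fun s => ∃ q ∈ B.Q, B.InBox q (succ emp) s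
  | 4 => fun s => ∃ q ∈ B.Q, B.InBox q (B.k q) s
  | 5 => fun s => ∃ q ∈ B.Q, B.InJ q s

instance {B : BS V} {c : Fin 6} {t : (ℕ → V) → V} [ht : DF t] : DP (fun v => B.Code c (t v)) := by
  refine DP.comp1 ?_ ht
  fin_cases c <;> simp only [Code] <;> infer_instance

/-- `s` and `t` have the same codes -/
def Eqv (B : BS V) (s t : V) : Prop := ∀ c, (B.Code c s ↔ B.Code c t)

theorem eqv_iff {B : BS V} {s t : V} : B.Eqv s t ↔ (B.Code 0 s ↔ B.Code 0 t) ∧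
    (B.Code 1 s ↔ B.Code 1 t) ∧ (B.Code 2 s ↔ B.Code 2 t) ∧ (B.Code 3 s ↔ B.Code 3 t) ∧
    (B.Code 4 s ↔ B.Code 4 t) ∧ (B.Code 5 s ↔ B.Code 5 t) := by
  constructor
  · intro h
    exact ⟨h 0, h 1, h 2, h 3, h 4, h 5⟩
  · rintro ⟨h0, h1, h2, h3, h4, h5⟩ c
    fin_cases c
    · exact h0
    · exact h1
    · exact h2
    · exact h3
    · exact h4
    · exact h5

instance {B : BS V} {t s : (ℕ → V) → V} [ht : DF t] [hs : DF s] :
    DP (fun v => B.Eqv (t v) (s v)) := by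
  simp only [eqv_iff]; infer_instance

/-- the barrier relation of the block `J_q` -/
def Lam (B : BS V) (q s t : V) : Prop :=
  Le B.lt s (ap B.e (opair q (succ emp))) ∨
    ∃ q' ∈ B.Q, q' ≠ q ∧ ∃ i ∈ (omega : V), i ≠ emp ∧ i ∈ B.k q ∧ i ∈ B.k q' ∧
      B.InCBox q i s ∧ B.InCBox q' i t

instance {B : BS V} {t s r : (ℕ → V) → V} [ht : DF t] [hs : DF s] [hr : DF r] :
    DP (fun v => B.Lam (t v) (s v) (r v)) :=
  DP.comp3 (R := B.Lam) (by unfold Lam; infer_instance) ht hs hr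

/-- the functions `k` and `k'` on `X` have the same codes -/
def Same (B : BS V) (X k k' : V) : Prop := ∀ x ∈ X, B.Eqv (ap k x) (ap k' x)

instance {B : BS V} {t s r : (ℕ → V) → V} [ht : DF t] [hs : DF s] [hr : DF r] :
    DP (fun v => B.Same (t v) (s v) (r v)) :=
  DP.comp3 (R := B.Same) (by unfold Same; infer_instance) ht hs hr

/-- every function of the class `H` can be cut at all levels by open and closed subsets of `P` -/
def Cutt (B : BS V) (X T H P : V) : Prop := ∀ κ ∈ H, ∀ q ∈ B.Q, ∃ D, Clo X T D ∧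
  (∀ x ∈ P, Le B.lt (ap κ x) (ap B.a q) → x ∈ D) ∧ ∀ x ∈ D, x ∈ P ∧ Lt B.lt (ap κ x) (ap B.b q)

instance {B : BS V} {t1 t2 t3 t4 : (ℕ → V) → V} [h1 : DF t1] [h2 : DF t2] [h3 : DF t3]
    [h4 : DF t4] : DP (fun v => B.Cutt (t1 v) (t2 v) (t3 v) (t4 v)) :=
  DP.comp4 (R := B.Cutt) (by unfold Cutt; infer_instance) h1 h2 h3 h4

/-- `v = {x ∈ X : k(x) < b_r}` -/
def IsBelow (B : BS V) (X k r v : V) : Prop := ∀ x, x ∈ v ↔ x ∈ X ∧ Lt B.lt (ap k x) (ap B.b r)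

instance {B : BS V} {t1 t2 t3 t4 : (ℕ → V) → V} [h1 : DF t1] [h2 : DF t2] [h3 : DF t3]
    [h4 : DF t4] : DP (fun v => B.IsBelow (t1 v) (t2 v) (t3 v) (t4 v)) :=
  DP.comp4 (R := B.IsBelow) (by unfold IsBelow; infer_instance) h1 h2 h3 h4

end BS

/-! ### Scale data -/

/-- the union of the sets `p (r, r')` for `r < r'` with indices below `m` -/
noncomputable def Em (X lt Q io p m : V) : V :=
  sb (fun x => ∃ r ∈ Q, ∃ r' ∈ Q, ap io r ∈ m ∧ ap io r' ∈ m ∧ Lt lt r r' ∧ x ∈ ap p (opair r r')) X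

/-- the part `E_{m+1} \ E_m` -/
noncomputable def Qm (X lt Q io p m : V) : V :=
  diff (Em X lt Q io p (succ m)) (Em X lt Q io p m)

instance {X lt Q io : V} {t s : (ℕ → V) → V} [ht : DF t] [hs : DF s] :
    DF (fun v => Em X lt Q io (t v) (s v)) :=
  DF.comp2 (F := Em X lt Q io) (by unfold Em; infer_instance) ht hs

/-- scale data for the open set `C0` -/
structure ScData (X T N C0 R lt Q io v p d : V) : Prop where
  vT : ∀ r ∈ Q, ap v r ∈ T
  vN : ∀ r ∈ Q, ap v r ∈ N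
  vC : ∀ r ∈ Q, Sub C0 (ap v r)
  pclo : ∀ r ∈ Q, ∀ r' ∈ Q, Lt lt r r' → Clo X T (ap p (opair r r'))
  pN : ∀ r ∈ Q, ∀ r' ∈ Q, Lt lt r r' → ap p (opair r r') ∈ N
  pC : ∀ r ∈ Q, ∀ r' ∈ Q, Lt lt r r' → ∀ x ∈ C0, x ∉ ap p (opair r r')
  c1 : ∀ r ∈ Q, ∀ r' ∈ Q, Lt lt r r' → ∀ x ∈ ap v r, x ∉ ap p (opair r r') → x ∈ ap v r'
  c2 : ∀ r ∈ Q, ∀ r' ∈ Q, Lt lt r r' → ∀ x ∈ X, x ∉ ap p (opair r r') → x ∉ ap v r' →
    ∃ U ∈ T, x ∈ U ∧ ∀ y ∈ U, y ∉ ap v r
  d : ∀ m ∈ (omega : V), ∀ r ∈ Q, ∀ r' ∈ Q, ap io r ∈ m → ap io r' ∈ m → Lt lt r r' →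
    Clo X T (ap d (opair m (opair r r'))) ∧
    (∀ x ∈ Qm X lt Q io p m, x ∈ ap v r → x ∈ ap d (opair m (opair r r'))) ∧
    ∀ x ∈ ap d (opair m (opair r r')), x ∈ Qm X lt Q io p m ∧ x ∈ ap v r'

/-- the scale -/
noncomputable def Wt (X lt Q io v p d t : V) : V := sb (fun x =>
  ((¬ ∃ r ∈ Q, ∃ r' ∈ Q, Lt lt r r' ∧ x ∈ ap p (opair r r')) ∧ ∃ r ∈ Q, Lt lt r t ∧ x ∈ ap v r) ∨
  ∃ m ∈ (omega : V), ∃ r ∈ Q, ∃ r' ∈ Q, ap io r ∈ m ∧ ap io r' ∈ m ∧ Lt lt r r' ∧ Lt lt r' t ∧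
    x ∈ ap d (opair m (opair r r'))) X

instance {X lt Q io : V} {t1 t2 t3 t4 : (ℕ → V) → V} [h1 : DF t1] [h2 : DF t2] [h3 : DF t3]
    [h4 : DF t4] : DF (fun v => Wt X lt Q io (t1 v) (t2 v) (t3 v) (t4 v)) :=
  DF.comp4 (F := Wt X lt Q io) (by unfold Wt; infer_instance) h1 h2 h3 h4

end

end Pool.Agent.ZT
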