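import Mathlib

/-!
# The barrier lemma, abstract form
-/

set_option linter.unusedSectionVars false

namespace Pool.Agent.ZT

/-- abstract block system: `R` the line, `Q` the index set of the blocks, `N` the indices of boxes -/
structure ABS (R Q N C : Type*) [LinearOrder R] [LinearOrder N] where
  z : N
  sc : N → N
  lt_sc : ∀ i, i < sc i
  sc_le : ∀ {i j}, i < j → sc i ≤ j
  z_le : ∀ i, z ≤ i
  cases : ∀ i, i = z ∨ ∃ j, i = sc j
  a : Q → R
  b : Q → R
  e : Q → N → R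
  k : Q → N
  col : N → C
  e0 : ∀ q, e q z = a q
  es : ∀ q, StrictMono (e q)
  eb : ∀ q i, e q i < b q
  disj : ∀ {q q' s}, a q < s → s < b q → a q' < s → s < b q' → q = q'
  kinj : ∀ {q q'}, k q = k q' → q = q'
  kbig : ∀ q, sc z < k q
  c1 : ∀ i, col i ≠ col (sc i)
  c2 : ∀ i, col i ≠ col (sc (sc i))
  loc : ∀ q s, a q < s → (∀ j, e q j ≤ s) ∨ ∃ j, e q j ≤ s ∧ s < e q (sc j)

/-- `P` holds near `(s, t)` -/
def Near {R : Type*} [LinearOrder R] (s t : R) (P : R → R → Prop) : Prop :=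
  ∃ l r l' r', l < s ∧ s < r ∧ l' < t ∧ t < r' ∧
    ∀ s' t', l < s' → s' < r → l' < t' → t' < r' → P s' t'

namespace Near

variable {R : Type*} [LinearOrder R] [NoMinOrder R] [NoMaxOrder R] {s t : R} {P P' : R → R → Prop}

theorem and (h : Near s t P) (h' : Near s t P') : Near s t (fun x y => P x y ∧ P' x y) := by
  obtain ⟨l, r, l', r', h1, h2, h3, h4, h5⟩ := h
  obtain ⟨m, u, m', u', g1, g2, g3, g4, g5⟩ := h'
  refine ⟨max l m, min r u, max l' m', min r' u', max_lt h1 g1, lt_min h2 g2, max_lt h3 g3,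
    lt_min h4 g4, ?_⟩
  intro s' t' k1 k2 k3 k4
  rw [max_lt_iff] at k1 k3
  rw [lt_min_iff] at k2 k4
  exact ⟨h5 s' t' k1.1 k2.1 k3.1 k4.1, g5 s' t' k1.2 k2.2 k3.2 k4.2⟩

theorem mono (h : Near s t P) (hP : ∀ x y, P x y → P' x y) : Near s t P' := by
  obtain ⟨l, r, l', r', h1, h2, h3, h4, h5⟩ := h
  exact ⟨l, r, l', r', h1, h2, h3, h4, fun s' t' k1 k2 k3 k4 => hP _ _ (h5 s' t' k1 k2 k3 k4)⟩

theorem lt_left {c : R} (h : s < c) : Near s t (fun x _ => x < c) := by
  obtain ⟨l, hl⟩ := exists_lt s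
  obtain ⟨l', hl'⟩ := exists_lt t
  obtain ⟨r', hr'⟩ := exists_gt t
  exact ⟨l, c, l', r', hl, h, hl', hr', fun _ _ _ h _ _ => h⟩

theorem gt_left {c : R} (h : c < s) : Near s t (fun x _ => c < x) := by
  obtain ⟨r, hr⟩ := exists_gt s
  obtain ⟨l', hl'⟩ := exists_lt t
  obtain ⟨r', hr'⟩ := exists_gt t
  exact ⟨c, r, l', r', h, hr, hl', hr', fun _ _ h _ _ _ => h⟩

theorem lt_right {c : R} (h : t < c) : Near s t (fun _ y => y < c) := by
  obtain ⟨l, hl⟩ := exists_lt s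
  obtain ⟨r, hr⟩ := exists_gt s
  obtain ⟨l', hl'⟩ := exists_lt t
  exact ⟨l, r, l', c, hl, hr, hl', h, fun _ _ _ _ _ h => h⟩

theorem gt_right {c : R} (h : c < t) : Near s t (fun _ y => c < y) := by
  obtain ⟨l, hl⟩ := exists_lt s
  obtain ⟨r, hr⟩ := exists_gt s
  obtain ⟨r', hr'⟩ := exists_gt t
  exact ⟨l, r, c, r', hl, hr, h, hr', fun _ _ _ _ h _ => h⟩

theorem pure (h : ∀ x y, P x y) : Near s t P := by
  obtain ⟨l, hl⟩ := exists_lt s
  obtain ⟨r, hr⟩ := exists_gt s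
  obtain ⟨l', hl'⟩ := exists_lt t
  obtain ⟨r', hr'⟩ := exists_gt t
  exact ⟨l, r, l', r', hl, hr, hl', hr', fun _ _ _ _ _ _ => h _ _⟩

end Near

namespace ABS

variable {R Q N C : Type*} [LinearOrder R] [LinearOrder N] (B : ABS R Q N C)

def InJ (q : Q) (s : R) : Prop := B.a q < s ∧ s < B.b q
def InBox (q : Q) (i : N) (s : R) : Prop := B.e q i < s ∧ s < B.e q (B.sc i)
def InCBox (q : Q) (i : N) (s : R) : Prop := B.e q i ≤ s ∧ s ≤ B.e q (B.sc i)

/-- same codes -/
structure Eqv (s t : R) : Prop where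
  c : ∀ c : C, (∃ q i, B.col i = c ∧ B.InBox q i s) ↔ ∃ q i, B.col i = c ∧ B.InBox q i t
  st : (∃ q, B.InBox q (B.sc B.z) s) ↔ ∃ q, B.InBox q (B.sc B.z) t
  m : (∃ q, B.InBox q (B.k q) s) ↔ ∃ q, B.InBox q (B.k q) t
  j : (∃ q, B.InJ q s) ↔ ∃ q, B.InJ q t

def Lam (q : Q) (s t : R) : Prop := s ≤ B.e q (B.sc B.z) ∨
  ∃ q', q' ≠ q ∧ ∃ i, i ≠ B.z ∧ i < B.k q ∧ i < B.k q' ∧ B.InCBox q i s ∧ B.InCBox q' i t

variable {B}

theorem a_lt {q : Q} {i : N} (h : i ≠ B.z) : B.a q < B.e q i := by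
  rw [← B.e0]
  exact B.es q (lt_of_le_of_ne (B.z_le i) (Ne.symm h))

theorem a_le (q : Q) (i : N) : B.a q ≤ B.e q i := by
  rw [← B.e0]
  exact (B.es q).monotone (B.z_le i)

theorem InBox.inJ {q : Q} {i : N} {s : R} (h : B.InBox q i s) : B.InJ q s :=
  ⟨(a_le q i).trans_lt h.1, h.2.trans (B.eb q _)⟩

theorem InCBox.inJ {q : Q} {i : N} {s : R} (hi : i ≠ B.z) (h : B.InCBox q i s) : B.InJ q s :=
  ⟨(a_lt hi).trans_le h.1, h.2.trans_lt (B.eb q _)⟩

theorem InBox.cbox {q : Q} {i : N} {s : R} (h : B.InBox q i s) : B.InCBox q i s :=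
  ⟨h.1.le, h.2.le⟩

theorem InJ.eq {q q' : Q} {s : R} (h : B.InJ q s) (h' : B.InJ q' s) : q = q' :=
  B.disj h.1 h.2 h'.1 h'.2

theorem le_of_lt_sc {i j : N} (h : i < B.sc j) : i ≤ j := by
  by_contra hc
  push Not at hc
  exact absurd (B.sc_le hc) (not_le.2 h)

theorem idx_le {q : Q} {i j : N} {s : R} (h : B.e q i ≤ s) (h' : s < B.e q (B.sc j)) : i ≤ j :=
  le_of_lt_sc ((B.es q).lt_iff_lt.1 (h.trans_lt h'))

theorem idx_le' {q : Q} {i j : N} {s : R} (h : B.e q i < s) (h' : s ≤ B.e q (B.sc j)) : i ≤ j :=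
  le_of_lt_sc ((B.es q).lt_iff_lt.1 (h.trans_le h'))

theorem InBox.eq {q q' : Q} {i i' : N} {s : R} (h : B.InBox q i s) (h' : B.InBox q' i' s) :
    q = q' ∧ i = i' := by
  have hq := h.inJ.eq h'.inJ
  subst hq
  exact ⟨rfl, le_antisymm (idx_le h.1.le h'.2) (idx_le h'.1.le h.2)⟩

theorem not_box {q q' : Q} {i j : N} (hj : j ≠ B.z) : ¬ B.InBox q' i (B.e q j) := by
  intro h
  have hq : q' = q := h.inJ.eq ⟨a_lt hj, B.eb q j⟩
  subst hq
  have h1 := (B.es q').lt_iff_lt.1 h.1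
  have h2 := (B.es q').lt_iff_lt.1 h.2
  exact absurd (B.sc_le h1) (not_le.2 h2)

/-- the position of a point between the neighbours of `e_j` -/
theorem tri {q : Q} {j0 : N} {s : R} (h1 : B.e q j0 < s) (h2 : s < B.e q (B.sc (B.sc j0))) :
    B.InBox q j0 s ∨ s = B.e q (B.sc j0) ∨ B.InBox q (B.sc j0) s := by
  rcases lt_trichotomy s (B.e q (B.sc j0)) with h | h | h
  · exact Or.inl ⟨h1, h⟩
  · exact Or.inr (Or.inl h)
  · exact Or.inr (Or.inr ⟨h, h2⟩)

variable [NoMinOrder R] [NoMaxOrder R]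

/-- case `s = e_j` -/
theorem near_corner {q q' : Q} {i j0 m0 : N} (hqq : q' ≠ q) (hi : i ≠ B.z) (hk : i < B.k q)
    (hk' : i < B.k q') (hj : B.sc j0 = i ∨ B.sc j0 = B.sc i) (hm : B.sc m0 = i ∨ B.sc m0 = B.sc i)
    (hj0 : j0 ≠ B.z) :
    Near (B.e q (B.sc j0)) (B.e q' (B.sc m0)) (fun s t => B.Eqv s t → B.Lam q s t) := by
  have scinj : ∀ {x y : N}, B.sc x = B.sc y → x = y := fun {x y} h =>
    le_antisymm (le_of_lt_sc (h ▸ B.lt_sc x)) (le_of_lt_sc (h ▸ B.lt_sc y))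
  have ne_z : ∀ x, B.sc x ≠ B.z := fun x h => absurd (B.lt_sc x) (not_lt.2 (h ▸ B.z_le x))
  -- neighbours of the same colour have the same index
  have key : ∀ x y, (x = j0 ∨ x = B.sc j0) → (y = m0 ∨ y = B.sc m0) → B.col x = B.col y →
      x = y := by
    rintro x y (rfl | rfl) (rfl | rfl) hc
    · rcases hj with hj | hj <;> rcases hm with hm | hm
      · exact scinj (hj.trans hm.symm)
      · have := scinj hm
        rw [this, ← hj] at hc
        exact absurd hc (B.c1 x)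
      · have := scinj hj
        rw [this, ← hm] at hc
        exact absurd hc.symm (B.c1 y)
      · exact scinj (hj.trans hm.symm)
    · rcases hj with hj | hj <;> rcases hm with hm | hm
      · rw [hm, ← hj] at hc
        exact absurd hc (B.c1 x)
      · have := scinj hm
        rw [this, ← hj] at hc
        exact absurd hc (B.c2 x)
      · rw [hm]; exact scinj hj
      · have := scinj hj
        rw [this, hm] at hc
        exact absurd hc (B.c1 i)
    · rcases hj with hj | hj <;> rcases hm with hm | hm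
      · rw [hj, ← hm] at hc
        exact absurd hc.symm (B.c1 y)
      · rw [hj]; exact (scinj hm).symm
      · rw [hj, ← hm] at hc
        exact absurd hc.symm (B.c2 y)
      · rw [hj, scinj hm] at hc
        exact absurd hc.symm (B.c1 i)
    · rcases hj with hj | hj <;> rcases hm with hm | hm
      · rw [hj, hm]
      · rw [hj, hm] at hc
        exact absurd hc (B.c1 i)
      · rw [hj, hm] at hc
        exact absurd hc.symm (B.c1 i)
      · rw [hj, hm]
  have hlow : ∀ (q : Q) (x : N), B.e q x < B.e q (B.sc x) := fun q x => B.es q (B.lt_sc x)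
  have n1 : Near (B.e q (B.sc j0)) (B.e q' (B.sc m0)) (fun s t =>
      (B.e q j0 < s ∧ s < B.e q (B.sc (B.sc j0))) ∧
      (B.e q' m0 < t ∧ t < B.e q' (B.sc (B.sc m0)))) :=
    ((Near.gt_left (hlow _ _)).and (Near.lt_left (hlow _ _))).and
      ((Near.gt_right (hlow _ _)).and (Near.lt_right (hlow _ _)))
  refine n1.mono ?_
  rintro s t ⟨⟨s1, s2⟩, t1, t2⟩ hE
  -- a point of the first line in a box
  have box : ∀ x, (x = j0 ∨ x = B.sc j0) → B.InBox q x s → B.Lam q s t := by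
    intro x hx hs
    obtain ⟨q4, i4, hc4, h4⟩ := (hE.c (B.col x)).1 ⟨q, x, rfl, hs⟩
    have ht : ∃ y, (y = m0 ∨ y = B.sc m0) ∧ B.InBox q' y t := by
      rcases tri t1 t2 with h | h | h
      · exact ⟨_, Or.inl rfl, h⟩
      · rw [h] at h4
        exact absurd h4 (not_box (ne_z _))
      · exact ⟨_, Or.inr rfl, h⟩
    obtain ⟨y, hy, ht⟩ := ht
    obtain ⟨rfl, rfl⟩ := h4.eq ht
    have hxy := key x i4 hx hy hc4.symm
    subst hxy
    have hxz : x ≠ B.z := by
      rcases hx with rfl | rfl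
      · exact hj0
      · exact ne_z _
    -- the index is not too large
    have hle : x ≤ B.sc i := by
      rcases hx with rfl | rfl
      · rcases hj with hj | hj
        · exact (B.lt_sc x).le.trans (hj ▸ (B.lt_sc i).le)
        · rw [scinj hj]; exact (B.lt_sc i).le
      · rcases hj with hj | hj
        · rw [hj]; exact (B.lt_sc i).le
        · exact hj.le
    have hlt : x < B.k q ∧ x < B.k q4 := by
      rcases hle.lt_or_eq with hlt | heq
      · exact ⟨(le_of_lt_sc hlt).trans_lt hk, (le_of_lt_sc hlt).trans_lt hk'⟩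
      · subst heq
        constructor
        · refine lt_of_le_of_ne (B.sc_le hk) fun h => ?_
          obtain ⟨q5, h5⟩ := hE.m.1 ⟨q, h ▸ hs⟩
          obtain ⟨rfl, h6⟩ := h5.eq ht
          exact hqq (B.kinj (h6.trans h))
        · refine lt_of_le_of_ne (B.sc_le hk') fun h => ?_
          obtain ⟨q5, h5⟩ := hE.m.2 ⟨q4, h ▸ ht⟩
          obtain ⟨rfl, h6⟩ := h5.eq hs
          exact hqq (B.kinj (h.symm.trans h6.symm))
    exact Or.inr ⟨q4, hqq, x, hxz, hlt.1, hlt.2, hs.cbox, ht.cbox⟩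
  rcases tri s1 s2 with h | h | h
  · exact box _ (Or.inl rfl) h
  · -- both at the corner
    have ht : t = B.e q' (B.sc m0) := by
      rcases tri t1 t2 with h' | h' | h'
      · obtain ⟨q4, i4, _, h4⟩ := (hE.c (B.col m0)).2 ⟨q', m0, rfl, h'⟩
        rw [h] at h4
        exact absurd h4 (not_box (ne_z _))
      · exact h'
      · obtain ⟨q4, i4, _, h4⟩ := (hE.c (B.col (B.sc m0))).2 ⟨q', _, rfl, h'⟩
        rw [h] at h4
        exact absurd h4 (not_box (ne_z _))
    refine Or.inr ⟨q', hqq, i, hi, hk, hk', ?_, ?_⟩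
    · rw [h]
      rcases hj with hj | hj <;> rw [hj]
      · exact ⟨le_rfl, (hlow _ _).le⟩
      · exact ⟨(hlow _ _).le, le_rfl⟩
    · rw [ht]
      rcases hm with hm | hm <;> rw [hm]
      · exact ⟨le_rfl, (hlow _ _).le⟩
      · exact ⟨(hlow _ _).le, le_rfl⟩
  · exact box _ (Or.inr rfl) h

theorem near_true {q q' : Q} {s t : R} (hqq : q' ≠ q) (hs : B.InJ q s) (ht : B.InJ q' t)
    (hE : B.Eqv s t) (hL : B.Lam q s t) : Near s t (fun s t => B.Eqv s t → B.Lam q s t) := by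
  have ne_z : ∀ x, B.sc x ≠ B.z := fun x h => absurd (B.lt_sc x) (not_lt.2 (h ▸ B.z_le x))
  by_cases h1 : s < B.e q (B.sc B.z)
  · exact (Near.lt_left h1).mono fun x y hx _ => Or.inl hx.le
  push Not at h1
  rcases h1.lt_or_eq with h1 | h1
  · -- a box of positive index
    rcases hL with hL | ⟨q3, hq3, i, hi, hk, hk', hs', ht'⟩
    · exact absurd hL (not_le.2 h1)
    obtain rfl : q3 = q' := (ht'.inJ hi).eq ht
    by_cases hb : B.InBox q i s
    · -- open box
      obtain ⟨q4, i4, hc4, h4⟩ := (hE.c (B.col i)).1 ⟨q, i, rfl, hb⟩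
      obtain rfl : q4 = q3 := h4.inJ.eq ht
      have hi4 : i4 = i := by
        refine le_antisymm (idx_le' h4.1 ht'.2) (idx_le ht'.1 h4.2)
      subst hi4
      refine (((Near.gt_left hb.1).and (Near.lt_left hb.2)).and
        ((Near.gt_right h4.1).and (Near.lt_right h4.2))).mono ?_
      rintro x y ⟨hx, hy⟩ _
      exact Or.inr ⟨q4, hqq, i4, hi, hk, hk', ⟨hx.1.le, hx.2.le⟩, ⟨hy.1.le, hy.2.le⟩⟩
    · -- corner
      have hs2 : s = B.e q i ∨ s = B.e q (B.sc i) := by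
        by_contra hcon
        push Not at hcon
        exact hb ⟨lt_of_le_of_ne hs'.1 hcon.1.symm, lt_of_le_of_ne hs'.2 hcon.2⟩
      have hunc : ∀ q4 i4, ¬ B.InBox q4 i4 s := by
        intro q4 i4
        rcases hs2 with h | h <;> rw [h]
        · exact not_box hi
        · exact not_box (ne_z _)
      have ht2 : t = B.e q3 i ∨ t = B.e q3 (B.sc i) := by
        by_contra hcon
        push Not at hcon
        obtain ⟨q4, i4, _, h4⟩ := (hE.c (B.col i)).2 ⟨q3, i, rfl,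
          lt_of_le_of_ne ht'.1 hcon.1.symm, lt_of_le_of_ne ht'.2 hcon.2⟩
        exact hunc _ _ h4
      obtain ⟨i0, hi0⟩ := (B.cases i).resolve_left hi
      have hj : ∃ j0, s = B.e q (B.sc j0) ∧ (B.sc j0 = i ∨ B.sc j0 = B.sc i) := by
        rcases hs2 with h | h
        · exact ⟨i0, hi0 ▸ h, Or.inl hi0.symm⟩
        · exact ⟨i, h, Or.inr rfl⟩
      have hm : ∃ m0, t = B.e q3 (B.sc m0) ∧ (B.sc m0 = i ∨ B.sc m0 = B.sc i) := by
        rcases ht2 with h | h
        · exact ⟨i0, hi0 ▸ h, Or.inl hi0.symm⟩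
        · exact ⟨i, h, Or.inr rfl⟩
      obtain ⟨j0, rfl, hj⟩ := hj
      obtain ⟨m0, rfl, hm⟩ := hm
      refine near_corner hqq hi hk hk' hj hm ?_
      rintro rfl
      exact lt_irrefl _ h1
  · -- the end point of the first box
    subst h1
    have h2 : B.e q (B.sc B.z) < B.e q (B.sc (B.sc B.z)) := B.es q (B.lt_sc _)
    refine ((Near.lt_left h2).and ((Near.gt_right ht.1).and (Near.lt_right ht.2))).mono ?_
    rintro x y ⟨hx, hy1, hy2⟩ hE'
    by_cases hx1 : x ≤ B.e q (B.sc B.z)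
    · exact Or.inl hx1
    push Not at hx1
    obtain ⟨q4, h4⟩ := hE'.st.1 ⟨q, hx1, hx⟩
    obtain rfl : q4 = q' := h4.inJ.eq ⟨hy1, hy2⟩
    exact Or.inr ⟨q4, hqq, B.sc B.z, ne_z _, B.kbig q, B.kbig q4, ⟨hx1.le, hx.le⟩, h4.cbox⟩

theorem near_not_cbox {q q' : Q} {x : N} {s t : R} (h : ¬ (B.InCBox q x s ∧ B.InCBox q' x t)) :
    Near s t (fun s t => ¬ (B.InCBox q x s ∧ B.InCBox q' x t)) := by
  by_cases h1 : B.InCBox q x s
  · have h2 : ¬ B.InCBox q' x t := fun h2 => h ⟨h1, h2⟩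
    by_cases h3 : B.e q' x ≤ t
    · have h4 : B.e q' (B.sc x) < t := by
        by_contra hc
        push Not at hc
        exact h2 ⟨h3, hc⟩
      exact (Near.gt_right h4).mono fun _ y hy h5 => absurd h5.2.2 (not_le.2 hy)
    · push Not at h3
      exact (Near.lt_right h3).mono fun _ y hy h5 => absurd h5.2.1 (not_le.2 hy)
  · by_cases h3 : B.e q x ≤ s
    · have h4 : B.e q (B.sc x) < s := by
        by_contra hc
        push Not at hc
        exact h1 ⟨h3, hc⟩
      exact (Near.gt_left h4).mono fun _ y hy h5 => absurd h5.1.2 (not_le.2 hy)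
    · push Not at h3
      exact (Near.lt_left h3).mono fun _ y hy h5 => absurd h5.1.1 (not_le.2 hy)

theorem near_false {q q' : Q} {s t : R} (hqq : q' ≠ q) (hs : B.InJ q s) (ht : B.InJ q' t)
    (hL : ¬ B.Lam q s t) : Near s t (fun s t => ¬ B.Lam q s t) := by
  have h1 : B.e q (B.sc B.z) < s := by
    by_contra hc
    push Not at hc
    exact hL (Or.inl hc)
  rcases B.loc q s hs.1 with h2 | ⟨j, h2, h3⟩
  · have h3 : B.e q (B.k q) < s := (B.es q (B.lt_sc _)).trans_le (h2 (B.sc (B.k q)))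
    refine (Near.gt_left h3).mono ?_
    rintro x y hx (h4 | ⟨q3, _, i, _, hk, _, h5, _⟩)
    · exact absurd (h4.trans ((B.es q).monotone (B.kbig q).le)) (not_le.2 hx)
    · exact absurd (h5.2.trans ((B.es q).monotone (B.sc_le hk))) (not_le.2 hx)
  · have hjz : j ≠ B.z := by
      rintro rfl
      exact absurd h1 (not_lt.2 h3.le)
    obtain ⟨j0, rfl⟩ := (B.cases j).resolve_left hjz
    have av : ∀ x, Near s t (fun s t => ¬ (x ≠ B.z ∧ x < B.k q ∧ x < B.k q' ∧
        B.InCBox q x s ∧ B.InCBox q' x t)) := by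
      intro x
      by_cases hx : x ≠ B.z ∧ x < B.k q ∧ x < B.k q'
      · have : ¬ (B.InCBox q x s ∧ B.InCBox q' x t) := fun h =>
          hL (Or.inr ⟨q', hqq, x, hx.1, hx.2.1, hx.2.2, h.1, h.2⟩)
        exact (near_not_cbox this).mono fun _ _ h h' => h h'.2.2.2
      · exact Near.pure fun _ _ h => hx ⟨h.1, h.2.1, h.2.2.1⟩
    refine (((Near.gt_left h1).and ((Near.gt_left ((B.es q (B.lt_sc j0)).trans_le h2)).and
      (Near.lt_left h3))).and (((Near.gt_right ht.1).and (Near.lt_right ht.2)).and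
      ((av j0).and (av (B.sc j0))))).mono ?_
    rintro x y ⟨⟨hx1, hx2, hx3⟩, hy, hav1, hav2⟩ (h4 | ⟨q3, _, i, hi, hk, hk', h5, h6⟩)
    · exact absurd h4 (not_le.2 hx1)
    · obtain rfl : q3 = q' := (h6.inJ hi).eq hy
      have k1 : i ≤ B.sc j0 := idx_le h5.1 hx3
      have k2 : j0 ≤ i := idx_le' hx2 h5.2
      rcases k1.lt_or_eq with k1 | k1
      · have : i = j0 := le_antisymm (le_of_lt_sc k1) k2
        subst this
        exact hav1 ⟨hi, hk, hk', h5, h6⟩
      · subst k1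
        exact hav2 ⟨hi, hk, hk', h5, h6⟩

/-- The barrier lemma. -/
theorem barrier {q : Q} {s t : R} (hE : B.Eqv s t) (hJ : ¬ (B.InJ q s ∧ B.InJ q t)) :
    Near s t (fun s' t' => B.Eqv s' t' → (B.Lam q s' t' ↔ B.Lam q s t)) := by
  have ne_z : ∀ x, B.sc x ≠ B.z := fun x h => absurd (B.lt_sc x) (not_lt.2 (h ▸ B.z_le x))
  by_cases hs : B.InJ q s
  · have ht : ¬ B.InJ q t := fun h => hJ ⟨hs, h⟩
    obtain ⟨q', hq'⟩ := hE.j.1 ⟨q, hs⟩
    have hqq : q' ≠ q := by
      rintro rfl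
      exact ht hq'
    by_cases hL : B.Lam q s t
    · exact (near_true hqq hs hq' hE hL).mono fun x y h hE' => iff_of_true (h hE') hL
    · exact (near_false hqq hs hq' hL).mono fun x y h hE' => iff_of_false h hL
  · by_cases h1 : s ≤ B.a q
    · have h2 : s < B.e q (B.sc B.z) := h1.trans_lt (a_lt (ne_z _))
      exact (Near.lt_left h2).mono fun x y hx _ => iff_of_true (Or.inl hx.le) (Or.inl h2.le)
    · push Not at h1
      have h2 : B.b q ≤ s := by
        by_contra hc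
        push Not at hc
        exact hs ⟨h1, hc⟩
      have h3 : B.e q (B.k q) < s := (B.eb q _).trans_le h2
      have h4 : ∀ x y, B.e q (B.k q) < x → ¬ B.Lam q x y := by
        rintro x y hx (h4 | ⟨q3, _, i, _, hk, _, h5, _⟩)
        · exact absurd (h4.trans ((B.es q).monotone (B.kbig q).le)) (not_le.2 hx)
        · exact absurd (h5.2.trans ((B.es q).monotone (B.sc_le hk))) (not_le.2 hx)
      exact (Near.gt_left h3).mono fun x y hx _ => iff_of_false (h4 x y hx) (h4 s t h3)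

end ABS

end Pool.Agent.ZT
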