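import Pool.Agent.Lib_helper91.ZT.BS
import Pool.Agent.Lib_helper91.ZT.BarAbs

/-!
# The barrier lemma in a model of ZF
-/

set_option linter.unusedSectionVars false
set_option linter.unusedVariables false

universe u

namespace Pool.Agent.ZT

open FirstOrder Language Pool.Agent.ZF1

section
variable {V : Type u} [Lset.Structure V] [IsZF V]

/-- the order of the natural numbers of the model -/
@[reducible]
noncomputable def natOrd : LinearOrder {n : V // n ∈ (omega : V)} where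
  le a b := a.1 ∈ b.1 ∨ a = b
  lt a b := a.1 ∈ b.1
  le_refl a := Or.inr rfl
  le_trans a b c h1 h2 := by
    rcases h1 with h1 | rfl
    · rcases h2 with h2 | rfl
      · exact Or.inl (nat_lt_trans c.2 h1 h2)
      · exact Or.inl h1
    · exact h2
  le_antisymm a b h1 h2 := by
    rcases h1 with h1 | h1
    · rcases h2 with h2 | h2
      · exact (not_mem_mem h1 h2).elim
      · exact h2.symm
    · exact h1
  le_total a b := by
    rcases nat_tri b.2 a.1 a.2 with h | h | h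
    · exact Or.inl (Or.inl h)
    · exact Or.inl (Or.inr (Subtype.ext h))
    · exact Or.inr (Or.inl h)
  lt_iff_le_not_ge a b := by
    constructor
    · intro h1
      refine ⟨Or.inl h1, ?_⟩
      rintro (h2 | h2)
      · exact not_mem_mem h1 h2
      · rw [h2] at h1
        exact not_mem_self _ h1
    · rintro ⟨h1 | h1, h2⟩
      · exact h1
      · exact absurd (Or.inr h1.symm) h2
  toDecidableLE := Classical.decRel _

variable {B : BS V}

theorem BS.Ok.kR (hB : B.Ok) {q : V} (hq : q ∈ B.Q) : B.k q ∈ (omega : V) :=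
  succ_mem_omega (succ_mem_omega (hB.line.cnt.1 q hq))

theorem BS.Ok.mono (hB : B.Ok) {q : V} (hq : q ∈ B.Q) : ∀ j ∈ (omega : V), ∀ i ∈ j,
    Lt B.lt (ap B.e (opair q i)) (ap B.e (opair q j)) := by
  refine nat_ind (Q := fun j => ∀ i ∈ j, Lt B.lt (ap B.e (opair q i)) (ap B.e (opair q j))) ?_ ?_
  · intro i hi
    exact absurd hi (not_mem_emp i)
  · intro j hj ih i hi
    rcases mem_succ.1 hi with hi | rfl
    · exact hB.line.trans _ (hB.eR q hq i (omega_trans hj i hi)) _ (hB.eR q hq j hj) _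
        (hB.eR q hq _ (succ_mem_omega hj)) (ih i hi) (hB.es q hq j hj)
    · exact hB.es q hq _ hj

theorem BS.Ok.loc (hB : B.Ok) {q s : V} (hq : q ∈ B.Q) (hs : s ∈ B.R)
    (h : Lt B.lt (ap B.a q) s) : (∀ j ∈ (omega : V), Le B.lt (ap B.e (opair q j)) s) ∨
    ∃ j ∈ (omega : V), Le B.lt (ap B.e (opair q j)) s ∧
      Lt B.lt s (ap B.e (opair q (succ j))) := by
  by_cases hex : ∃ n ∈ (omega : V), Lt B.lt s (ap B.e (opair q n))
  · right
    obtain ⟨n, hn, h1, h2⟩ := exists_min (fun n => Lt B.lt s (ap B.e (opair q n))) hex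
    rcases nat_cases hn with rfl | ⟨j, hj, rfl⟩
    · rw [hB.e0 q hq] at h1
      exact absurd (hB.line.trans _ (hB.aR q hq) _ hs _ (hB.aR q hq) h h1)
        (hB.line.irr _ (hB.aR q hq))
    · refine ⟨j, hj, ?_, h1⟩
      rw [← hB.line.not_lt hs (hB.eR q hq j hj)]
      intro h3
      rcases h2 j hj h3 with h4 | h4
      · have h5 : j ∈ succ j := mem_succ.2 (Or.inr rfl)
        rw [h4] at h5
        exact not_mem_self j h5
      · exact not_mem_mem h4 (mem_succ.2 (Or.inr rfl))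
  · left
    intro j hj
    rw [← hB.line.not_lt hs (hB.eR q hq j hj)]
    exact fun h3 => hex ⟨j, hj, h3⟩

/-- the abstract block system of a block system -/
noncomputable def BS.Ok.abs (hB : B.Ok) :
    let _ := hB.line.ord
    let _ := natOrd (V := V)
    ABS {x : V // x ∈ B.R} {q : V // q ∈ B.Q} {n : V // n ∈ (omega : V)} V :=
  let _ := hB.line.ord
  let _ := natOrd (V := V)
  { z := ⟨emp, emp_mem_omega⟩
    sc := fun i => ⟨succ i.1, succ_mem_omega i.2⟩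
    lt_sc := fun i => mem_succ.2 (Or.inr rfl)
    sc_le := fun {i j} h => by
      rcases nat_succ_le j.2 i.1 h with h | h
      · exact Or.inl h
      · exact Or.inr (Subtype.ext h)
    z_le := fun i => by
      rcases nat_emp_or i.2 with h | h
      · exact Or.inr (Subtype.ext h.symm)
      · exact Or.inl h
    cases := fun i => by
      rcases nat_cases i.2 with h | ⟨j, hj, h⟩
      · exact Or.inl (Subtype.ext h)
      · exact Or.inr ⟨⟨j, hj⟩, Subtype.ext h⟩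
    a := fun q => ⟨ap B.a q.1, hB.aR q.1 q.2⟩
    b := fun q => ⟨ap B.b q.1, hB.bR q.1 q.2⟩
    e := fun q i => ⟨ap B.e (opair q.1 i.1), hB.eR q.1 q.2 i.1 i.2⟩
    k := fun q => ⟨B.k q.1, hB.kR q.2⟩
    col := fun i => ap B.col i.1
    e0 := fun q => Subtype.ext (hB.e0 q.1 q.2)
    es := fun q i j h => hB.mono q.2 j.1 j.2 i.1 h
    eb := fun q i => hB.eb q.1 q.2 i.1 i.2
    disj := fun {q q' s} h1 h2 h3 h4 => by
      have key : ∀ q q' : {q : V // q ∈ B.Q}, ∀ s : {x : V // x ∈ B.R},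
          Lt B.lt s.1 (ap B.b q.1) → Lt B.lt (ap B.a q'.1) s.1 → ¬ Lt B.lt q.1 q'.1 := by
        intro q q' s h1 h2 h3
        have h4 := hB.ord q.1 q.2 q'.1 q'.2 h3
        have h5 := hB.line.trans _ s.2 _ (hB.bR q.1 q.2) _ (hB.aR q'.1 q'.2) h1 h4
        exact hB.line.irr _ s.2 (hB.line.trans _ s.2 _ (hB.aR q'.1 q'.2) _ s.2 h5 h2)
      rcases hB.line.tri q.1 (hB.line.sub _ q.2) q'.1 (hB.line.sub _ q'.2) with h | h | h
      · exact absurd h (key q q' s h2 h3)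
      · exact Subtype.ext h
      · exact absurd h (key q' q s h4 h1)
    kinj := fun {q q'} h => by
      have h1 : B.k q.1 = B.k q'.1 := congrArg Subtype.val h
      exact Subtype.ext (hB.line.cnt.2 _ q.2 _ q'.2 (succ_inj (succ_inj h1)))
    kbig := fun q => by
      change succ emp ∈ succ (succ (ap B.io q.1))
      have h := hB.line.cnt.1 q.1 q.2
      rw [mem_succ]
      rcases nat_emp_or h with h1 | h1
      · right; rw [h1]
      · left
        rw [mem_succ]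
        exact nat_succ_le h _ h1
    c1 := fun i => hB.c1 i.1 i.2
    c2 := fun i => hB.c2 i.1 i.2
    loc := fun q s h => by
      rcases hB.loc q.2 s.2 h with h1 | ⟨j, hj, h1⟩
      · exact Or.inl fun j => h1 j.1 j.2
      · exact Or.inr ⟨⟨j, hj⟩, h1⟩ }

/-- BAR -/
theorem barrier (hB : B.Ok) {q s t : V} (hq : q ∈ B.Q) (hs : s ∈ B.R) (ht : t ∈ B.R)
    (hst : B.Eqv s t) (hJ : ¬ (B.InJ q s ∧ B.InJ q t)) :
    ∃ l ∈ B.R, ∃ r ∈ B.R, ∃ l' ∈ B.R, ∃ r' ∈ B.R, Lt B.lt l s ∧ Lt B.lt s r ∧ Lt B.lt l' t ∧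
      Lt B.lt t r' ∧ ∀ s' ∈ B.R, ∀ t' ∈ B.R, Lt B.lt l s' → Lt B.lt s' r → Lt B.lt l' t' →
        Lt B.lt t' r' → B.Eqv s' t' → (B.Lam q s' t' ↔ B.Lam q s t) := by
  let _ := hB.line.ord
  let _ := natOrd (V := V)
  have _ : NoMinOrder {x : V // x ∈ B.R} := ⟨fun a => by
    obtain ⟨y, hy, h⟩ := hB.line.bot a.1 a.2
    exact ⟨⟨y, hy⟩, h⟩⟩
  have _ : NoMaxOrder {x : V // x ∈ B.R} := ⟨fun a => by
    obtain ⟨y, hy, h⟩ := hB.line.top a.1 a.2
    exact ⟨⟨y, hy⟩, h⟩⟩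
  have hE : ∀ s t : {x : V // x ∈ B.R}, B.Eqv s.1 t.1 → hB.abs.Eqv s t := by
    intro s t h
    have hc : ∀ (c : V) (s : {x : V // x ∈ B.R}), (∃ q i, hB.abs.col i = c ∧ hB.abs.InBox q i s) ↔
        ∃ q ∈ B.Q, ∃ i ∈ (omega : V), ap B.col i = c ∧ B.InBox q i s.1 := by
      intro c s
      constructor
      · rintro ⟨q, i, h1, h2⟩
        exact ⟨q.1, q.2, i.1, i.2, h1, h2⟩
      · rintro ⟨q, hq, i, hi, h1, h2⟩
        exact ⟨⟨q, hq⟩, ⟨i, hi⟩, h1, h2⟩
    refine ⟨?_, ?_, ?_, ?_⟩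
    · intro c
      rw [hc, hc]
      by_cases hc0 : c = emp
      · subst hc0; exact h 0
      by_cases hc1 : c = succ emp
      · subst hc1; exact h 1
      by_cases hc2 : c = succ (succ emp)
      · subst hc2; exact h 2
      · refine iff_of_false ?_ ?_
        all_goals
          rintro ⟨q, hq, i, hi, h1, h2⟩
          rcases hB.c3 i hi with h3 | h3 | h3
          · exact hc0 (h1.symm.trans h3)
          · exact hc1 (h1.symm.trans h3)
          · exact hc2 (h1.symm.trans h3)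
    · constructor
      · rintro ⟨q, h1⟩
        obtain ⟨q', hq', h2⟩ := (h 3).1 ⟨q.1, q.2, h1⟩
        exact ⟨⟨q', hq'⟩, h2⟩
      · rintro ⟨q, h1⟩
        obtain ⟨q', hq', h2⟩ := (h 3).2 ⟨q.1, q.2, h1⟩
        exact ⟨⟨q', hq'⟩, h2⟩
    · constructor
      · rintro ⟨q, h1⟩
        obtain ⟨q', hq', h2⟩ := (h 4).1 ⟨q.1, q.2, h1⟩
        exact ⟨⟨q', hq'⟩, h2⟩
      · rintro ⟨q, h1⟩
        obtain ⟨q', hq', h2⟩ := (h 4).2 ⟨q.1, q.2, h1⟩
        exact ⟨⟨q', hq'⟩, h2⟩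
    · constructor
      · rintro ⟨q, h1⟩
        obtain ⟨q', hq', h2⟩ := (h 5).1 ⟨q.1, q.2, h1⟩
        exact ⟨⟨q', hq'⟩, h2⟩
      · rintro ⟨q, h1⟩
        obtain ⟨q', hq', h2⟩ := (h 5).2 ⟨q.1, q.2, h1⟩
        exact ⟨⟨q', hq'⟩, h2⟩
  have hLam : ∀ s t : {x : V // x ∈ B.R}, hB.abs.Lam ⟨q, hq⟩ s t ↔ B.Lam q s.1 t.1 := by
    intro s t
    refine or_congr Iff.rfl ?_
    constructor
    · rintro ⟨q', h1, i, h2, h3, h4, h5, h6⟩
      exact ⟨q'.1, q'.2, fun h => h1 (Subtype.ext h), i.1, i.2, fun h => h2 (Subtype.ext h),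
        h3, h4, h5, h6⟩
    · rintro ⟨q', hq', h1, i, hi, h2, h3, h4, h5, h6⟩
      exact ⟨⟨q', hq'⟩, fun h => h1 (congrArg Subtype.val h), ⟨i, hi⟩,
        fun h => h2 (congrArg Subtype.val h), h3, h4, h5, h6⟩
  obtain ⟨l, r, l', r', h1, h2, h3, h4, h5⟩ := ABS.barrier (B := hB.abs) (q := ⟨q, hq⟩)
    (s := ⟨s, hs⟩) (t := ⟨t, ht⟩) (hE _ _ hst) hJ
  refine ⟨l.1, l.2, r.1, r.2, l'.1, l'.2, r'.1, r'.2, h1, h2, h3, h4, ?_⟩
  intro s' hs' t' ht' k1 k2 k3 k4 hE'
  have := h5 ⟨s', hs'⟩ ⟨t', ht'⟩ k1 k2 k3 k4 (hE _ _ hE')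
  rw [hLam, hLam] at this
  exact this

end

end Pool.Agent.ZT
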