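import Pool.Agent.Lib_helper91.ZT.Tools

/-!
# Spaces, the line, continuous functions (toolkit level)
-/

set_option linter.unusedSectionVars false
set_option linter.unusedVariables false

universe u

namespace Pool.Agent.ZT

open FirstOrder Language Pool.Agent.ZF1

section
variable {V : Type u} [Lset.Structure V] [IsZF V]

/-! ### Projections of ordered pairs -/

/-- first coordinate -/
noncomputable def p1 (z : V) : V := the fun x => ∃ y, z = opair x y

/-- second coordinate -/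
noncomputable def p2 (z : V) : V := the fun y => ∃ x, z = opair x y

@[simp] theorem p1_opair (x y : V) : p1 (opair x y) = x :=
  the_eq (P := fun x' => ∃ y', opair x y = opair x' y') ⟨y, rfl⟩
    fun z ⟨_, h⟩ => (opair_inj.1 h).1.symm

@[simp] theorem p2_opair (x y : V) : p2 (opair x y) = y :=
  the_eq (P := fun y' => ∃ x', opair x y = opair x' y') ⟨x, rfl⟩
    fun z ⟨_, h⟩ => (opair_inj.1 h).2.symm

instance {t : (ℕ → V) → V} [ht : DF t] : DF (fun v => p1 (t v)) := by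
  unfold p1
  have h1 : DF (fun v : ℕ → V => t (shift (shift v))) := ht.rename (fun n => n + 2)
  have h2 : DF (fun v : ℕ → V => t (shift v)) := ht.rename (fun n => n + 1)
  exact DF.the (P := fun x v => ∃ y, t v = opair x y)

instance {t : (ℕ → V) → V} [ht : DF t] : DF (fun v => p2 (t v)) := by
  unfold p2
  have h1 : DF (fun v : ℕ → V => t (shift (shift v))) := ht.rename (fun n => n + 2)
  have h2 : DF (fun v : ℕ → V => t (shift v)) := ht.rename (fun n => n + 1)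
  exact DF.the (P := fun y v => ∃ x, t v = opair x y)

/-! ### Topological spaces -/

/-- `(X, T)` is a topological space -/
structure Top (X T : V) : Prop where
  sub : ∀ U ∈ T, Sub U X
  univ : X ∈ T
  inter : ∀ U ∈ T, ∀ W ∈ T, ZF1.inter U W ∈ T
  sUn : ∀ F, Sub F T → ZF1.sUn F ∈ T

/-- `C` is closed in `(X, T)` -/
def Cl (X T C : V) : Prop := Sub C X ∧ diff X C ∈ T

/-- `C` is open and closed in `(X, T)` -/
def Clo (X T C : V) : Prop := C ∈ T ∧ diff X C ∈ T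

/-- the closure of `A` is contained in `B` -/
def Way (X T A B : V) : Prop := ∀ x ∈ X, x ∉ B → ∃ U ∈ T, x ∈ U ∧ ∀ y ∈ U, y ∉ A

/-- points are closed -/
def T1 (X T : V) : Prop := ∀ x ∈ X, diff X (sing x) ∈ T

/-- distinct points have disjoint neighbourhoods -/
def Haus (X T : V) : Prop := ∀ x ∈ X, ∀ y ∈ X, x ≠ y →
  ∃ U ∈ T, ∃ W ∈ T, x ∈ U ∧ y ∈ W ∧ ∀ z ∈ U, z ∉ W

/-- every open cover has a countable subcover -/
def Lind (X T : V) : Prop := ∀ F, Sub F T → (∀ x ∈ X, ∃ U ∈ F, x ∈ U) →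
  ∃ G j, Sub G F ∧ Cnt G j ∧ ∀ x ∈ X, ∃ U ∈ G, x ∈ U

instance {t s r : (ℕ → V) → V} [ht : DF t] [hs : DF s] [hr : DF r] :
    DP (fun v => Cl (t v) (s v) (r v)) :=
  DP.comp3 (by unfold Cl; infer_instance) ht hs hr

instance {t s r : (ℕ → V) → V} [ht : DF t] [hs : DF s] [hr : DF r] :
    DP (fun v => Clo (t v) (s v) (r v)) :=
  DP.comp3 (by unfold Clo; infer_instance) ht hs hr

instance {t s r q : (ℕ → V) → V} [ht : DF t] [hs : DF s] [hr : DF r] [hq : DF q] :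
    DP (fun v => Way (t v) (s v) (r v) (q v)) :=
  DP.comp4 (R := Way) (by unfold Way; infer_instance) ht hs hr hq

/-- `N` is a proper ideal of subsets of `X` -/
structure Idl (X N : V) : Prop where
  sub : ∀ A ∈ N, Sub A X
  emp : ZF1.emp ∈ N
  mono : ∀ A ∈ N, ∀ B, Sub B A → B ∈ N
  un : ∀ A ∈ N, ∀ B ∈ N, ZF1.un A B ∈ N
  proper : X ∉ N

/-- countable choice for open sets -/
def CC (T : V) : Prop := ∀ (I j : V), Cnt I j → ∀ (P : V → V → Prop),
  DP (fun v => P (v 0) (v 1)) → (∀ i ∈ I, ∃ W ∈ T, P i W) →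
    ∃ c, IsFn c I ∧ ∀ i ∈ I, ap c i ∈ T ∧ P i (ap c i)

/-! ### The line -/

/-- `a < b` -/
def Lt (lt a b : V) : Prop := opair a b ∈ lt

/-- `a ≤ b` -/
def Le (lt a b : V) : Prop := opair a b ∈ lt ∨ a = b

instance {t s r : (ℕ → V) → V} [ht : DF t] [hs : DF s] [hr : DF r] :
    DP (fun v => Lt (t v) (s v) (r v)) :=
  DP.comp3 (by unfold Lt; infer_instance) ht hs hr

instance {t s r : (ℕ → V) → V} [ht : DF t] [hs : DF s] [hr : DF r] :
    DP (fun v => Le (t v) (s v) (r v)) :=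
  DP.comp3 (by unfold Le; infer_instance) ht hs hr

/-- `(R, lt)` is the real line, `Q` a countable dense subset and `io` an injection of `Q` into the
natural numbers. -/
structure Line (R lt Q io : V) : Prop where
  ne : ∃ x, x ∈ R
  irr : ∀ x ∈ R, ¬ Lt lt x x
  trans : ∀ x ∈ R, ∀ y ∈ R, ∀ z ∈ R, Lt lt x y → Lt lt y z → Lt lt x z
  tri : ∀ x ∈ R, ∀ y ∈ R, Lt lt x y ∨ x = y ∨ Lt lt y x
  bot : ∀ x ∈ R, ∃ y ∈ R, Lt lt y x
  top : ∀ x ∈ R, ∃ y ∈ R, Lt lt x y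
  sub : Sub Q R
  cnt : Cnt Q io
  dense : ∀ x ∈ R, ∀ y ∈ R, Lt lt x y → ∃ q ∈ Q, Lt lt x q ∧ Lt lt q y
  sup : ∀ A, Sub A R → (∃ x, x ∈ A) → (∃ b ∈ R, ∀ x ∈ A, Le lt x b) →
    ∃ s ∈ R, (∀ x ∈ A, Le lt x s) ∧ ∀ b ∈ R, (∀ x ∈ A, Le lt x b) → Le lt s b

namespace Line

variable {R lt Q io : V} (h : Line R lt Q io)
include h

/-- the order of the line on the type of its elements -/
@[reducible]
noncomputable def ord : LinearOrder {x : V // x ∈ R} where
  le a b := Le lt a.1 b.1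
  lt a b := Lt lt a.1 b.1
  le_refl a := Or.inr rfl
  le_trans a b c h1 h2 := by
    rcases h1 with h1 | h1
    · rcases h2 with h2 | h2
      · exact Or.inl (h.trans _ a.2 _ b.2 _ c.2 h1 h2)
      · exact Or.inl (h2 ▸ h1)
    · rcases h2 with h2 | h2
      · exact Or.inl (h1 ▸ h2)
      · exact Or.inr (h1.trans h2)
  le_antisymm a b h1 h2 := by
    rcases h1 with h1 | h1
    · rcases h2 with h2 | h2
      · exact absurd (h.trans _ a.2 _ b.2 _ a.2 h1 h2) (h.irr _ a.2)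
      · exact Subtype.ext h2.symm
    · exact Subtype.ext h1
  le_total a b := by
    rcases h.tri _ a.2 _ b.2 with h1 | h1 | h1
    · exact Or.inl (Or.inl h1)
    · exact Or.inl (Or.inr h1)
    · exact Or.inr (Or.inl h1)
  lt_iff_le_not_ge a b := by
    constructor
    · intro h1
      refine ⟨Or.inl h1, ?_⟩
      rintro (h2 | h2)
      · exact h.irr _ a.2 (h.trans _ a.2 _ b.2 _ a.2 h1 h2)
      · rw [h2] at h1
        exact h.irr _ a.2 h1
    · rintro ⟨h1 | h1, h2⟩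
      · exact h1
      · exact absurd (Or.inr h1.symm) h2
  toDecidableLE := Classical.decRel _

theorem not_lt {a b : V} (ha : a ∈ R) (hb : b ∈ R) : ¬ Lt lt a b ↔ Le lt b a := by
  let _ := h.ord
  exact _root_.not_lt (a := (⟨a, ha⟩ : {x : V // x ∈ R})) (b := ⟨b, hb⟩)

theorem not_le {a b : V} (ha : a ∈ R) (hb : b ∈ R) : ¬ Le lt a b ↔ Lt lt b a := by
  let _ := h.ord
  exact _root_.not_le (a := (⟨a, ha⟩ : {x : V // x ∈ R})) (b := ⟨b, hb⟩)

theorem lt_of_lt_of_le {a b c : V} (ha : a ∈ R) (hb : b ∈ R) (hc : c ∈ R)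
    (h1 : Lt lt a b) (h2 : Le lt b c) : Lt lt a c := by
  let _ := h.ord
  exact _root_.lt_of_lt_of_le (a := (⟨a, ha⟩ : {x : V // x ∈ R})) (b := ⟨b, hb⟩) (c := ⟨c, hc⟩)
    h1 h2

theorem lt_of_le_of_lt {a b c : V} (ha : a ∈ R) (hb : b ∈ R) (hc : c ∈ R)
    (h1 : Le lt a b) (h2 : Lt lt b c) : Lt lt a c := by
  let _ := h.ord
  exact _root_.lt_of_le_of_lt (a := (⟨a, ha⟩ : {x : V // x ∈ R})) (b := ⟨b, hb⟩) (c := ⟨c, hc⟩)
    h1 h2

theorem le_trans {a b c : V} (ha : a ∈ R) (hb : b ∈ R) (hc : c ∈ R)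
    (h1 : Le lt a b) (h2 : Le lt b c) : Le lt a c := by
  let _ := h.ord
  exact _root_.le_trans (a := (⟨a, ha⟩ : {x : V // x ∈ R})) (b := ⟨b, hb⟩) (c := ⟨c, hc⟩)
    h1 h2

end Line

/-! ### Continuous functions into the line -/

/-- `k` is a continuous function from `(X, T)` to the line -/
structure Cts (X T R lt k : V) : Prop where
  fn : IsFn k X
  mem : ∀ x ∈ X, ap k x ∈ R
  below : ∀ r ∈ R, sb (fun x => Lt lt (ap k x) r) X ∈ T
  above : ∀ r ∈ R, sb (fun x => Lt lt r (ap k x)) X ∈ T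

theorem cts_iff {X T R lt k : V} : Cts X T R lt k ↔ IsFn k X ∧ (∀ x ∈ X, ap k x ∈ R) ∧
    (∀ r ∈ R, sb (fun x => Lt lt (ap k x) r) X ∈ T) ∧
    (∀ r ∈ R, sb (fun x => Lt lt r (ap k x)) X ∈ T) :=
  ⟨fun h => ⟨h.fn, h.mem, h.below, h.above⟩, fun ⟨h1, h2, h3, h4⟩ => ⟨h1, h2, h3, h4⟩⟩

instance {t1 t2 t3 t4 t5 : (ℕ → V) → V} [h1 : DF t1] [h2 : DF t2] [h3 : DF t3] [h4 : DF t4]
    [h5 : DF t5] : DP (fun v => Cts (t1 v) (t2 v) (t3 v) (t4 v) (t5 v)) :=
  DP.comp5 (R := Cts) (by simp only [cts_iff]; infer_instance) h1 h2 h3 h4 h5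

end

end Pool.Agent.ZT
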