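import Pool.Agent.Lib_helper91.ZT.TolA

/-!
# Block TOLB (countable and finite sets)
-/

set_option linter.unusedSectionVars false
set_option linter.unusedVariables false

universe u

namespace Pool.Agent.ZT

open FirstOrder Language Pool.Agent.ZF1

section
variable {V : Type u} [Lset.Structure V] [IsZF V]

/-! ## Block TOLB -/

/-- two injections of the natural numbers with disjoint ranges -/
theorem exists_two : ∃ d e : V, (∀ n ∈ (omega : V), ap d n ∈ (omega : V) ∧ ap e n ∈ (omega : V)) ∧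
    (∀ n ∈ (omega : V), ∀ m ∈ (omega : V), ap d n = ap d m → n = m) ∧
    (∀ n ∈ (omega : V), ∀ m ∈ (omega : V), ap e n = ap e m → n = m) ∧
    ∀ n ∈ (omega : V), ∀ m ∈ (omega : V), ap d n ≠ ap e m := by
  have hU : Unb (omega : V) := fun m hm => ⟨succ m, succ_mem_omega hm, mem_succ.2 (Or.inr rfl)⟩
  obtain ⟨E, hE, hE1, hE2⟩ := exists_split (sub_refl (omega : V)) hU
  have hE' : Sub (diff omega E) (omega : V) := fun z hz => (mem_diff.1 hz).1
  obtain ⟨d, _, hd, hd'⟩ := exists_enum hE hE1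
  obtain ⟨e, _, he, he'⟩ := exists_enum hE' hE2
  refine ⟨d, e, fun n hn => ⟨hE _ (hd n hn), hE' _ (he n hn)⟩, hd', he', fun n hn m hm h => ?_⟩
  exact (mem_diff.1 (he m hm)).2 (h ▸ hd n hn)

/-- a pairing function -/
theorem exists_pairing : ∃ g : V, (∀ m ∈ (omega : V), ∀ n ∈ (omega : V), ap (ap g m) n ∈ (omega : V)) ∧
    ∀ m ∈ (omega : V), ∀ n ∈ (omega : V), ∀ m' ∈ (omega : V), ∀ n' ∈ (omega : V),
      ap (ap g m) n = ap (ap g m') n' → m = m' ∧ n = n' := by
  obtain ⟨d, e, hde, hd, he, hne⟩ := exists_two (V := V)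
  obtain ⟨g, _, hg0, hgs⟩ := exists_rec e (fun _ s => lm omega fun i => ap d (ap s i))
  have hgs' : ∀ m ∈ (omega : V), ∀ n ∈ (omega : V),
      ap (ap g (succ m)) n = ap d (ap (ap g m) n) := by
    intro m hm n hn
    rw [hgs m hm]
    exact ap_lm (F := fun i => ap d (ap (ap g m) i)) hn
  have hmem : ∀ m ∈ (omega : V), ∀ n ∈ (omega : V), ap (ap g m) n ∈ (omega : V) := by
    refine nat_ind (Q := fun m => ∀ n ∈ (omega : V), ap (ap g m) n ∈ (omega : V)) ?_ ?_
    · intro n hn
      rw [hg0]; exact (hde n hn).2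
    · intro m hm ih n hn
      rw [hgs' m hm n hn]
      exact (hde _ (ih n hn)).1
  refine ⟨g, hmem, ?_⟩
  refine nat_ind (Q := fun m => ∀ n ∈ (omega : V), ∀ m' ∈ (omega : V), ∀ n' ∈ (omega : V),
      ap (ap g m) n = ap (ap g m') n' → m = m' ∧ n = n') ?_ ?_
  · intro n hn m' hm' n' hn' h
    rcases nat_cases hm' with rfl | ⟨m', hm1, rfl⟩
    · rw [hg0] at h
      exact ⟨rfl, he n hn n' hn' h⟩
    · rw [hg0, hgs' m' hm1 n' hn'] at h
      exact absurd h.symm (hne _ (hmem m' hm1 n' hn') n hn)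
  · intro m hm ih n hn m' hm' n' hn' h
    rcases nat_cases hm' with rfl | ⟨m', hm1, rfl⟩
    · rw [hg0, hgs' m hm n hn] at h
      exact absurd h (hne _ (hmem m hm n hn) n' hn')
    · rw [hgs' m hm n hn, hgs' m' hm1 n' hn'] at h
      obtain ⟨h1, h2⟩ := ih n hn m' hm1 n' hn' (hd _ (hmem m hm n hn) _ (hmem m' hm1 n' hn') h)
      exact ⟨by rw [h1], h2⟩

/-- TOL3: products of countable sets are countable -/
theorem cnt_prod {A B i j : V} (hA : Cnt A i) (hB : Cnt B j) : ∃ k : V, Cnt (prod A B) k := by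
  obtain ⟨g, hg, hg'⟩ := exists_pairing (V := V)
  have hap : ∀ a ∈ A, ∀ b ∈ B, ap (lm (prod A B) fun π => ap (ap g (ap i (p1 π))) (ap j (p2 π)))
      (opair a b) = ap (ap g (ap i a)) (ap j b) := by
    intro a ha b hb
    rw [ap_lm (F := fun π => ap (ap g (ap i (p1 π))) (ap j (p2 π))) (opair_mem_prod.2 ⟨ha, hb⟩),
      p1_opair, p2_opair]
  refine ⟨lm (prod A B) fun π => ap (ap g (ap i (p1 π))) (ap j (p2 π)), ?_, ?_⟩
  · intro z hz
    obtain ⟨a, ha, b, hb, rfl⟩ := mem_prod.1 hz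
    rw [hap a ha b hb]
    exact hg _ (hA.1 a ha) _ (hB.1 b hb)
  · intro z hz z' hz' h
    obtain ⟨a, ha, b, hb, rfl⟩ := mem_prod.1 hz
    obtain ⟨a', ha', b', hb', rfl⟩ := mem_prod.1 hz'
    rw [hap a ha b hb, hap a' ha' b' hb'] at h
    obtain ⟨h1, h2⟩ := hg' _ (hA.1 a ha) _ (hB.1 b hb) _ (hA.1 a' ha') _ (hB.1 b' hb') h
    rw [hA.2 a ha a' ha' h1, hB.2 b hb b' hb' h2]

/-- TOL4: natural numbers are finite -/
theorem kfin_nat {n : V} (hn : n ∈ (omega : V)) : Kfin n := by
  refine nat_ind (Q := fun n => Kfin n) kfin_emp ?_ n hn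
  intro n _ ih
  have : succ n = ins n n := ext fun z => by rw [mem_succ, mem_ins]
  rw [this]
  exact kfin_ins ih n

/-- TOL5: the elements of index below `n` form a finite set -/
theorem kfin_below {A j n : V} (hA : Cnt A j) (hn : n ∈ (omega : V)) :
    Kfin (sb (fun x => ap j x ∈ n) A) := by
  refine nat_ind (Q := fun n => Kfin (sb (fun x => ap j x ∈ n) A)) ?_ ?_ n hn
  · have : sb (fun x => ap j x ∈ (emp : V)) A = (emp : V) := ext fun z => by
      rw [mem_sb]
      exact ⟨fun h => absurd h.2 (not_mem_emp _), fun h => absurd h (not_mem_emp _)⟩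
    rw [this]; exact kfin_emp
  · intro n hn ih
    by_cases hex : ∃ x ∈ A, ap j x = n
    · obtain ⟨x, hx, hxn⟩ := hex
      refine kfin_sub (kfin_ins ih x) _ fun z hz => ?_
      obtain ⟨hz1, hz2⟩ := mem_sb.1 hz
      rcases mem_succ.1 hz2 with h | h
      · exact mem_ins.2 (Or.inl (mem_sb.2 ⟨hz1, h⟩))
      · exact mem_ins.2 (Or.inr (hA.2 z hz1 x hx (h.trans hxn.symm)))
    · refine kfin_sub ih _ fun z hz => ?_
      obtain ⟨hz1, hz2⟩ := mem_sb.1 hz
      rcases mem_succ.1 hz2 with h | h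
      · exact mem_sb.2 ⟨hz1, h⟩
      · exact absurd ⟨z, hz1, h⟩ hex

/-- TOL7: finite non-empty sets of elements of a line have a largest and a smallest element -/
theorem kfin_max_min {R lt Q io : V} (hR : Line R lt Q io) {A : V} (hA : Kfin A) (hs : Sub A R)
    (hne : ∃ x, x ∈ A) :
    (∃ m ∈ A, ∀ x ∈ A, Le lt x m) ∧ ∃ m ∈ A, ∀ x ∈ A, Le lt m x := by
  have key : Sub A R → (∃ x, x ∈ A) → (∃ m ∈ A, ∀ x ∈ A, Le lt x m) ∧ ∃ m ∈ A, ∀ x ∈ A, Le lt m x := by
    refine kfin_ind (Q := fun A => Sub A R → (∃ x, x ∈ A) →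
      (∃ m ∈ A, ∀ x ∈ A, Le lt x m) ∧ ∃ m ∈ A, ∀ x ∈ A, Le lt m x) hA ?_ ?_
    · rintro _ ⟨x, hx⟩; exact absurd hx (not_mem_emp x)
    · intro y a _ ih _ _ _ hsub _
      have haR : a ∈ R := hsub a (mem_ins_self y a)
      have hyR : Sub y R := fun z hz => hsub z (mem_ins.2 (Or.inl hz))
      by_cases hy : ∃ x, x ∈ y
      · obtain ⟨⟨m, hm, hm'⟩, l, hl, hl'⟩ := ih hyR hy
        constructor
        · by_cases h : Le lt m a
          · refine ⟨a, mem_ins_self y a, fun x hx => ?_⟩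
            rcases mem_ins.1 hx with hx | rfl
            · exact hR.le_trans (hyR x hx) (hyR m hm) haR (hm' x hx) h
            · exact Or.inr rfl
          · rw [hR.not_le (hyR m hm) haR] at h
            refine ⟨m, mem_ins.2 (Or.inl hm), fun x hx => ?_⟩
            rcases mem_ins.1 hx with hx | rfl
            · exact hm' x hx
            · exact Or.inl h
        · by_cases h : Le lt a l
          · refine ⟨a, mem_ins_self y a, fun x hx => ?_⟩
            rcases mem_ins.1 hx with hx | rfl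
            · exact hR.le_trans haR (hyR l hl) (hyR x hx) h (hl' x hx)
            · exact Or.inr rfl
          · rw [hR.not_le haR (hyR l hl)] at h
            refine ⟨l, mem_ins.2 (Or.inl hl), fun x hx => ?_⟩
            rcases mem_ins.1 hx with hx | rfl
            · exact hl' x hx
            · exact Or.inl h
      · have : ∀ x ∈ ins y a, x = a := fun x hx => by
          rcases mem_ins.1 hx with hx | hx
          · exact absurd ⟨x, hx⟩ hy
          · exact hx
        exact ⟨⟨a, mem_ins_self y a, fun x hx => Or.inr (this x hx)⟩,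
          a, mem_ins_self y a, fun x hx => Or.inr (this x hx).symm⟩
  exact key hs hne

end

end Pool.Agent.ZT
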