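import Pool.Agent.Lib_helper91.ZT.BS
import Pool.Agent.Lib_helper91.ZT.TolB

/-!
# Block BLK
-/

set_option linter.unusedSectionVars false
set_option linter.unusedVariables false

universe u

namespace Pool.Agent.ZT

open FirstOrder Language Pool.Agent.ZF1

section
variable {V : Type u} [Lset.Structure V] [IsZF V]

/-! ## Block BLK: existence of block systems -/

/-- finite images -/
theorem BLK_kfin_rp {I : V} (hI : Kfin I) (F : V → V) [hF : DF (fun v => F (v 0))] :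
    Kfin (rp F I) := by
  have hF' : ∀ (t : (ℕ → V) → V) [DF t], DF (fun v => F (t v)) := fun t ht => DF.comp1 hF ht
  refine kfin_image hI (fun a b => b = F a) (fun a _ b b' h h' => h.trans h'.symm) _ ?_
  intro z hz
  obtain ⟨i, hi, e⟩ := mem_rp.1 hz
  exact ⟨i, hi, e⟩

/-- the pair `z` can be used as the block of `q` relative to the finite set `s` of blocks -/
def BLKgood (lt u o s q z : V) : Prop := Lt lt u (p1 z) ∧ Lt lt (p1 z) (p2 z) ∧
  Lt lt (p2 z) o ∧ ∀ w ∈ s, (Lt lt (p1 w) q → Lt lt (p2 (p2 w)) (p1 z)) ∧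
    (Lt lt q (p1 w) → Lt lt (p2 z) (p1 (p2 w)))

instance {lt u o : V} {t s r : (ℕ → V) → V} [ht : DF t] [hs : DF s] [hr : DF r] :
    DP (fun v => BLKgood lt u o (t v) (s v) (r v)) :=
  DP.comp3 (R := BLKgood lt u o) (by unfold BLKgood; infer_instance) ht hs hr

/-- the invariant of the construction -/
def BLKinv (Q io lt u o n s : V) : Prop :=
  (∀ w ∈ s, ∃ q ∈ Q, ap io q ∈ n ∧ ∃ c ∈ Q, ∃ d ∈ Q, w = opair q (opair c d) ∧
    Lt lt u c ∧ Lt lt c d ∧ Lt lt d o) ∧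
  (∀ q ∈ Q, ap io q ∈ n → ∃ c d : V, opair q (opair c d) ∈ s) ∧
  (∀ q c d c' d' : V, opair q (opair c d) ∈ s → opair q (opair c' d') ∈ s → c = c' ∧ d = d') ∧
  (∀ q c d q' c' d' : V, opair q (opair c d) ∈ s → opair q' (opair c' d') ∈ s → Lt lt q q' →
    Lt lt d c') ∧ Kfin s

instance {Q io lt u o : V} {t s : (ℕ → V) → V} [ht : DF t] [hs : DF s] :
    DP (fun v => BLKinv Q io lt u o (t v) (s v)) :=
  DP.comp2 (R := BLKinv Q io lt u o) (by
    unfold BLKinv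
    refine @DP.and _ _ _ _ (by infer_instance) ?_
    refine @DP.and _ _ _ _ (by infer_instance) ?_
    refine @DP.and _ _ _ _ (by infer_instance) ?_
    refine @DP.and _ _ _ _ (by infer_instance) ?_
    infer_instance) ht hs

/-- existence of the next block -/
theorem BLK_next {R lt Q io u o : V} (hR : Line R lt Q io) (hu : u ∈ R) (ho : o ∈ R)
    (huo : Lt lt u o) {n s q : V} (hs : BLKinv Q io lt u o n s) (hq : q ∈ Q) :
    ∃ z, z ∈ sb (fun z => BLKgood lt u o s q z) (prod Q Q) := by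
  obtain ⟨h1, h2, h3, h4, h5⟩ := hs
  have hQ := hR.sub
  have hA1 : Kfin (ins (rp (fun w => p2 (p2 w)) (sb (fun w => Lt lt (p1 w) q) s)) u) :=
    kfin_ins (BLK_kfin_rp (kfin_sub h5 _ fun z hz => (mem_sb.1 hz).1) _) _
  have hB1 : Kfin (ins (rp (fun w => p1 (p2 w)) (sb (fun w => Lt lt q (p1 w)) s)) o) :=
    kfin_ins (BLK_kfin_rp (kfin_sub h5 _ fun z hz => (mem_sb.1 hz).1) _) _
  have hA : ∀ x, x ∈ ins (rp (fun w => p2 (p2 w)) (sb (fun w => Lt lt (p1 w) q) s)) u ↔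
      (∃ w ∈ s, Lt lt (p1 w) q ∧ x = p2 (p2 w)) ∨ x = u := by
    intro x
    rw [mem_ins, mem_rp]
    constructor
    · rintro (⟨w, hw, e⟩ | e)
      · exact Or.inl ⟨w, (mem_sb.1 hw).1, (mem_sb.1 hw).2, e⟩
      · exact Or.inr e
    · rintro (⟨w, hw, hw', e⟩ | e)
      · exact Or.inl ⟨w, mem_sb.2 ⟨hw, hw'⟩, e⟩
      · exact Or.inr e
  have hB : ∀ x, x ∈ ins (rp (fun w => p1 (p2 w)) (sb (fun w => Lt lt q (p1 w)) s)) o ↔
      (∃ w ∈ s, Lt lt q (p1 w) ∧ x = p1 (p2 w)) ∨ x = o := by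
    intro x
    rw [mem_ins, mem_rp]
    constructor
    · rintro (⟨w, hw, e⟩ | e)
      · exact Or.inl ⟨w, (mem_sb.1 hw).1, (mem_sb.1 hw).2, e⟩
      · exact Or.inr e
    · rintro (⟨w, hw, hw', e⟩ | e)
      · exact Or.inl ⟨w, mem_sb.2 ⟨hw, hw'⟩, e⟩
      · exact Or.inr e
  have hAR : Sub (ins (rp (fun w => p2 (p2 w)) (sb (fun w => Lt lt (p1 w) q) s)) u) R := by
    intro x hx
    rcases (hA x).1 hx with ⟨w, hw, -, rfl⟩ | rfl
    · obtain ⟨q', -, -, c, hc, d, hd, rfl, -⟩ := h1 w hw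
      rw [p2_opair, p2_opair]
      exact hQ d hd
    · exact hu
  have hBR : Sub (ins (rp (fun w => p1 (p2 w)) (sb (fun w => Lt lt q (p1 w)) s)) o) R := by
    intro x hx
    rcases (hB x).1 hx with ⟨w, hw, -, rfl⟩ | rfl
    · obtain ⟨q', -, -, c, hc, d, hd, rfl, -⟩ := h1 w hw
      rw [p2_opair, p1_opair]
      exact hQ c hc
    · exact ho
  obtain ⟨⟨m1, hm1, hm1'⟩, -⟩ := kfin_max_min hR hA1 hAR ⟨u, (hA u).2 (Or.inr rfl)⟩
  obtain ⟨-, m2, hm2, hm2'⟩ := kfin_max_min hR hB1 hBR ⟨o, (hB o).2 (Or.inr rfl)⟩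
  have hm12 : Lt lt m1 m2 := by
    rcases (hA m1).1 hm1 with ⟨w, hw, hwq, rfl⟩ | rfl
    · obtain ⟨q', hq', -, c, hc, d, hd, rfl, h6, h7, h8⟩ := h1 w hw
      rw [p2_opair, p2_opair]
      rw [p1_opair] at hwq
      rcases (hB m2).1 hm2 with ⟨w2, hw2, hwq2, rfl⟩ | rfl
      · obtain ⟨q2, hq2, -, c2, hc2, d2, hd2, rfl, -⟩ := h1 w2 hw2
        rw [p2_opair, p1_opair]
        rw [p1_opair] at hwq2
        exact h4 _ _ _ _ _ _ hw hw2 (hR.trans _ (hQ _ hq') _ (hQ _ hq) _ (hQ _ hq2) hwq hwq2)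
      · exact h8
    · rcases (hB m2).1 hm2 with ⟨w2, hw2, hwq2, rfl⟩ | rfl
      · obtain ⟨q2, hq2, -, c2, hc2, d2, hd2, rfl, h6, -⟩ := h1 w2 hw2
        rw [p2_opair, p1_opair]
        exact h6
      · exact huo
  have hm1R := hAR m1 hm1
  have hm2R := hBR m2 hm2
  obtain ⟨x, hx, hx1, hx2⟩ := hR.dense m1 hm1R m2 hm2R hm12
  obtain ⟨y, hy, hy1, hy2⟩ := hR.dense x (hQ x hx) m2 hm2R hx2
  refine ⟨opair x y, mem_sb.2 ⟨opair_mem_prod.2 ⟨hx, hy⟩, ?_⟩⟩
  unfold BLKgood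
  simp only [p1_opair, p2_opair]
  refine ⟨hR.lt_of_le_of_lt hu hm1R (hQ x hx) (hm1' u ((hA u).2 (Or.inr rfl))) hx1, hy1,
    hR.lt_of_lt_of_le (hQ y hy) hm2R ho hy2 (hm2' o ((hB o).2 (Or.inr rfl))), ?_⟩
  intro w hw
  constructor
  · intro hwq
    have h6 := (hA (p2 (p2 w))).2 (Or.inl ⟨w, hw, hwq, rfl⟩)
    exact hR.lt_of_le_of_lt (hAR _ h6) hm1R (hQ x hx) (hm1' _ h6) hx1
  · intro hwq
    have h6 := (hB (p1 (p2 w))).2 (Or.inl ⟨w, hw, hwq, rfl⟩)
    exact hR.lt_of_lt_of_le (hQ y hy) hm2R (hBR _ h6) hy2 (hm2' _ h6)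

/-- the blocks -/
theorem BLK_ab {R lt Q io u o : V} (hR : Line R lt Q io) (hu : u ∈ R) (ho : o ∈ R)
    (huo : Lt lt u o) : ∃ a b : V, ∀ q ∈ Q, ap a q ∈ R ∧ ap b q ∈ R ∧ Lt lt u (ap a q) ∧
      Lt lt (ap a q) (ap b q) ∧ Lt lt (ap b q) o ∧
      ∀ q' ∈ Q, Lt lt q q' → Lt lt (ap b q) (ap a q') := by
  have hQ := hR.sub
  obtain ⟨k, hk⟩ := cnt_prod hR.cnt hR.cnt
  have hDF : DF (fun v : ℕ → V => un (v 1) (rp (fun q => opair q (fst k
    (sb (fun z => BLKgood lt u o (v 1) q z) (prod Q Q)))) (sb (fun q => ap io q = v 0) Q))) :=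
    inferInstance
  obtain ⟨S, hS, hS0, hSs⟩ := exists_rec (emp : V) (fun n s => un s (rp (fun q => opair q (fst k
    (sb (fun z => BLKgood lt u o s q z) (prod Q Q)))) (sb (fun q => ap io q = n) Q)))
  -- the invariant
  have hinv : ∀ n ∈ (omega : V), BLKinv Q io lt u o n (ap S n) := by
    intro n hn
    refine nat_ind (Q := fun n => BLKinv Q io lt u o n (ap S n)) ?_ ?_ n hn
    · rw [hS0]
      refine ⟨fun w hw => absurd hw (not_mem_emp w), fun q _ h => absurd h (not_mem_emp _),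
        fun _ _ _ _ _ h => absurd h (not_mem_emp _), fun _ _ _ _ _ _ h => absurd h (not_mem_emp _),
        kfin_emp⟩
    · intro n hn ih
      have hnext : ∀ q ∈ Q, fst k (sb (fun z => BLKgood lt u o (ap S n) q z) (prod Q Q)) ∈
          sb (fun z => BLKgood lt u o (ap S n) q z) (prod Q Q) := fun q hq =>
        (fst_spec hk (fun z hz => (mem_sb.1 hz).1) (BLK_next hR hu ho huo ih hq)).1
      obtain ⟨h1, h2, h3, h4, h5⟩ := ih
      have hmem : ∀ w, w ∈ ap S (succ n) ↔ w ∈ ap S n ∨ ∃ q ∈ Q, ap io q = n ∧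
          w = opair q (fst k (sb (fun z => BLKgood lt u o (ap S n) q z) (prod Q Q))) := by
        intro w
        rw [hSs n hn, mem_un, mem_rp]
        constructor
        · rintro (h | ⟨q, hq, e⟩)
          · exact Or.inl h
          · exact Or.inr ⟨q, (mem_sb.1 hq).1, (mem_sb.1 hq).2, e⟩
        · rintro (h | ⟨q, hq, hq', e⟩)
          · exact Or.inl h
          · exact Or.inr ⟨q, mem_sb.2 ⟨hq, hq'⟩, e⟩
      -- the new element
      have hnew : ∀ q ∈ Q, ap io q = n → ∃ c ∈ Q, ∃ d ∈ Q,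
          fst k (sb (fun z => BLKgood lt u o (ap S n) q z) (prod Q Q)) = opair c d ∧
          Lt lt u c ∧ Lt lt c d ∧ Lt lt d o ∧
          ∀ q' c' d' : V, opair q' (opair c' d') ∈ ap S n →
            (Lt lt q' q → Lt lt d' c) ∧ (Lt lt q q' → Lt lt d c') := by
        intro q hq _
        obtain ⟨h6, h7⟩ := mem_sb.1 (hnext q hq)
        obtain ⟨c, hc, d, hd, e⟩ := mem_prod.1 h6
        rw [e] at h7
        refine ⟨c, hc, d, hd, e, ?_⟩
        unfold BLKgood at h7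
        simp only [p1_opair, p2_opair] at h7
        refine ⟨h7.1, h7.2.1, h7.2.2.1, fun q' c' d' hw => ?_⟩
        have := h7.2.2.2 _ hw
        simp only [p1_opair, p2_opair] at this
        exact this
      have hold : ∀ q c d : V, opair q (opair c d) ∈ ap S n → ap io q ≠ n := by
        intro q c d hw e
        obtain ⟨q', hq', hn', c', -, d', -, e', -⟩ := h1 _ hw
        rw [(opair_inj.1 e').1] at e
        rw [e] at hn'
        exact not_mem_self _ hn'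
      refine ⟨?_, ?_, ?_, ?_, ?_⟩
      · intro w hw
        rcases (hmem w).1 hw with h | ⟨q, hq, e, rfl⟩
        · obtain ⟨q, hq, hqn, h'⟩ := h1 w h
          exact ⟨q, hq, mem_succ.2 (Or.inl hqn), h'⟩
        · obtain ⟨c, hc, d, hd, e', h6, h7, h8, -⟩ := hnew q hq e
          exact ⟨q, hq, mem_succ.2 (Or.inr e), c, hc, d, hd, by rw [e'], h6, h7, h8⟩
      · intro q hq hqn
        rcases mem_succ.1 hqn with h | h
        · obtain ⟨c, d, h'⟩ := h2 q hq h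
          exact ⟨c, d, (hmem _).2 (Or.inl h')⟩
        · obtain ⟨c, hc, d, hd, e', -⟩ := hnew q hq h
          exact ⟨c, d, (hmem _).2 (Or.inr ⟨q, hq, h, by rw [e']⟩)⟩
      · intro q c d c' d' hw hw'
        rcases (hmem _).1 hw with h | ⟨q1, hq1, e, h⟩
        · rcases (hmem _).1 hw' with h' | ⟨q2, hq2, e', h'⟩
          · exact h3 q c d c' d' h h'
          · rw [← (opair_inj.1 h').1] at e'
            exact absurd e' (hold q c d h)
        · obtain ⟨e1, e2⟩ := opair_inj.1 h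
          subst e1
          rcases (hmem _).1 hw' with h' | ⟨q2, hq2, e', h'⟩
          · exact absurd e (hold q c' d' h')
          · obtain ⟨e3, e4⟩ := opair_inj.1 h'
            subst e3
            rw [← e2] at e4
            exact ⟨(opair_inj.1 e4).1.symm, (opair_inj.1 e4).2.symm⟩
      · intro q c d q' c' d' hw hw' hqq
        rcases (hmem _).1 hw with h | ⟨q1, hq1, e, h⟩
        · rcases (hmem _).1 hw' with h' | ⟨q2, hq2, e', h'⟩
          · exact h4 q c d q' c' d' h h' hqq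
          · obtain ⟨e3, e4⟩ := opair_inj.1 h'
            subst e3
            obtain ⟨c2, hc2, d2, hd2, e5, -, -, -, h6⟩ := hnew q' hq2 e'
            rw [e5] at e4
            obtain ⟨rfl, rfl⟩ := opair_inj.1 e4
            exact (h6 q c d h).1 hqq
        · obtain ⟨e1, e2⟩ := opair_inj.1 h
          subst e1
          obtain ⟨c1, hc1, d1, hd1, e5, -, -, -, h6⟩ := hnew q hq1 e
          rw [e5] at e2
          obtain ⟨rfl, rfl⟩ := opair_inj.1 e2
          rcases (hmem _).1 hw' with h' | ⟨q2, hq2, e', h'⟩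
          · exact (h6 q' c' d' h').2 hqq
          · obtain ⟨e3, e4⟩ := opair_inj.1 h'
            subst e3
            have := hR.cnt.2 q hq1 q' hq2 (e.trans e'.symm)
            subst this
            exact absurd hqq (hR.irr _ (hQ _ hq1))
      · rw [hSs n hn]
        refine kfin_un h5 (BLK_kfin_rp ?_ _)
        have : Sub (sb (fun q => ap io q = n) Q) (sb (fun q => ap io q ∈ succ n) Q) := by
          intro q hq
          obtain ⟨h6, h7⟩ := mem_sb.1 hq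
          exact mem_sb.2 ⟨h6, mem_succ.2 (Or.inr h7)⟩
        exact kfin_sub (kfin_below hR.cnt (succ_mem_omega hn)) _ this
  -- monotonicity
  have hmono : ∀ n ∈ (omega : V), ∀ m ∈ n, Sub (ap S m) (ap S n) := by
    intro n hn
    refine nat_ind (Q := fun n => ∀ m ∈ n, Sub (ap S m) (ap S n)) ?_ ?_ n hn
    · intro m hm; exact absurd hm (not_mem_emp m)
    · intro n hn ih m hm
      have h1 : Sub (ap S n) (ap S (succ n)) := by
        rw [hSs n hn]; exact sub_un_left _ _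
      rcases mem_succ.1 hm with hm | rfl
      · exact sub_trans (ih m hm) h1
      · exact h1
  have hcommon : ∀ n ∈ (omega : V), ∀ m ∈ (omega : V), ∀ w w', w ∈ ap S n → w' ∈ ap S m →
      ∃ l ∈ (omega : V), w ∈ ap S l ∧ w' ∈ ap S l := by
    intro n hn m hm w w' hw hw'
    rcases nat_tri hn m hm with h | h | h
    · exact ⟨n, hn, hw, hmono n hn m h w' hw'⟩
    · subst h; exact ⟨m, hn, hw, hw'⟩
    · exact ⟨m, hm, hmono m hm n h w hw, hw'⟩
  have hex : ∀ q ∈ Q, ∃! z, ∃ n ∈ (omega : V), opair q z ∈ ap S n := by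
    intro q hq
    have hq' := hR.cnt.1 q hq
    obtain ⟨c, d, h⟩ := (hinv _ (succ_mem_omega hq')).2.1 q hq (mem_succ.2 (Or.inr rfl))
    refine ⟨opair c d, ⟨_, succ_mem_omega hq', h⟩, ?_⟩
    rintro z ⟨m, hm, hz⟩
    obtain ⟨l, hl, h1, h2⟩ := hcommon _ (succ_mem_omega hq') m hm _ _ h hz
    obtain ⟨q1, -, -, c1, -, d1, -, e, -⟩ := (hinv l hl).1 _ h2
    obtain ⟨e1, e2⟩ := opair_inj.1 e
    subst e1
    subst e2
    obtain ⟨rfl, rfl⟩ := (hinv l hl).2.2.1 _ _ _ _ _ h1 h2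
    rfl
  obtain ⟨f, hf, hf'⟩ := exists_fn Q (fun q z => ∃ n ∈ (omega : V), opair q z ∈ ap S n) hex
  refine ⟨lm Q (fun q => p1 (ap f q)), lm Q (fun q => p2 (ap f q)), fun q hq => ?_⟩
  rw [ap_lm (F := fun q => p1 (ap f q)) hq, ap_lm (F := fun q => p2 (ap f q)) hq]
  obtain ⟨n, hn, hw⟩ := hf' q hq
  obtain ⟨q1, -, -, c, hc, d, hd, e, h1, h2, h3⟩ := (hinv n hn).1 _ hw
  obtain ⟨e1, e2⟩ := opair_inj.1 e
  rw [e2, p1_opair, p2_opair]
  refine ⟨hQ c hc, hQ d hd, h1, h2, h3, ?_⟩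
  intro q' hq' hqq
  rw [ap_lm (F := fun q => p1 (ap f q)) hq']
  obtain ⟨m, hm, hw'⟩ := hf' q' hq'
  obtain ⟨l, hl, h4, h5⟩ := hcommon n hn m hm _ _ hw hw'
  obtain ⟨q2, -, -, c', hc', d', hd', e', -⟩ := (hinv l hl).1 _ h5
  obtain ⟨e3, e4⟩ := opair_inj.1 e'
  rw [e4, p1_opair]
  rw [e2] at h4
  rw [e4] at h5
  exact (hinv l hl).2.2.2.1 _ _ _ _ _ _ h4 h5 hqq

/-- the points of the blocks -/
theorem BLK_e {R lt Q io a b : V} (hR : Line R lt Q io) (hab : ∀ q ∈ Q, ap a q ∈ R ∧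
    ap b q ∈ R ∧ Lt lt (ap a q) (ap b q)) : ∃ e : V, ∀ q ∈ Q,
      ap e (opair q emp) = ap a q ∧ ∀ i ∈ (omega : V), ap e (opair q i) ∈ R ∧
        Lt lt (ap e (opair q i)) (ap e (opair q (succ i))) ∧ Lt lt (ap e (opair q i)) (ap b q) := by
  have hQ := hR.sub
  have hDF : DF (fun v : ℕ → V => lm Q (fun q => fst io
    (sb (fun s => Lt lt (ap (v 1) q) s ∧ Lt lt s (ap b q)) Q))) := inferInstance
  obtain ⟨E, hE, hE0, hEs⟩ := exists_rec (lm Q (fun q => ap a q)) (fun n f => lm Q (fun q => fst io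
    (sb (fun s => Lt lt (ap f q) s ∧ Lt lt s (ap b q)) Q)))
  have hstep : ∀ q ∈ Q, ∀ x ∈ R, Lt lt x (ap b q) →
      fst io (sb (fun s => Lt lt x s ∧ Lt lt s (ap b q)) Q) ∈ Q ∧
      Lt lt x (fst io (sb (fun s => Lt lt x s ∧ Lt lt s (ap b q)) Q)) ∧
      Lt lt (fst io (sb (fun s => Lt lt x s ∧ Lt lt s (ap b q)) Q)) (ap b q) := by
    intro q hq x hx hxb
    obtain ⟨y, hy, hy1, hy2⟩ := hR.dense x hx _ (hab q hq).2.1 hxb
    have := (fst_spec hR.cnt (A := sb (fun s => Lt lt x s ∧ Lt lt s (ap b q)) Q)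
      (fun z hz => (mem_sb.1 hz).1) ⟨y, mem_sb.2 ⟨hy, hy1, hy2⟩⟩).1
    obtain ⟨h1, h2, h3⟩ := mem_sb.1 this
    exact ⟨h1, h2, h3⟩
  have hval : ∀ n ∈ (omega : V), ∀ q ∈ Q, ap (ap E (succ n)) q =
      fst io (sb (fun s => Lt lt (ap (ap E n) q) s ∧ Lt lt s (ap b q)) Q) := by
    intro n hn q hq
    rw [hEs n hn]
    exact ap_lm (F := fun q => fst io
      (sb (fun s => Lt lt (ap (ap E n) q) s ∧ Lt lt s (ap b q)) Q)) hq
  have h0 : ∀ q ∈ Q, ap (ap E emp) q = ap a q := by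
    intro q hq
    rw [hE0, ap_lm (F := fun q => ap a q) hq]
  have hinv : ∀ n ∈ (omega : V), ∀ q ∈ Q, ap (ap E n) q ∈ R ∧ Lt lt (ap (ap E n) q) (ap b q) := by
    intro n hn
    refine nat_ind (Q := fun n => ∀ q ∈ Q, ap (ap E n) q ∈ R ∧ Lt lt (ap (ap E n) q) (ap b q))
      ?_ ?_ n hn
    · intro q hq
      rw [h0 q hq]
      exact ⟨(hab q hq).1, (hab q hq).2.2⟩
    · intro n hn ih q hq
      rw [hval n hn q hq]
      obtain ⟨h1, h2, h3⟩ := hstep q hq _ (ih q hq).1 (ih q hq).2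
      exact ⟨hQ _ h1, h3⟩
  have hap : ∀ q ∈ Q, ∀ i ∈ (omega : V),
      ap (lm (prod Q omega) (fun z => ap (ap E (p2 z)) (p1 z))) (opair q i) = ap (ap E i) q := by
    intro q hq i hi
    rw [ap_lm (F := fun z => ap (ap E (p2 z)) (p1 z)) (opair_mem_prod.2 ⟨hq, hi⟩), p1_opair,
      p2_opair]
  refine ⟨lm (prod Q omega) (fun z => ap (ap E (p2 z)) (p1 z)), fun q hq => ⟨?_, fun i hi => ?_⟩⟩
  · rw [hap q hq emp emp_mem_omega, h0 q hq]
  · rw [hap q hq i hi, hap q hq _ (succ_mem_omega hi)]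
    refine ⟨(hinv i hi q hq).1, ?_, (hinv i hi q hq).2⟩
    rw [hval i hi q hq]
    exact (hstep q hq _ (hinv i hi q hq).1 (hinv i hi q hq).2).2.1

/-- the next colour -/
noncomputable def BLKnx (x : V) : V := the fun y => (x = emp ∧ y = succ emp) ∨
  (x = succ emp ∧ y = succ (succ emp)) ∨ ((x ≠ emp ∧ x ≠ succ emp) ∧ y = emp)

instance {t : (ℕ → V) → V} [ht : DF t] : DF (fun v => BLKnx (t v)) := by
  refine DF.comp1 (F := fun x => BLKnx x) ?_ ht
  unfold BLKnx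
  exact DF.the (P := fun y v => (v 0 = emp ∧ y = succ emp) ∨
    (v 0 = succ emp ∧ y = succ (succ emp)) ∨ ((v 0 ≠ emp ∧ v 0 ≠ succ emp) ∧ y = emp))

theorem BLKnx_0 : BLKnx (emp : V) = succ emp := by
  refine the_eq (Or.inl ⟨rfl, rfl⟩) ?_
  rintro z (⟨-, h⟩ | ⟨h, -⟩ | ⟨⟨h, -⟩, -⟩)
  · exact h
  · exact absurd h.symm (succ_ne_emp _)
  · exact absurd rfl h

theorem BLKnx_1 : BLKnx (succ emp : V) = succ (succ emp) := by
  refine the_eq (Or.inr (Or.inl ⟨rfl, rfl⟩)) ?_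
  rintro z (⟨h, -⟩ | ⟨-, h⟩ | ⟨⟨-, h⟩, -⟩)
  · exact absurd h (succ_ne_emp _)
  · exact h
  · exact absurd rfl h

theorem BLKnx_2 : BLKnx (succ (succ emp) : V) = emp := by
  have h1 : (succ (succ emp) : V) ≠ succ emp := fun h => succ_ne_emp _ (succ_inj h)
  refine the_eq (Or.inr (Or.inr ⟨⟨succ_ne_emp _, h1⟩, rfl⟩)) ?_
  rintro z (⟨h, -⟩ | ⟨h, -⟩ | ⟨-, h⟩)
  · exact absurd h (succ_ne_emp _)
  · exact absurd h h1
  · exact h

/-- the colours -/
theorem BLK_col : ∃ col : V,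
    (∀ i ∈ (omega : V), ap col i = emp ∨ ap col i = succ emp ∨ ap col i = succ (succ emp)) ∧
    (∀ i ∈ (omega : V), ap col i ≠ ap col (succ i)) ∧
    ∀ i ∈ (omega : V), ap col i ≠ ap col (succ (succ i)) := by
  obtain ⟨c, hc, hc0, hcs⟩ := exists_rec (emp : V) (fun n x => BLKnx x)
  have h10 : (succ emp : V) ≠ emp := succ_ne_emp _
  have h20 : (succ (succ emp) : V) ≠ emp := succ_ne_emp _
  have h21 : (succ (succ emp) : V) ≠ succ emp := fun h => succ_ne_emp _ (succ_inj h)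
  have h3 : ∀ i ∈ (omega : V), ap c i = emp ∨ ap c i = succ emp ∨ ap c i = succ (succ emp) := by
    intro i hi
    refine nat_ind (Q := fun i => ap c i = emp ∨ ap c i = succ emp ∨ ap c i = succ (succ emp))
      (Or.inl hc0) ?_ i hi
    rintro n hn (h | h | h)
    · right; left; rw [hcs n hn, h, BLKnx_0]
    · right; right; rw [hcs n hn, h, BLKnx_1]
    · left; rw [hcs n hn, h, BLKnx_2]
  refine ⟨c, h3, ?_, ?_⟩
  · intro i hi
    rw [hcs i hi]
    rcases h3 i hi with h | h | h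
    · rw [h, BLKnx_0]; exact h10.symm
    · rw [h, BLKnx_1]; exact h21.symm
    · rw [h, BLKnx_2]; exact h20
  · intro i hi
    rw [hcs _ (succ_mem_omega hi), hcs i hi]
    rcases h3 i hi with h | h | h
    · rw [h, BLKnx_0, BLKnx_1]; exact h20.symm
    · rw [h, BLKnx_1, BLKnx_2]; exact h10
    · rw [h, BLKnx_2, BLKnx_0]; exact h21

/-- BLK -/
theorem exists_blocks {R lt Q io u o : V} (hR : Line R lt Q io) (hu : u ∈ R) (ho : o ∈ R)
    (huo : Lt lt u o) : ∃ a b e col : V, (BS.mk R lt Q io u o a b e col).Ok := by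
  obtain ⟨a, b, hab⟩ := BLK_ab hR hu ho huo
  obtain ⟨e, he⟩ := BLK_e (a := a) (b := b) hR
    (fun q hq => ⟨(hab q hq).1, (hab q hq).2.1, (hab q hq).2.2.2.1⟩)
  obtain ⟨col, hc3, hc1, hc2⟩ := BLK_col (V := V)
  exact ⟨a, b, e, col,
    { line := hR
      uR := hu
      oR := ho
      aR := fun q hq => (hab q hq).1
      bR := fun q hq => (hab q hq).2.1
      ua := fun q hq => (hab q hq).2.2.1
      bo := fun q hq => (hab q hq).2.2.2.2.1
      ord := fun q hq q' hq' h => (hab q hq).2.2.2.2.2 q' hq' h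
      eR := fun q hq i hi => ((he q hq).2 i hi).1
      e0 := fun q hq => (he q hq).1
      es := fun q hq i hi => ((he q hq).2 i hi).2.1
      eb := fun q hq i hi => ((he q hq).2 i hi).2.2
      c3 := hc3
      c1 := hc1
      c2 := hc2 }⟩

end

end Pool.Agent.ZT
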