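import Pool.Agent.Lib_helper91.ZT.TopB

/-!
# Block BRI
-/

set_option linter.unusedSectionVars false
set_option linter.unusedVariables false

universe u

namespace Pool.Agent.ZT

open FirstOrder Language Pool.Agent.ZF1

section
variable {V : Type u} [Lset.Structure V] [IsZF V]

/-! ## Block BRI: from the notions of the statement to the toolkit -/

/-- BRI1 -/
theorem top_of {X T : V} (h : IsTopology X T) : Top X T := by
  obtain ⟨h1, h2, h3, h4⟩ := h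
  refine ⟨h1, h2, ?_, ?_⟩
  · intro U hU W hW
    obtain ⟨I, hI, hI'⟩ := h3 U hU W hW
    have : inter U W = I := ext fun z => by rw [hI', mem_inter]
    rw [this]; exact hI
  · intro F hF
    obtain ⟨U, hU, hU'⟩ := h4 F hF
    have : sUn F = U := ext fun z => by rw [hU', mem_sUn]
    rw [this]; exact hU

/-- BRI2 -/
theorem isTopology_of {X T : V} (h : Top X T) : IsTopology X T :=
  ⟨h.sub, h.univ, fun U hU W hW => ⟨_, h.inter U hU W hW, fun z => mem_inter⟩,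
    fun F hF => ⟨_, h.sUn F hF, fun z => mem_sUn⟩⟩

/-- BRI3 -/
theorem isClosedIn_iff {X T C : V} (h : Top X T) : IsClosedIn X T C ↔ Cl X T C := by
  constructor
  · rintro ⟨h1, U, hU, hU'⟩
    refine ⟨h1, ?_⟩
    have : diff X C = U := ext fun z => by rw [hU', mem_diff]
    rw [this]; exact hU
  · rintro ⟨h1, h2⟩
    exact ⟨h1, _, h2, fun z => mem_diff⟩

/-- BRI4 -/
theorem t1_of {X T : V} (h : Top X T) (h1 : IsT1 X T) : T1 X T := by
  intro x hx
  have := h1 x hx (sing x) (fun z => by rw [mem_sing]; exact ⟨Or.inl, fun h => h.elim id id⟩)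
  exact ((isClosedIn_iff h).1 this).2

/-- BRI7 -/
theorem isFun_iff {f A B : V} : IsFun f A B ↔ IsFn f A ∧ ∀ x ∈ A, ap f x ∈ B := by
  constructor
  · rintro ⟨h1, h2⟩
    have hf : IsFn f A := by
      constructor
      · intro z hz
        obtain ⟨x, hx, y, _, h⟩ := h1 z hz
        exact ⟨x, hx, y, isOpair_iff.1 h⟩
      · intro x hx
        obtain ⟨y, hy, hy'⟩ := h2 x hx
        exact ⟨y, oMem_iff.1 hy, fun w hw => hy' w (oMem_iff.2 hw)⟩
    refine ⟨hf, fun x hx => ?_⟩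
    obtain ⟨x', hx', y, hy, h⟩ := h1 _ (hf.ap_mem hx)
    have := opair_inj.1 (isOpair_iff.1 h)
    rw [this.2]; exact hy
  · rintro ⟨hf, h⟩
    constructor
    · intro z hz
      obtain ⟨x, hx, y, rfl⟩ := hf.1 z hz
      refine ⟨x, hx, y, ?_, isOpair_iff.2 rfl⟩
      rw [← hf.ap_eq hz]; exact h x hx
    · intro x hx
      exact ⟨ap f x, oMem_iff.2 (hf.ap_mem hx), fun y hy => (hf.ap_eq (oMem_iff.1 hy)).symm⟩

/-- BRI5 -/
theorem cnt_of {A : V} (h : IsCountable A) : ∃ j, Cnt A j := by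
  obtain ⟨w, f, hw, hf, hinj⟩ := h
  have : w = omega := ext fun n => by rw [hw, mem_omega]
  subst this
  obtain ⟨h1, h2⟩ := isFun_iff.1 hf
  refine ⟨f, h2, fun x hx y hy hxy => hinj x y (ap f x) (oMem_iff.2 (h1.ap_mem hx)) ?_⟩
  rw [hxy]
  exact oMem_iff.2 (h1.ap_mem hy)

/-- BRI6 -/
theorem line_of {R lt : V} (h : IsRealLine R lt) : ∃ Q io, Line R lt Q io := by
  obtain ⟨h1, h2, h3, h4, h5, ⟨Q, hQ, hQc, hQd⟩, h6⟩ := h
  simp only [oMem_iff] at h2 h3 h4 h5 h6 hQd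
  obtain ⟨io, hio⟩ := cnt_of hQc
  exact ⟨Q, io, h1, h2, h3, h4, fun x hx => (h5 x hx).1, fun x hx => (h5 x hx).2, hQ, hio, hQd, h6⟩

/-- the final topology with respect to one function -/
theorem bri_pull {X T Y e : V} (hT : Top X T) (he : ∀ x ∈ X, ap e x ∈ Y) :
    Top Y (sb (fun U => sb (fun x => ap e x ∈ U) X ∈ T) (pow Y)) := by
  constructor
  · intro U hU
    exact mem_pow.1 (mem_sb.1 hU).1
  · refine mem_sb.2 ⟨mem_pow.2 (sub_refl Y), ?_⟩
    have : sb (fun x => ap e x ∈ Y) X = X := ext fun z => by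
      rw [mem_sb]; exact ⟨fun h => h.1, fun h => ⟨h, he z h⟩⟩
    rw [this]; exact hT.univ
  · intro U hU W hW
    obtain ⟨hU1, hU2⟩ := mem_sb.1 hU
    obtain ⟨hW1, hW2⟩ := mem_sb.1 hW
    refine mem_sb.2 ⟨mem_pow.2 fun z hz => mem_pow.1 hU1 z (mem_inter.1 hz).1, ?_⟩
    have : sb (fun x => ap e x ∈ inter U W) X = inter (sb (fun x => ap e x ∈ U) X)
        (sb (fun x => ap e x ∈ W) X) := ext fun z => by
      simp only [mem_sb, mem_inter]; tauto
    rw [this]; exact hT.inter _ hU2 _ hW2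
  · intro F hF
    refine mem_sb.2 ⟨mem_pow.2 fun z hz => ?_, ?_⟩
    · obtain ⟨U, hU, hz⟩ := mem_sUn.1 hz
      exact mem_pow.1 (mem_sb.1 (hF U hU)).1 z hz
    · refine hT.of_nhds (fun z hz => (mem_sb.1 hz).1) fun x hx => ?_
      obtain ⟨hxX, hx⟩ := mem_sb.1 hx
      obtain ⟨U, hU, hxU⟩ := mem_sUn.1 hx
      refine ⟨_, (mem_sb.1 (hF U hU)).2, mem_sb.2 ⟨hxX, hxU⟩, fun y hy => ?_⟩
      obtain ⟨hyX, hy⟩ := mem_sb.1 hy
      exact mem_sb.2 ⟨hyX, mem_sUn.2 ⟨U, hU, hy⟩⟩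

/-- BRI8 -/
theorem continuous_iff {X T R lt Q io S f : V} (hT : Top X T) (hR : Line R lt Q io)
    (hS : IsOrderTopology R lt S) : IsContinuous f X T R S ↔ Cts X T R lt f := by
  obtain ⟨hS1, hS2, hS3⟩ := hS
  have hpre : ∀ (hf : IsFn f X) (U x : V), (x ∈ X ∧ ∃ y ∈ U, OMem x y f) ↔
      x ∈ X ∧ ap f x ∈ U := by
    intro hf U x
    constructor
    · rintro ⟨hx, y, hy, h⟩
      rw [oMem_iff] at h
      rw [hf.ap_eq h]; exact ⟨hx, hy⟩
    · rintro ⟨hx, h⟩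
      exact ⟨hx, _, h, oMem_iff.2 (hf.ap_mem hx)⟩
  constructor
  · rintro ⟨h1, h2⟩
    obtain ⟨hf, hfR⟩ := isFun_iff.1 h1
    refine ⟨hf, hfR, ?_, ?_⟩
    · intro r hr
      obtain ⟨W, hW, hW'⟩ := h2 (sb (fun z => Lt lt z r) R) (hS2 _ ⟨r, hr, Or.inr fun z => by
        rw [mem_sb, oMem_iff]; rfl⟩)
      have : sb (fun x => Lt lt (ap f x) r) X = W := ext fun x => by
        rw [hW', hpre hf, mem_sb, mem_sb]
        exact ⟨fun h => ⟨h.1, hfR x h.1, h.2⟩, fun h => ⟨h.1, h.2.2⟩⟩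
      rw [this]; exact hW
    · intro r hr
      obtain ⟨W, hW, hW'⟩ := h2 (sb (fun z => Lt lt r z) R) (hS2 _ ⟨r, hr, Or.inl fun z => by
        rw [mem_sb, oMem_iff]; rfl⟩)
      have : sb (fun x => Lt lt r (ap f x)) X = W := ext fun x => by
        rw [hW', hpre hf, mem_sb, mem_sb]
        exact ⟨fun h => ⟨h.1, hfR x h.1, h.2⟩, fun h => ⟨h.1, h.2.2⟩⟩
      rw [this]; exact hW
  · intro h
    refine ⟨isFun_iff.2 ⟨h.fn, h.mem⟩, ?_⟩
    have h1 := hS3 _ (isTopology_of (bri_pull hT h.mem)) (by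
      rintro U ⟨a, ha, hU | hU⟩
      · refine mem_sb.2 ⟨mem_pow.2 fun z hz => ((hU z).1 hz).1, ?_⟩
        have : sb (fun x => ap f x ∈ U) X = sb (fun x => Lt lt a (ap f x)) X := ext fun x => by
          rw [mem_sb, mem_sb, hU, oMem_iff]
          exact ⟨fun h => ⟨h.1, h.2.2⟩, fun h' => ⟨h'.1, h.mem x h'.1, h'.2⟩⟩
        rw [this]; exact h.above a ha
      · refine mem_sb.2 ⟨mem_pow.2 fun z hz => ((hU z).1 hz).1, ?_⟩
        have : sb (fun x => ap f x ∈ U) X = sb (fun x => Lt lt (ap f x) a) X := ext fun x => by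
          rw [mem_sb, mem_sb, hU, oMem_iff]
          exact ⟨fun h => ⟨h.1, h.2.2⟩, fun h' => ⟨h'.1, h.mem x h'.1, h'.2⟩⟩
        rw [this]; exact h.below a ha)
    intro U hU
    refine ⟨_, (mem_sb.1 (h1 U hU)).2, fun x => ?_⟩
    rw [mem_sb, hpre h.fn]

instance {t s : (ℕ → V) → V} [ht : DF t] [hs : DF s] : DP (fun v => IsTopology (t v) (s v)) :=
  DP.comp2 (by unfold IsTopology; infer_instance) ht hs

/-- BRI9: coarsest topologies exist -/
theorem exists_coarsest (X : V) (Sb : V → Prop) [hSb : DP (fun v => Sb (v 0))]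
    (hsub : ∀ U, Sb U → Sub U X) : ∃ T, IsCoarsest X T Sb := by
  have hSb' : ∀ (t : (ℕ → V) → V) [DF t], DP (fun v => Sb (t v)) := fun t ht => DP.comp1 hSb ht
  have hmem : ∀ U, U ∈ sb (fun U => ∀ T', IsTopology X T' → (∀ U', Sb U' → U' ∈ T') → U ∈ T')
      (pow X) ↔ U ∈ pow X ∧ ∀ T', IsTopology X T' → (∀ U', Sb U' → U' ∈ T') → U ∈ T' :=
    fun U => mem_sb (Q := fun U => ∀ T', IsTopology X T' → (∀ U', Sb U' → U' ∈ T') → U ∈ T')
  refine ⟨sb (fun U => ∀ T', IsTopology X T' → (∀ U', Sb U' → U' ∈ T') → U ∈ T') (pow X),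
    isTopology_of ⟨?_, ?_, ?_, ?_⟩, ?_, ?_⟩
  · intro U hU
    exact mem_pow.1 ((hmem U).1 hU).1
  · exact (hmem X).2 ⟨mem_pow.2 (sub_refl X), fun T' hT' _ => (top_of hT').univ⟩
  · intro U hU W hW
    obtain ⟨hU1, hU2⟩ := (hmem U).1 hU
    obtain ⟨hW1, hW2⟩ := (hmem W).1 hW
    refine (hmem _).2 ⟨mem_pow.2 fun z hz => mem_pow.1 hU1 z (mem_inter.1 hz).1, ?_⟩
    intro T' hT' h
    exact (top_of hT').inter _ (hU2 T' hT' h) _ (hW2 T' hT' h)
  · intro F hF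
    refine (hmem _).2 ⟨mem_pow.2 fun z hz => ?_, ?_⟩
    · obtain ⟨U, hU, hz⟩ := mem_sUn.1 hz
      exact mem_pow.1 ((hmem U).1 (hF U hU)).1 z hz
    · intro T' hT' h
      exact (top_of hT').sUn F fun U hU => ((hmem U).1 (hF U hU)).2 T' hT' h
  · intro U hU
    exact (hmem U).2 ⟨mem_pow.2 (hsub U hU), fun T' _ h => h U hU⟩
  · intro T' hT' h U hU
    exact ((hmem U).1 hU).2 T' hT' h

end

end Pool.Agent.ZT
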