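import Pool.Agent.Lib_helper91.ZT.TolB

/-!
# Block CHO
-/

set_option linter.unusedSectionVars false
set_option linter.unusedVariables false

universe u

namespace Pool.Agent.ZT

open FirstOrder Language Pool.Agent.ZF1

section
variable {V : Type u} [Lset.Structure V] [IsZF V]

/-! ## Block CHO: countable choice for open sets -/

/-- CHO1: choice for families of open sets meeting a closed discrete set in one point -/
theorem choice_one {X T y : V} (hT : Top X T) (hL : Lind X T) (hy : IsFn y omega)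
    (hX : ∀ n ∈ (omega : V), ap y n ∈ X)
    (hinj : ∀ n ∈ (omega : V), ∀ m ∈ (omega : V), ap y n = ap y m → n = m)
    (hcl : Cl X T (rn y)) (P : V → V → Prop) [hP : DP (fun v => P (v 0) (v 1))]
    (h : ∀ n ∈ (omega : V), ∃ W ∈ T, P n W)
    (h' : ∀ n ∈ (omega : V), ∀ W ∈ T, P n W →
      ap y n ∈ W ∧ ∀ m ∈ (omega : V), ap y m ∈ W → m = n) :
    ∃ c, IsFn c omega ∧ ∀ n ∈ (omega : V), ap c n ∈ T ∧ P n (ap c n) := by
  have hP' : ∀ (t s : (ℕ → V) → V) [DF t] [DF s], DP (fun v => P (t v) (s v)) :=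
    fun t s _ _ => DP.comp2 hP inferInstance inferInstance
  obtain ⟨G, j, hG, hj, hcov⟩ := hL
    (sb (fun U => U = diff X (rn y) ∨ ∃ n ∈ (omega : V), P n U) T)
    (fun U hU => (mem_sb.1 hU).1) (by
      intro x hx
      by_cases hxy : x ∈ rn y
      · obtain ⟨n, hn⟩ := mem_rn.1 hxy
        obtain ⟨hn', e⟩ := hy.mem_iff.1 hn
        obtain ⟨W, hW, hPW⟩ := h n hn'
        exact ⟨W, mem_sb.2 ⟨hW, Or.inr ⟨n, hn', hPW⟩⟩, e ▸ (h' n hn' W hW hPW).1⟩
      · exact ⟨diff X (rn y), mem_sb.2 ⟨hcl.2, Or.inl rfl⟩, mem_diff.2 ⟨hx, hxy⟩⟩)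
  have hne : ∀ n ∈ (omega : V), ∃ W, W ∈ sb (fun W => P n W) G := by
    intro n hn
    obtain ⟨U, hU, hyU⟩ := hcov _ (hX n hn)
    obtain ⟨hUT, hU'⟩ := mem_sb.1 (hG U hU)
    rcases hU' with rfl | ⟨m, hm, hPm⟩
    · exact absurd (mem_rn.2 ⟨n, hy.ap_mem hn⟩) (mem_diff.1 hyU).2
    · have := (h' m hm U hUT hPm).2 n hn hyU
      exact ⟨U, mem_sb.2 ⟨hU, this ▸ hPm⟩⟩
  have hsp : ∀ n ∈ (omega : V), fst j (sb (fun W => P n W) G) ∈ sb (fun W => P n W) G :=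
    fun n hn => (fst_spec hj (fun W hW => (mem_sb.1 hW).1) (hne n hn)).1
  have hDF : DF (fun v : ℕ → V => fst j (sb (fun W => P (v 0) W) G)) := inferInstance
  refine ⟨lm omega (fun n => fst j (sb (fun W => P n W) G)), isFn_lm, fun n hn => ?_⟩
  rw [ap_lm (F := fun n => fst j (sb (fun W => P n W) G)) hn]
  obtain ⟨h1, h2⟩ := mem_sb.1 (hsp n hn)
  exact ⟨(mem_sb.1 (hG _ h1)).1, h2⟩

/-- CHO2 for the index set `omega` -/
theorem CHO_omega {X T y z : V} (hT : Top X T) (hH : Haus X T) (hL : Lind X T)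
    (hy : IsFn y omega) (hz : IsFn z omega)
    (hX : ∀ n ∈ (omega : V), ap y n ∈ X ∧ ap z n ∈ X)
    (hyi : ∀ n ∈ (omega : V), ∀ m ∈ (omega : V), ap y n = ap y m → n = m)
    (hzi : ∀ n ∈ (omega : V), ∀ m ∈ (omega : V), ap z n = ap z m → n = m)
    (hyz : ∀ n ∈ (omega : V), ∀ m ∈ (omega : V), ap y n ≠ ap z m)
    (hcl : ∀ E, Sub E (un (rn y) (rn z)) → Cl X T E)
    (P : V → V → Prop) [hP : DP (fun v => P (v 0) (v 1))]
    (h : ∀ n ∈ (omega : V), ∃ W ∈ T, P n W) :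
    ∃ c, IsFn c omega ∧ ∀ n ∈ (omega : V), ap c n ∈ T ∧ P n (ap c n) := by
  have hP' : ∀ (t s : (ℕ → V) → V) [DF t] [DF s], DP (fun v => P (t v) (s v)) :=
    fun t s _ _ => DP.comp2 hP inferInstance inferInstance
  have ryi : ∀ x, x ∈ rn y ↔ ∃ n ∈ (omega : V), ap y n = x := fun x => by
    rw [mem_rn]
    exact ⟨fun ⟨n, hn⟩ => ⟨n, (hy.mem_iff.1 hn).1, (hy.mem_iff.1 hn).2⟩,
      fun ⟨n, hn, e⟩ => ⟨n, hy.mem_iff.2 ⟨hn, e⟩⟩⟩
  have rzi : ∀ x, x ∈ rn z ↔ ∃ n ∈ (omega : V), ap z n = x := fun x => by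
    rw [mem_rn]
    exact ⟨fun ⟨n, hn⟩ => ⟨n, (hz.mem_iff.1 hn).1, (hz.mem_iff.1 hn).2⟩,
      fun ⟨n, hn, e⟩ => ⟨n, hz.mem_iff.2 ⟨hn, e⟩⟩⟩
  have hyz' : ∀ x, x ∈ rn y → x ∉ rn z := by
    intro x hx hx'
    obtain ⟨n, hn, e⟩ := (ryi x).1 hx
    obtain ⟨m, hm, e'⟩ := (rzi x).1 hx'
    exact hyz n hn m hm (e.trans e'.symm)
  have hcly : Cl X T (rn y) := hcl _ (sub_un_left _ _)
  have hclz : Cl X T (rn z) := hcl _ (sub_un_right _ _)
  -- (a)
  obtain ⟨N0, hN0, hN0'⟩ := choice_one hT hL hy (fun n hn => (hX n hn).1) hyi hcly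
    (fun m A => ap y m ∈ A ∧ (∀ l ∈ (omega : V), ap y l ∈ A → l = m) ∧
      (∀ l ∈ (omega : V), ap z l ∉ A) ∧ ∃ M ∈ T, ap z m ∈ M ∧ (∀ x ∈ M, x ∉ A) ∧
      (∀ l ∈ (omega : V), ap y l ∉ M) ∧ ∀ l ∈ (omega : V), ap z l ∈ M → l = m) (by
      intro m hm
      obtain ⟨U, hU, W, hW, hyU, hzW, hUW⟩ := hH _ (hX m hm).1 _ (hX m hm).2 (hyz m hm m hm)
      have e1 := hcl (diff (un (rn y) (rn z)) (sing (ap y m)))
        (fun x hx => (mem_diff.1 hx).1)
      have e2 := hcl (diff (un (rn y) (rn z)) (sing (ap z m)))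
        (fun x hx => (mem_diff.1 hx).1)
      refine ⟨inter U (diff X (diff (un (rn y) (rn z)) (sing (ap y m)))),
        hT.inter _ hU _ e1.2, ?_, ?_, ?_, inter W (diff X (diff (un (rn y) (rn z))
          (sing (ap z m)))), hT.inter _ hW _ e2.2, ?_, ?_, ?_, ?_⟩
      · rw [mem_inter, mem_diff, mem_diff, mem_sing]
        exact ⟨hyU, (hX m hm).1, fun h => h.2 rfl⟩
      · intro l hl hyl
        rw [mem_inter, mem_diff, mem_diff, mem_sing] at hyl
        by_contra hlm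
        exact hyl.2.2 ⟨mem_un.2 (Or.inl ((ryi _).2 ⟨l, hl, rfl⟩)),
          fun e => hlm (hyi l hl m hm e)⟩
      · intro l hl hyl
        rw [mem_inter, mem_diff, mem_diff, mem_sing] at hyl
        exact hyl.2.2 ⟨mem_un.2 (Or.inr ((rzi _).2 ⟨l, hl, rfl⟩)),
          fun e => hyz m hm l hl e.symm⟩
      · rw [mem_inter, mem_diff, mem_diff, mem_sing]
        exact ⟨hzW, (hX m hm).2, fun h => h.2 rfl⟩
      · intro x hx hx'
        exact hUW x (mem_inter.1 hx').1 (mem_inter.1 hx).1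
      · intro l hl hyl
        rw [mem_inter, mem_diff, mem_diff, mem_sing] at hyl
        exact hyl.2.2 ⟨mem_un.2 (Or.inl ((ryi _).2 ⟨l, hl, rfl⟩)),
          fun e => hyz l hl m hm e⟩
      · intro l hl hyl
        rw [mem_inter, mem_diff, mem_diff, mem_sing] at hyl
        by_contra hlm
        exact hyl.2.2 ⟨mem_un.2 (Or.inr ((rzi _).2 ⟨l, hl, rfl⟩)),
          fun e => hlm (hzi l hl m hm e)⟩)
    (fun n hn W hW hPW => ⟨hPW.1, hPW.2.1⟩)
  -- (b)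
  obtain ⟨N1, hN1, hN1'⟩ := choice_one hT hL hz (fun n hn => (hX n hn).2) hzi hclz
    (fun m M => ap z m ∈ M ∧ (∀ x ∈ M, x ∉ ap N0 m) ∧
      (∀ l ∈ (omega : V), ap y l ∉ M) ∧ ∀ l ∈ (omega : V), ap z l ∈ M → l = m) (by
      intro m hm
      obtain ⟨-, -, -, -, M, hM, h1⟩ := hN0' m hm
      exact ⟨M, hM, h1⟩)
    (fun n hn W hW hPW => ⟨hPW.1, hPW.2.2.2⟩)
  -- (c)
  have hopen0 : ∀ m ∈ (omega : V), ∀ W ∈ T,
      diff (un W (ap N0 m)) (diff (rn y) (sing (ap y m))) ∈ T := by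
    intro m hm W hW
    have e1 := (hcl (diff (rn y) (sing (ap y m)))
      (fun x hx => mem_un.2 (Or.inl (mem_diff.1 hx).1))).2
    have : diff (un W (ap N0 m)) (diff (rn y) (sing (ap y m))) =
        inter (un W (ap N0 m)) (diff X (diff (rn y) (sing (ap y m)))) := ext fun x => by
      rw [mem_inter, mem_diff (x := X), mem_diff (x := un W (ap N0 m))]
      exact ⟨fun h => ⟨h.1, hT.sub _ (hT.un_mem hW (hN0' m hm).1) x h.1, h.2⟩,
        fun h => ⟨h.1, h.2.2⟩⟩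
    rw [this]
    exact hT.inter _ (hT.un_mem hW (hN0' m hm).1) _ e1
  have hopen1 : ∀ m ∈ (omega : V), ∀ W ∈ T,
      diff (un W (ap N1 m)) (diff (rn z) (sing (ap z m))) ∈ T := by
    intro m hm W hW
    have e1 := (hcl (diff (rn z) (sing (ap z m)))
      (fun x hx => mem_un.2 (Or.inr (mem_diff.1 hx).1))).2
    have : diff (un W (ap N1 m)) (diff (rn z) (sing (ap z m))) =
        inter (un W (ap N1 m)) (diff X (diff (rn z) (sing (ap z m)))) := ext fun x => by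
      rw [mem_inter, mem_diff (x := X), mem_diff (x := un W (ap N1 m))]
      exact ⟨fun h => ⟨h.1, hT.sub _ (hT.un_mem hW (hN1' m hm).1) x h.1, h.2⟩,
        fun h => ⟨h.1, h.2.2⟩⟩
    rw [this]
    exact hT.inter _ (hT.un_mem hW (hN1' m hm).1) _ e1
  obtain ⟨Y0, hY0, hY0'⟩ := choice_one hT hL hy (fun n hn => (hX n hn).1) hyi hcly
    (fun m Y => ∃ W ∈ T, P m W ∧ Y = diff (un W (ap N0 m)) (diff (rn y) (sing (ap y m)))) (by
      intro m hm
      obtain ⟨W, hW, hPW⟩ := h m hm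
      exact ⟨_, hopen0 m hm W hW, W, hW, hPW, rfl⟩) (by
      rintro n hn Y hY ⟨W, hW, hPW, rfl⟩
      constructor
      · rw [mem_diff, mem_un, mem_diff, mem_sing]
        exact ⟨Or.inr (hN0' n hn).2.1, fun h => h.2 rfl⟩
      · intro m hm hym
        rw [mem_diff, mem_un, mem_diff, mem_sing] at hym
        by_contra hmn
        exact hym.2 ⟨(ryi _).2 ⟨m, hm, rfl⟩, fun e => hmn (hyi m hm n hn e)⟩)
  obtain ⟨Y1, hY1, hY1'⟩ := choice_one hT hL hz (fun n hn => (hX n hn).2) hzi hclz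
    (fun m Y => ∃ W ∈ T, P m W ∧
      ap Y0 m = diff (un W (ap N0 m)) (diff (rn y) (sing (ap y m))) ∧
      Y = diff (un W (ap N1 m)) (diff (rn z) (sing (ap z m)))) (by
      intro m hm
      obtain ⟨-, W, hW, hPW, e⟩ := hY0' m hm
      exact ⟨_, hopen1 m hm W hW, W, hW, hPW, e, rfl⟩) (by
      rintro n hn Y hY ⟨W, hW, hPW, -, rfl⟩
      constructor
      · rw [mem_diff, mem_un, mem_diff, mem_sing]
        exact ⟨Or.inr (hN1' n hn).2.1, fun h => h.2 rfl⟩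
      · intro m hm hym
        rw [mem_diff, mem_un, mem_diff, mem_sing] at hym
        by_contra hmn
        exact hym.2 ⟨(rzi _).2 ⟨m, hm, rfl⟩, fun e => hmn (hzi m hm n hn e)⟩)
  -- the choice function
  refine ⟨lm omega (fun m => un (diff (ap Y0 m) (un (ap N0 m) (rn y)))
    (diff (ap Y1 m) (un (ap N1 m) (rn z)))), isFn_lm, fun m hm => ?_⟩
  rw [ap_lm (F := fun m => un (diff (ap Y0 m) (un (ap N0 m) (rn y)))
    (diff (ap Y1 m) (un (ap N1 m) (rn z)))) hm]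
  obtain ⟨-, W, hW, hPW, e0, e1⟩ := hY1' m hm
  obtain ⟨-, a1, a2, a3, -⟩ := hN0' m hm
  obtain ⟨-, b1, b2, b3, b4⟩ := hN1' m hm
  have hkey : un (diff (ap Y0 m) (un (ap N0 m) (rn y)))
      (diff (ap Y1 m) (un (ap N1 m) (rn z))) = W := ext fun x => by
    rw [e0, e1]
    simp only [mem_un, mem_diff]
    constructor
    · rintro (⟨⟨h1 | h1, -⟩, h2⟩ | ⟨⟨h1 | h1, -⟩, h2⟩)
      · exact h1
      · exact absurd (Or.inl h1) h2
      · exact h1
      · exact absurd (Or.inl h1) h2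
    · intro hx
      by_cases h1 : x ∈ ap N0 m ∨ x ∈ rn y
      · right
        have h2 : x ∉ ap N1 m := by
          intro h2
          rcases h1 with h1 | h1
          · exact b2 x h2 h1
          · obtain ⟨l, hl, rfl⟩ := (ryi x).1 h1
            exact b3 l hl h2
        have h3 : x ∉ rn z := by
          intro h3
          rcases h1 with h1 | h1
          · obtain ⟨l, hl, rfl⟩ := (rzi x).1 h3
            exact a3 l hl h1
          · exact hyz' x h1 h3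
        exact ⟨⟨Or.inl hx, fun h => h3 h.1⟩, fun h => h.elim h2 h3⟩
      · left
        exact ⟨⟨Or.inl hx, fun h => h1 (Or.inr h.1)⟩, h1⟩
  rw [hkey]
  exact ⟨hW, hPW⟩

/-- CHO2: countable choice for open sets -/
theorem cc_of_seq {X T y z : V} (hT : Top X T) (hH : Haus X T) (hL : Lind X T)
    (hy : IsFn y omega) (hz : IsFn z omega)
    (hX : ∀ n ∈ (omega : V), ap y n ∈ X ∧ ap z n ∈ X)
    (hyi : ∀ n ∈ (omega : V), ∀ m ∈ (omega : V), ap y n = ap y m → n = m)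
    (hzi : ∀ n ∈ (omega : V), ∀ m ∈ (omega : V), ap z n = ap z m → n = m)
    (hyz : ∀ n ∈ (omega : V), ∀ m ∈ (omega : V), ap y n ≠ ap z m)
    (hcl : ∀ E, Sub E (un (rn y) (rn z)) → Cl X T E) : CC T := by
  intro I j hj P hP h
  have hP' : ∀ (t s : (ℕ → V) → V) [DF t] [DF s], DP (fun v => P (t v) (s v)) :=
    fun t s _ _ => DP.comp2 hP inferInstance inferInstance
  obtain ⟨c, hc, hc'⟩ := CHO_omega hT hH hL hy hz hX hyi hzi hyz hcl
    (fun n W => (∃ i ∈ I, ap j i = n ∧ P i W) ∨ ¬ ∃ i ∈ I, ap j i = n) (by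
      intro n hn
      by_cases hex : ∃ i ∈ I, ap j i = n
      · obtain ⟨i, hi, e⟩ := hex
        obtain ⟨W, hW, hPW⟩ := h i hi
        exact ⟨W, hW, Or.inl ⟨i, hi, e, hPW⟩⟩
      · exact ⟨X, hT.univ, Or.inr hex⟩)
  refine ⟨lm I (fun i => ap c (ap j i)), isFn_lm, fun i hi => ?_⟩
  rw [ap_lm (F := fun i => ap c (ap j i)) hi]
  obtain ⟨h1, h2⟩ := hc' (ap j i) (hj.1 i hi)
  refine ⟨h1, ?_⟩
  rcases h2 with ⟨i', hi', e, h2⟩ | h2
  · have := hj.2 i' hi' i hi e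
    rw [this] at h2
    exact h2
  · exact absurd ⟨i, hi, rfl⟩ h2

end

end Pool.Agent.ZT
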