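import Pool.Agent.Lib_helper91.ZT.TolB

/-!
# Block COV
-/

set_option linter.unusedSectionVars false
set_option linter.unusedVariables false

universe u

namespace Pool.Agent.ZT

open FirstOrder Language Pool.Agent.ZF1

section
variable {V : Type u} [Lset.Structure V] [IsZF V]

/-! ## Block COV: the good cover -/

/-- COV1: the countable good cover -/
theorem exists_cover {X T R lt Q io N u o : V} (hT : Top X T) (hL : Lind X T)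
    (hR : Line R lt Q io) (huR : u ∈ R)
    (hk : ∀ x ∈ X, ∃ k, Cts X T R lt k ∧ Lt lt (ap k x) u ∧
      ∀ r ∈ R, Lt lt r o → sb (fun y => Le lt (ap k y) r) X ∈ N) :
    ∃ Cs j, Sub Cs T ∧ Cnt Cs j ∧ (∀ x ∈ X, ∃ C ∈ Cs, x ∈ C) ∧
      ∀ C ∈ Cs, ∃ k, Cts X T R lt k ∧ (∀ x ∈ C, Le lt (ap k x) u) ∧
        ∀ r ∈ R, Lt lt r o → sb (fun y => Le lt (ap k y) r) X ∈ N := by
  have hmem : ∀ C, C ∈ sb (fun C => ∃ k, Cts X T R lt k ∧ (∀ x ∈ C, Le lt (ap k x) u) ∧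
        ∀ r ∈ R, Lt lt r o → sb (fun y => Le lt (ap k y) r) X ∈ N) T ↔ C ∈ T ∧
        ∃ k, Cts X T R lt k ∧ (∀ x ∈ C, Le lt (ap k x) u) ∧
        ∀ r ∈ R, Lt lt r o → sb (fun y => Le lt (ap k y) r) X ∈ N := fun C => mem_sb
  obtain ⟨G, j, hG, hj, hc⟩ := hL _ (fun C hC => ((hmem C).1 hC).1) (by
    intro x hx
    obtain ⟨k, hk1, hk2, hk3⟩ := hk x hx
    refine ⟨sb (fun y => Lt lt (ap k y) u) X, (hmem _).2 ⟨hk1.below u huR, k, hk1, ?_, hk3⟩,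
      mem_sb.2 ⟨hx, hk2⟩⟩
    intro y hy
    exact Or.inl (mem_sb.1 hy).2)
  exact ⟨G, j, fun C hC => ((hmem C).1 (hG C hC)).1, hj, hc, fun C hC => ((hmem C).1 (hG C hC)).2⟩

/-- COV2: the increasing open cover by sets of the ideal -/
theorem exists_incr {X T N Cs j : V} (hT : Top X T) (hN : Idl X N) (hs : Sub Cs T)
    (hj : Cnt Cs j) (hc : ∀ x ∈ X, ∃ C ∈ Cs, x ∈ C) (hCN : ∀ C ∈ Cs, C ∈ N) :
    ∃ U : V, (∀ n ∈ (omega : V), ap U n ∈ T ∧ Sub (ap U n) (ap U (succ n)) ∧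
      ∃ x ∈ X, x ∉ ap U n) ∧ ∀ x ∈ X, ∃ n ∈ (omega : V), x ∈ ap U n := by
  have hap : ∀ n ∈ (omega : V), ∀ x, x ∈ ap (lm (omega : V) (fun n => sb (fun x => ∃ C ∈ Cs,
      ap j C ∈ n ∧ x ∈ C) X)) n ↔ x ∈ X ∧ ∃ C ∈ Cs, ap j C ∈ n ∧ x ∈ C := by
    intro n hn x
    rw [ap_lm (F := fun n => sb (fun x => ∃ C ∈ Cs, ap j C ∈ n ∧ x ∈ C) X) hn]
    exact mem_sb
  refine ⟨lm (omega : V) (fun n => sb (fun x => ∃ C ∈ Cs, ap j C ∈ n ∧ x ∈ C) X), ?_, ?_⟩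
  · intro n hn
    refine ⟨?_, ?_, ?_⟩
    · refine hT.of_nhds (fun x hx => ((hap n hn x).1 hx).1) ?_
      intro x hx
      obtain ⟨hxX, C, hC, hCn, hxC⟩ := (hap n hn x).1 hx
      refine ⟨C, hs C hC, hxC, fun y hy => (hap n hn y).2 ⟨hT.sub C (hs C hC) y hy, C, hC, hCn, hy⟩⟩
    · intro x hx
      obtain ⟨hxX, C, hC, hCn, hxC⟩ := (hap n hn x).1 hx
      exact (hap _ (succ_mem_omega hn) x).2 ⟨hxX, C, hC, mem_succ.2 (Or.inl hCn), hxC⟩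
    · by_contra hcon
      push Not at hcon
      have hk : Kfin (sb (fun C => ap j C ∈ n) Cs) := kfin_below hj hn
      have h1 : bu (sb (fun C => ap j C ∈ n) Cs) (fun C => C) ∈ N := by
        refine kfin_bu hk (fun C => C) (fun A => A ∈ N) hN.emp (fun A B hA hB => hN.un A hA B hB) ?_
        intro C hC
        exact hCN C (mem_sb.1 hC).1
      refine hN.proper (hN.mono _ h1 X fun x hx => ?_)
      obtain ⟨_, C, hC, hCn, hxC⟩ := (hap n hn x).1 (hcon x hx)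
      exact mem_bu.2 ⟨C, mem_sb.2 ⟨hC, hCn⟩, hxC⟩
  · intro x hx
    obtain ⟨C, hC, hxC⟩ := hc x hx
    refine ⟨succ (ap j C), succ_mem_omega (hj.1 C hC), ?_⟩
    exact (hap _ (succ_mem_omega (hj.1 C hC)) x).2 ⟨hx, C, hC, mem_succ.2 (Or.inr rfl), hxC⟩

end

end Pool.Agent.ZT
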