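import Pool.Agent.Lib_helper91.ZT.Base

/-!
# Elementary topology in a model of ZF
-/

set_option linter.unusedSectionVars false
set_option linter.unusedVariables false

universe u

namespace Pool.Agent.ZT

open FirstOrder Language Pool.Agent.ZF1

section
variable {V : Type u} [Lset.Structure V] [IsZF V]

/-- TOL6: induction for finite unions -/
theorem kfin_bu {I : V} (hI : Kfin I) (F : V → V) [hF : DF (fun v => F (v 0))] (Φ : V → Prop)
    [hΦ : DP (fun v => Φ (v 0))] (h0 : Φ emp) (h2 : ∀ A B : V, Φ A → Φ B → Φ (un A B))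
    (h : ∀ i ∈ I, Φ (F i)) : Φ (bu I F) := by
  have hF' : ∀ (t : (ℕ → V) → V) [DF t], DF (fun v => F (t v)) := fun t ht => DF.comp1 hF ht
  have hΦ' : ∀ (t : (ℕ → V) → V) [DF t], DP (fun v => Φ (t v)) := fun t ht => DP.comp1 hΦ ht
  have h1 : DF (fun v : ℕ → V => bu (v 0) F) := by
    have : DF (fun v : ℕ → V => F (v 0)) := hF
    exact DF.bu (F := fun i v => F i) (a := fun v => v 0)
  have h3 : DP (fun v : ℕ → V => Φ (bu (v 0) F)) := hΦ' _
  refine kfin_ind (Q := fun y => Φ (bu y F)) hI ?_ ?_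
  · have : bu emp F = (emp : V) := ext fun z => by
      rw [mem_bu]
      exact ⟨fun ⟨i, hi, _⟩ => absurd hi (not_mem_emp i), fun h => absurd h (not_mem_emp z)⟩
    rw [this]; exact h0
  · intro y a _ ih _ ha _
    have : bu (ins y a) F = un (bu y F) (F a) := ext fun z => by
      rw [mem_bu, mem_un, mem_bu]
      constructor
      · rintro ⟨i, hi, hz⟩
        rcases mem_ins.1 hi with hi | rfl
        · exact Or.inl ⟨i, hi, hz⟩
        · exact Or.inr hz
      · rintro (⟨i, hi, hz⟩ | hz)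
        · exact ⟨i, mem_ins.2 (Or.inl hi), hz⟩
        · exact ⟨a, mem_ins_self y a, hz⟩
    rw [this]
    exact h2 _ _ ih (h a ha)

variable {X T : V}

/-- TOP1 -/
theorem Top.of_nhds (hT : Top X T) {A : V} (hA : Sub A X)
    (h : ∀ x ∈ A, ∃ U ∈ T, x ∈ U ∧ Sub U A) : A ∈ T := by
  have h1 := hT.sUn (sb (fun U => Sub U A) T) (fun z hz => (mem_sb.1 hz).1)
  have : A = ZF1.sUn (sb (fun U => Sub U A) T) := ext fun x => by
    rw [mem_sUn]
    constructor
    · intro hx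
      obtain ⟨U, hU, hxU, hUA⟩ := h x hx
      exact ⟨U, mem_sb.2 ⟨hU, hUA⟩, hxU⟩
    · rintro ⟨U, hU, hxU⟩
      exact (mem_sb.1 hU).2 x hxU
  rw [this]; exact h1

/-- TOP2 -/
theorem Top.emp_mem (hT : Top X T) : emp ∈ T :=
  hT.of_nhds (emp_sub X) fun x hx => absurd hx (not_mem_emp x)

/-- TOP3 -/
theorem Top.un_mem (hT : Top X T) {U W : V} (hU : U ∈ T) (hW : W ∈ T) : un U W ∈ T := by
  refine hT.of_nhds ?_ ?_
  · intro z hz
    rcases mem_un.1 hz with hz | hz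
    · exact hT.sub U hU z hz
    · exact hT.sub W hW z hz
  · intro x hx
    rcases mem_un.1 hx with hx | hx
    · exact ⟨U, hU, hx, sub_un_left U W⟩
    · exact ⟨W, hW, hx, sub_un_right U W⟩

theorem Clo.sub (hT : Top X T) {A : V} (hA : Clo X T A) : Sub A X := hT.sub A hA.1

/-- pointwise form of being open and closed -/
theorem clo_iff (hT : Top X T) {A : V} : Clo X T A ↔ Sub A X ∧
    (∀ x ∈ A, ∃ U ∈ T, x ∈ U ∧ Sub U A) ∧ ∀ x ∈ X, x ∉ A → ∃ U ∈ T, x ∈ U ∧ ∀ y ∈ U, y ∉ A := by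
  constructor
  · intro h
    refine ⟨h.sub hT, fun x hx => ⟨A, h.1, hx, sub_refl A⟩, fun x hx hxA =>
      ⟨diff X A, h.2, mem_diff.2 ⟨hx, hxA⟩, fun y hy => (mem_diff.1 hy).2⟩⟩
  · rintro ⟨h1, h2, h3⟩
    refine ⟨hT.of_nhds h1 h2, hT.of_nhds (fun z hz => (mem_diff.1 hz).1) ?_⟩
    intro x hx
    obtain ⟨hxX, hxA⟩ := mem_diff.1 hx
    obtain ⟨U, hU, hxU, hUA⟩ := h3 x hxX hxA
    exact ⟨U, hU, hxU, fun y hy => mem_diff.2 ⟨hT.sub U hU y hy, hUA y hy⟩⟩

/-- TOP4 -/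
theorem Clo.un (hT : Top X T) {A B : V} (hA : Clo X T A) (hB : Clo X T B) :
    Clo X T (un A B) := by
  refine ⟨hT.un_mem hA.1 hB.1, ?_⟩
  have : diff X (ZF1.un A B) = inter (diff X A) (diff X B) := ext fun z => by
    simp only [mem_diff, mem_un, mem_inter]; tauto
  rw [this]
  exact hT.inter _ hA.2 _ hB.2

/-- TOP5 -/
theorem Clo.diff (hT : Top X T) {A B : V} (hA : Clo X T A) (hB : Clo X T B) :
    Clo X T (diff A B) := by
  have h1 : ZF1.diff A B = inter A (ZF1.diff X B) := ext fun z => by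
    simp only [mem_diff, mem_inter]
    exact ⟨fun h => ⟨h.1, hA.sub hT z h.1, h.2⟩, fun h => ⟨h.1, h.2.2⟩⟩
  have h2 : ZF1.diff X (ZF1.diff A B) = ZF1.un (ZF1.diff X A) B := ext fun z => by
    simp only [mem_diff, mem_un]
    constructor
    · rintro ⟨h, h'⟩
      by_cases hz : z ∈ A
      · right
        by_contra hzB
        exact h' ⟨hz, hzB⟩
      · exact Or.inl ⟨h, hz⟩
    · rintro (⟨h, h'⟩ | h)
      · exact ⟨h, fun h'' => h' h''.1⟩
      · exact ⟨hB.sub hT z h, fun h'' => h''.2 h⟩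
  refine ⟨?_, ?_⟩
  · rw [h1]; exact hT.inter _ hA.1 _ hB.2
  · rw [h2]; exact hT.un_mem hA.2 hB.1

/-- intersections -/
theorem Clo.inter (hT : Top X T) {A B : V} (hA : Clo X T A) (hB : Clo X T B) :
    Clo X T (inter A B) := by
  refine ⟨hT.inter _ hA.1 _ hB.1, ?_⟩
  have : ZF1.diff X (ZF1.inter A B) = ZF1.un (ZF1.diff X A) (ZF1.diff X B) := ext fun z => by
    simp only [mem_diff, mem_un, mem_inter]; tauto
  rw [this]
  exact hT.un_mem hA.2 hB.2

/-- TOP6 -/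
theorem Clo.emp (hT : Top X T) : Clo X T ZF1.emp := by
  refine ⟨hT.emp_mem, ?_⟩
  have : ZF1.diff X ZF1.emp = X := ext fun z => by
    rw [mem_diff]
    exact ⟨fun h => h.1, fun h => ⟨h, not_mem_emp z⟩⟩
  rw [this]; exact hT.univ

/-- TOP7: finite unions of open and closed sets -/
theorem Clo.bu (hT : Top X T) {I : V} (hI : Kfin I) (F : V → V)
    [hF : DF (fun v => F (v 0))] (h : ∀ i ∈ I, Clo X T (F i)) : Clo X T (bu I F) :=
  kfin_bu hI F (fun A => Clo X T A) (Clo.emp hT) (fun A B hA hB => hA.un hT hB) h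

/-- closed sets are closed under binary unions -/
theorem Cl.un (hT : Top X T) {A B : V} (hA : Cl X T A) (hB : Cl X T B) : Cl X T (ZF1.un A B) := by
  refine ⟨?_, ?_⟩
  · intro z hz
    rcases mem_un.1 hz with hz | hz
    · exact hA.1 z hz
    · exact hB.1 z hz
  · have : ZF1.diff X (ZF1.un A B) = ZF1.inter (ZF1.diff X A) (ZF1.diff X B) := ext fun z => by
      simp only [mem_diff, mem_un, mem_inter]; tauto
    rw [this]
    exact hT.inter _ hA.2 _ hB.2

/-- finite unions of closed sets -/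
theorem Cl.bu (hT : Top X T) {I : V} (hI : Kfin I) (F : V → V)
    [hF : DF (fun v => F (v 0))] (h : ∀ i ∈ I, Cl X T (F i)) : Cl X T (ZT.bu I F) :=
  kfin_bu hI F (fun A => Cl X T A) ⟨emp_sub X, (Clo.emp hT).2⟩ (fun A B hA hB => hA.un hT hB) h

/-- TOP8: finite sets are closed -/
theorem cl_of_kfin (hT : Top X T) (h1 : T1 X T) {A : V} (hA : Kfin A) (hs : Sub A X) :
    Cl X T A := by
  have : A = bu A (fun x => sing x) := ext fun z => by
    rw [mem_bu]
    constructor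
    · intro hz
      exact ⟨z, hz, mem_sing.2 rfl⟩
    · rintro ⟨i, hi, hz⟩
      rw [mem_sing.1 hz]; exact hi
  rw [this]
  refine Cl.bu hT hA _ fun x hx => ⟨fun z hz => ?_, h1 x (hs x hx)⟩
  rw [mem_sing.1 hz]; exact hs x hx

/-- the closure -/
noncomputable def clos (X T A : V) : V := sb (fun x => ∀ U ∈ T, x ∈ U → ∃ y ∈ U, y ∈ A) X

instance {t : (ℕ → V) → V} [ht : DF t] : DF (fun v => clos X T (t v)) :=
  DF.comp1 (F := clos X T) (by unfold clos; infer_instance) ht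

theorem cl_clos (hT : Top X T) (A : V) : Cl X T (clos X T A) := by
  refine ⟨fun z hz => (mem_sb.1 hz).1, hT.of_nhds (fun z hz => (mem_diff.1 hz).1) ?_⟩
  intro x hx
  obtain ⟨hxX, hx⟩ := mem_diff.1 hx
  have h1 : ∃ U ∈ T, x ∈ U ∧ ∀ y ∈ U, y ∉ A := by
    by_contra hcon
    push Not at hcon
    exact hx (mem_sb.2 ⟨hxX, hcon⟩)
  obtain ⟨U, hU, hxU, hUA⟩ := h1
  refine ⟨U, hU, hxU, fun z hz => mem_diff.2 ⟨hT.sub U hU z hz, fun hz' => ?_⟩⟩
  obtain ⟨y, hy, hyA⟩ := (mem_sb.1 hz').2 U hU hz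
  exact hUA y hy hyA

theorem way_iff {A B : V} : Way X T A B ↔ Sub (clos X T A) B := by
  constructor
  · intro h x hx
    obtain ⟨hxX, hx⟩ := mem_sb.1 hx
    by_contra hxB
    obtain ⟨U, hU, hxU, hUA⟩ := h x hxX hxB
    obtain ⟨y, hy, hyA⟩ := hx U hU hxU
    exact hUA y hy hyA
  · intro h x hxX hxB
    by_contra hcon
    push Not at hcon
    exact hxB (h x (mem_sb.2 ⟨hxX, hcon⟩))

/-- TOP9: finite unions and `Way` -/
theorem Way.bu (hT : Top X T) {I : V} (hI : Kfin I) (F G : V → V)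
    [hF : DF (fun v => F (v 0))] [hG : DF (fun v => G (v 0))] (h : ∀ i ∈ I, Way X T (F i) (G i)) :
    Way X T (bu I F) (bu I G) := by
  have hF' : ∀ (t : (ℕ → V) → V) [DF t], DF (fun v => F (t v)) := fun t ht => DF.comp1 hF ht
  have hD : DF (fun v : ℕ → V => clos X T (F (v 0))) := inferInstance
  have h1 : Cl X T (ZT.bu I (fun i => clos X T (F i))) :=
    Cl.bu hT hI (fun i => clos X T (F i)) fun i _ => cl_clos hT _
  intro x hxX hx
  refine ⟨ZF1.diff X (ZT.bu I (fun i => clos X T (F i))), h1.2, mem_diff.2 ⟨hxX, ?_⟩, ?_⟩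
  · rw [mem_bu (F := fun i => clos X T (F i))]
    rintro ⟨i, hi, hxi⟩
    exact hx (mem_bu.2 ⟨i, hi, way_iff.1 (h i hi) x hxi⟩)
  · intro y hy hyF
    obtain ⟨hyX, hy⟩ := mem_diff.1 hy
    obtain ⟨i, hi, hyi⟩ := mem_bu.1 hyF
    exact hy ((mem_bu (F := fun i => clos X T (F i))).2 ⟨i, hi,
      mem_sb.2 ⟨hyX, fun U _ hyU => ⟨y, hyU, hyi⟩⟩⟩)

/-- TOP10: the set of all continuous functions into the line -/
theorem exists_cx (X T R lt : V) : ∃ K : V, ∀ k, k ∈ K ↔ Cts X T R lt k := by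
  refine ⟨sb (fun k => Cts X T R lt k) (pow (prod X R)), fun k => ?_⟩
  rw [mem_sb]
  refine ⟨fun h => h.2, fun h => ⟨mem_pow.2 ?_, h⟩⟩
  intro z hz
  obtain ⟨x, hx, y, rfl⟩ := h.fn.1 z hz
  rw [opair_mem_prod]
  refine ⟨hx, ?_⟩
  rw [← h.fn.ap_eq hz]
  exact h.mem x hx

end

end Pool.Agent.ZT
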