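import Pool.Agent.Lib_helper91.ZT.Bar
import Pool.Agent.Lib_helper91.ZT.TopB

/-!
# Block CUT
-/

set_option linter.unusedSectionVars false
set_option linter.unusedVariables false

universe u

namespace Pool.Agent.ZT

open FirstOrder Language Pool.Agent.ZF1

section
variable {V : Type u} [Lset.Structure V] [IsZF V]

variable {B : BS V} {X T k k' : V}

/-- low values are in the barrier relation -/
theorem BS.Ok.lam_low (hB : B.Ok) {q s t : V} (hq : q ∈ B.Q) (hs : s ∈ B.R)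
    (h : Le B.lt s (ap B.a q)) : B.Lam q s t := by
  left
  have h1 := hB.es q hq emp emp_mem_omega
  rw [hB.e0 q hq] at h1
  exact Or.inl (hB.line.lt_of_le_of_lt hs (hB.aR q hq) (hB.eR q hq _ (succ_mem_omega emp_mem_omega))
    h h1)

/-- the first coordinates of the barrier relation are below the block or in the block -/
theorem BS.Ok.lam_lt (hB : B.Ok) {q s t : V} (hq : q ∈ B.Q) (hs : s ∈ B.R)
    (h : B.Lam q s t) : Lt B.lt s (ap B.b q) := by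
  rcases h with h | ⟨q', hq', _, i, hi, _, _, _, h, _⟩
  · exact hB.line.lt_of_le_of_lt hs (hB.eR q hq _ (succ_mem_omega emp_mem_omega)) (hB.bR q hq) h
      (hB.eb q hq _ (succ_mem_omega emp_mem_omega))
  · exact hB.line.lt_of_le_of_lt hs (hB.eR q hq _ (succ_mem_omega hi)) (hB.bR q hq) h.2
      (hB.eb q hq _ (succ_mem_omega hi))

theorem BS.Ok.not_lam (hB : B.Ok) {q s t : V} (hq : q ∈ B.Q) (hs : s ∈ B.R)
    (h : ¬ B.Lam q s t) : Lt B.lt (ap B.a q) s := by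
  rw [← hB.line.not_le hs (hB.aR q hq)]
  exact fun h' => h (hB.lam_low hq hs h')

theorem BS.Eqv.symm {s t : V} (h : B.Eqv s t) : B.Eqv t s := fun c => (h c).symm

theorem BS.Same.symm {k k' : V} (h : B.Same X k k') : B.Same X k' k := fun x hx => (h x hx).symm

/-- the barrier relation is locally constant outside the block -/
theorem BS.Ok.lam_loc (hB : B.Ok) (hT : Top X T) (hk : Cts X T B.R B.lt k)
    (hk' : Cts X T B.R B.lt k') (hkk : B.Same X k k') {q x : V} (hq : q ∈ B.Q) (hx : x ∈ X)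
    (hJ : ¬ (B.InJ q (ap k x) ∧ B.InJ q (ap k' x))) :
    ∃ U ∈ T, x ∈ U ∧ ∀ y ∈ U, (B.Lam q (ap k y) (ap k' y) ↔ B.Lam q (ap k x) (ap k' x)) := by
  obtain ⟨l, hl, r, hr, l', hl', r', hr', h1, h2, h3, h4, h5⟩ :=
    barrier hB hq (hk.mem x hx) (hk'.mem x hx) (hkk x hx) hJ
  refine ⟨inter (inter (sb (fun x => Lt B.lt l (ap k x)) X) (sb (fun x => Lt B.lt (ap k x) r) X))
    (inter (sb (fun x => Lt B.lt l' (ap k' x)) X) (sb (fun x => Lt B.lt (ap k' x) r') X)),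
    hT.inter _ (hT.inter _ (hk.above l hl) _ (hk.below r hr)) _
      (hT.inter _ (hk'.above l' hl') _ (hk'.below r' hr')), ?_, ?_⟩
  · simp only [mem_inter, mem_sb]
    exact ⟨⟨⟨hx, h1⟩, hx, h2⟩, ⟨hx, h3⟩, hx, h4⟩
  · intro y hy
    simp only [mem_inter, mem_sb] at hy
    obtain ⟨⟨⟨hyX, k1⟩, _, k2⟩, ⟨_, k3⟩, _, k4⟩ := hy
    exact h5 _ (hk.mem y hyX) _ (hk'.mem y hyX) k1 k2 k3 k4 (hkk y hyX)

/-- cutting one function with the help of another one -/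
theorem BS.Ok.cut_one (hB : B.Ok) (hT : Top X T) {P : V} (hP : Clo X T P)
    (hk : Cts X T B.R B.lt k) (hk' : Cts X T B.R B.lt k') (hkk : B.Same X k k') {q : V}
    (hq : q ∈ B.Q) (hJ : ∀ x ∈ P, ¬ B.InJ q (ap k' x)) :
    ∃ D, Clo X T D ∧ (∀ x ∈ P, Le B.lt (ap k x) (ap B.a q) → x ∈ D) ∧
      ∀ x ∈ D, x ∈ P ∧ Lt B.lt (ap k x) (ap B.b q) := by
  have hPX := hP.sub hT
  refine ⟨sb (fun x => B.Lam q (ap k x) (ap k' x)) P, ?_, ?_, ?_⟩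
  · rw [clo_iff hT]
    refine ⟨fun x hx => hPX x (mem_sb.1 hx).1, ?_, ?_⟩
    · intro x hx
      obtain ⟨hxP, hxL⟩ := mem_sb.1 hx
      obtain ⟨U, hU, hxU, h⟩ := hB.lam_loc hT hk hk' hkk hq (hPX x hxP)
        (fun h => hJ x hxP h.2)
      refine ⟨inter U P, hT.inter _ hU _ hP.1, mem_inter.2 ⟨hxU, hxP⟩, fun y hy => ?_⟩
      obtain ⟨hyU, hyP⟩ := mem_inter.1 hy
      exact mem_sb.2 ⟨hyP, (h y hyU).2 hxL⟩
    · intro x hx hxD
      by_cases hxP : x ∈ P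
      · obtain ⟨U, hU, hxU, h⟩ := hB.lam_loc hT hk hk' hkk hq (hPX x hxP)
          (fun h => hJ x hxP h.2)
        refine ⟨U, hU, hxU, fun y hyU hy => hxD (mem_sb.2 ⟨hxP, ?_⟩)⟩
        exact (h y hyU).1 (mem_sb.1 hy).2
      · exact ⟨diff X P, hP.2, mem_diff.2 ⟨hx, hxP⟩, fun y hy hyD =>
          (mem_diff.1 hy).2 (mem_sb.1 hyD).1⟩
  · intro x hx h
    exact mem_sb.2 ⟨hx, hB.lam_low hq (hk.mem x (hPX x hx)) h⟩
  · intro x hx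
    obtain ⟨hxP, hxL⟩ := mem_sb.1 hx
    exact ⟨hxP, hB.lam_lt hq (hk.mem x (hPX x hxP)) hxL⟩

/-- CUT -/
theorem exists_cut {B : BS V} (hB : B.Ok) {X T k k' q1 q2 H : V} (hT : Top X T)
    (hk : Cts X T B.R B.lt k) (hk' : Cts X T B.R B.lt k') (hq1 : q1 ∈ B.Q) (hq2 : q2 ∈ B.Q)
    (hq : Lt B.lt q1 q2) (hkk : B.Same X k k')
    (hH : ∀ κ ∈ H, Cts X T B.R B.lt κ ∧ B.Same X κ k ∧ B.Same X κ k') :
    ∃ P, Clo X T P ∧
      (∀ x ∈ X, Le B.lt (ap k x) (ap B.a q1) → Le B.lt (ap B.b q2) (ap k' x) → x ∈ P) ∧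
      (∀ x ∈ P, Lt B.lt (ap k x) (ap B.b q1) ∧ Lt B.lt (ap B.a q2) (ap k' x)) ∧
      B.Cutt X T H P := by
  have hL := hB.line
  have hab := hB.ord q1 hq1 q2 hq2 hq
  have hP2 : ∀ x ∈ X, B.Lam q1 (ap k x) (ap k' x) ∧ ¬ B.Lam q2 (ap k' x) (ap k x) →
      Lt B.lt (ap k x) (ap B.b q1) ∧ Lt B.lt (ap B.a q2) (ap k' x) := fun x hx h =>
    ⟨hB.lam_lt hq1 (hk.mem x hx) h.1, hB.not_lam hq2 (hk'.mem x hx) h.2⟩
  have hlt : ∀ x ∈ X, Lt B.lt (ap k x) (ap B.b q1) → Lt B.lt (ap k x) (ap B.a q2) :=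
    fun x hx h => hL.trans _ (hk.mem x hx) _ (hB.bR _ hq1) _ (hB.aR _ hq2) h hab
  have hgt : ∀ x ∈ X, Lt B.lt (ap B.a q2) (ap k' x) → Lt B.lt (ap B.b q1) (ap k' x) :=
    fun x hx h => hL.trans _ (hB.bR _ hq1) _ (hB.aR _ hq2) _ (hk'.mem x hx) hab h
  have asym : ∀ s ∈ B.R, ∀ t ∈ B.R, Lt B.lt s t → Lt B.lt t s → False :=
    fun s hs t ht h h' => hL.irr s hs (hL.trans _ hs _ ht _ hs h h')
  have hP1 : Clo X T (sb (fun x => B.Lam q1 (ap k x) (ap k' x) ∧ ¬ B.Lam q2 (ap k' x) (ap k x)) X) := by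
    rw [clo_iff hT]
    refine ⟨fun x hx => (mem_sb.1 hx).1, ?_, ?_⟩
    · intro x hx
      obtain ⟨hxX, hx1⟩ := mem_sb.1 hx
      obtain ⟨h1, h2⟩ := hP2 x hxX hx1
      obtain ⟨U, hU, hxU, hU'⟩ := hB.lam_loc hT hk hk' hkk hq1 hxX
        (fun h => asym _ (hk'.mem x hxX) _ (hB.bR _ hq1) h.2.2 (hgt x hxX h2))
      obtain ⟨W, hW, hxW, hW'⟩ := hB.lam_loc hT hk' hk hkk.symm hq2 hxX
        (fun h => asym _ (hk.mem x hxX) _ (hB.aR _ hq2) (hlt x hxX h1) h.2.1)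
      refine ⟨inter U W, hT.inter _ hU _ hW, mem_inter.2 ⟨hxU, hxW⟩, fun y hy => ?_⟩
      obtain ⟨hyU, hyW⟩ := mem_inter.1 hy
      refine mem_sb.2 ⟨hT.sub U hU y hyU, ?_, ?_⟩
      · exact (hU' y hyU).2 hx1.1
      · exact fun h => hx1.2 ((hW' y hyW).1 h)
    · intro x hxX hxP
      by_cases hJ1 : B.InJ q1 (ap k x) ∧ B.InJ q1 (ap k' x)
      · refine ⟨_, hk'.below _ (hB.bR _ hq1), mem_sb.2 ⟨hxX, hJ1.2.2⟩, fun y hy hyP => ?_⟩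
        obtain ⟨hyX, hy⟩ := mem_sb.1 hy
        have := hP2 y hyX (mem_sb.1 hyP).2
        exact asym _ (hk'.mem y hyX) _ (hB.bR _ hq1) hy (hgt y hyX this.2)
      by_cases hJ2 : B.InJ q2 (ap k' x) ∧ B.InJ q2 (ap k x)
      · refine ⟨_, hk.above _ (hB.aR _ hq2), mem_sb.2 ⟨hxX, hJ2.2.1⟩, fun y hy hyP => ?_⟩
        obtain ⟨hyX, hy⟩ := mem_sb.1 hy
        have := hP2 y hyX (mem_sb.1 hyP).2
        exact asym _ (hk.mem y hyX) _ (hB.aR _ hq2) (hlt y hyX this.1) hy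
      obtain ⟨U, hU, hxU, hU'⟩ := hB.lam_loc hT hk hk' hkk hq1 hxX hJ1
      obtain ⟨W, hW, hxW, hW'⟩ := hB.lam_loc hT hk' hk hkk.symm hq2 hxX hJ2
      refine ⟨inter U W, hT.inter _ hU _ hW, mem_inter.2 ⟨hxU, hxW⟩, fun y hy hyP => ?_⟩
      obtain ⟨hyU, hyW⟩ := mem_inter.1 hy
      obtain ⟨hyX, hy1, hy2⟩ := mem_sb.1 hyP
      refine hxP (mem_sb.2 ⟨hxX, (hU' y hyU).1 hy1, fun h => hy2 ((hW' y hyW).2 h)⟩)
  refine ⟨sb (fun x => B.Lam q1 (ap k x) (ap k' x) ∧ ¬ B.Lam q2 (ap k' x) (ap k x)) X,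
    hP1, ?_, ?_, ?_⟩
  · intro x hxX h1 h2
    refine mem_sb.2 ⟨hxX, hB.lam_low hq1 (hk.mem x hxX) h1, fun h => ?_⟩
    have h3 := hB.lam_lt hq2 (hk'.mem x hxX) h
    exact hL.irr _ (hk'.mem x hxX) (hL.lt_of_lt_of_le (hk'.mem x hxX) (hB.bR _ hq2)
      (hk'.mem x hxX) h3 h2)
  · intro x hx
    obtain ⟨hxX, hx⟩ := mem_sb.1 hx
    exact hP2 x hxX hx
  · intro κ hκ q hqQ
    obtain ⟨hκc, hκk, hκk'⟩ := hH κ hκ
    by_cases hqq : Lt B.lt q1 q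
    · refine hB.cut_one hT hP1 hκc hk hκk hqQ fun x hx h => ?_
      obtain ⟨hxX, hx⟩ := mem_sb.1 hx
      have h1 := (hP2 x hxX hx).1
      have h2 := hB.ord q1 hq1 q hqQ hqq
      have h3 := hL.trans _ (hk.mem x hxX) _ (hB.bR _ hq1) _ (hB.aR _ hqQ) h1 h2
      exact asym _ (hk.mem x hxX) _ (hB.aR _ hqQ) h3 h.1
    · refine hB.cut_one hT hP1 hκc hk' hκk' hqQ fun x hx h => ?_
      obtain ⟨hxX, hx⟩ := mem_sb.1 hx
      have h1 := (hP2 x hxX hx).2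
      have h0 := (hL.not_lt (hL.sub _ hq1) (hL.sub _ hqQ)).1 hqq
      have h2 := hB.ord q hqQ q2 hq2
        (hL.lt_of_le_of_lt (hL.sub _ hqQ) (hL.sub _ hq1) (hL.sub _ hq2) h0 hq)
      have h3 := hL.trans _ (hB.bR _ hqQ) _ (hB.aR _ hq2) _ (hk'.mem x hxX) h2 h1
      exact asym _ (hk'.mem x hxX) _ (hB.bR _ hqQ) h.2 h3

end

end Pool.Agent.ZT
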