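import Pool.Agent.Lib_helper1.ZF.Notions

/-!
# Topological notions in an arbitrary structure for the language of set theory

All notions are stated for an arbitrary structure `V` for the language of set theory; only the
membership relation of `V` and quantifiers over `V` are used. `OMem x y f` says that the ordered
pair `⟨x, y⟩` is an element of `f`. The real line enters through its order: up to isomorphism it is
the only Dedekind complete dense linear order without endpoints which has a countable dense subset.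
-/

universe u

namespace Pool.Agent.ZT

open Pool.Agent.ZF1

section
variable {V : Type u} [Lset.Structure V]

/-- `A` is countable: there is an injection of `A` into the set `w` of natural numbers. -/
def IsCountable (A : V) : Prop := ∃ w f : V, (∀ n, n ∈ w ↔ IsNat n) ∧ IsFun f A w ∧
  ∀ x x' y, OMem x y f → OMem x' y f → x = x'

/-- `T` is a topology on the set `X`: its members are subsets of `X`, `X` is a member, and it is
closed under binary intersections and under the unions of all its subsets. -/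
def IsTopology (X T : V) : Prop :=
  (∀ U ∈ T, Sub U X) ∧ X ∈ T ∧
  (∀ U ∈ T, ∀ W ∈ T, ∃ I ∈ T, ∀ z, z ∈ I ↔ z ∈ U ∧ z ∈ W) ∧
  (∀ F, Sub F T → ∃ U ∈ T, ∀ z, z ∈ U ↔ ∃ W ∈ F, z ∈ W)

/-- `C` is a closed subset of the space `(X, T)`. -/
def IsClosedIn (X T C : V) : Prop := Sub C X ∧ ∃ U ∈ T, ∀ z, z ∈ U ↔ z ∈ X ∧ z ∉ C

/-- The space `(X, T)` is `T_1`: singletons are closed. -/
def IsT1 (X T : V) : Prop := ∀ x ∈ X, ∀ C, IsUpair C x x → IsClosedIn X T C

/-- `T` is the coarsest topology on `X` containing all sets with the property `Sb`. -/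
def IsCoarsest (X T : V) (Sb : V → Prop) : Prop :=
  IsTopology X T ∧ (∀ U, Sb U → U ∈ T) ∧
    ∀ T', IsTopology X T' → (∀ U, Sb U → U ∈ T') → Sub T T'

/-- `f` is a continuous function from the space `(X, T)` to the space `(Y, S)`. -/
def IsContinuous (f X T Y S : V) : Prop := IsFun f X Y ∧
  ∀ U ∈ S, ∃ W ∈ T, ∀ x, x ∈ W ↔ x ∈ X ∧ ∃ y ∈ U, OMem x y f

/-- `f` is a homeomorphism from the space `(X, T)` onto the space `(Y, S)`: a continuous bijection
which maps open sets to open sets. -/
def IsHomeo (f X T Y S : V) : Prop := IsBij f X Y ∧ IsContinuous f X T Y S ∧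
  ∀ U ∈ T, ∃ W ∈ S, ∀ y, y ∈ W ↔ ∃ x ∈ U, OMem x y f

/-- `T'` is the subspace topology on the subset `C` of a space with topology `T`. -/
def IsSubspaceTopology (C T' T : V) : Prop := ∀ U, U ∈ T' ↔ ∃ W ∈ T, ∀ z, z ∈ U ↔ z ∈ W ∧ z ∈ C

/-- Every open cover of the space `(X, T)` has a countable subcover. -/
def IsLindelof (X T : V) : Prop := ∀ F, Sub F T → (∀ x ∈ X, ∃ U ∈ F, x ∈ U) →
  ∃ G, Sub G F ∧ IsCountable G ∧ ∀ x ∈ X, ∃ U ∈ G, x ∈ U

/-- The set `R`, ordered by the relation `x < y ↔ ⟨x, y⟩ ∈ lt`, is isomorphic to the real line: it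
is a non-empty linear order without endpoints, with a countable subset `Q` meeting all non-empty
open intervals, and all non-empty subsets which are bounded above have a least upper bound. (The
order is dense because `Q` meets all `(x, y)` with `x < y`.) -/
def IsRealLine (R lt : V) : Prop :=
  (∃ x, x ∈ R) ∧
  (∀ x ∈ R, ¬ OMem x x lt) ∧
  (∀ x ∈ R, ∀ y ∈ R, ∀ z ∈ R, OMem x y lt → OMem y z lt → OMem x z lt) ∧
  (∀ x ∈ R, ∀ y ∈ R, OMem x y lt ∨ x = y ∨ OMem y x lt) ∧
  (∀ x ∈ R, (∃ y ∈ R, OMem y x lt) ∧ ∃ y ∈ R, OMem x y lt) ∧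
  (∃ Q, Sub Q R ∧ IsCountable Q ∧
    ∀ x ∈ R, ∀ y ∈ R, OMem x y lt → ∃ q ∈ Q, OMem x q lt ∧ OMem q y lt) ∧
  ∀ A, Sub A R → (∃ x, x ∈ A) → (∃ b ∈ R, ∀ x ∈ A, OMem x b lt ∨ x = b) →
    ∃ s ∈ R, (∀ x ∈ A, OMem x s lt ∨ x = s) ∧
      ∀ b ∈ R, (∀ x ∈ A, OMem x b lt ∨ x = b) → OMem s b lt ∨ s = b

/-- `S` is the order topology on the linearly ordered set `R`, i.e. the coarsest topology
containing the open rays `{z : a < z}` and `{z : z < a}`. -/
def IsOrderTopology (R lt S : V) : Prop := IsCoarsest R S fun U => ∃ a ∈ R,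
  (∀ z, z ∈ U ↔ z ∈ R ∧ OMem a z lt) ∨ (∀ z, z ∈ U ↔ z ∈ R ∧ OMem z a lt)

/-- `P` is the power `Y^J`: the set of all functions from `J` to `Y`. -/
def IsPower (P J Y : V) : Prop := ∀ g, g ∈ P ↔ IsFun g J Y

/-- `T` is the product topology on the power `P` of the space with topology `S` with exponent `J`:
the coarsest topology containing all sets `{g ∈ P : g(j) ∈ W}` with `j ∈ J` and `W ∈ S`. -/
def IsProductTopology (P T J S : V) : Prop := IsCoarsest P T fun U => ∃ j ∈ J, ∃ W ∈ S,
  ∀ g, g ∈ U ↔ g ∈ P ∧ ∃ y ∈ W, OMem j y g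

/-- The space `(X, T)` is completely regular: for every closed set `C` and every point `x` of `X`
not in `C` there is a continuous `f` from `X` to the interval `[z, o]` of the real line
`(R, lt)` (with topology `S`) with `f(x) = z` and `f(y) = o` for all `y` in `C`. -/
def IsCompletelyRegular (X T R lt S z o : V) : Prop := ∀ C, IsClosedIn X T C → ∀ x ∈ X, x ∉ C →
  ∃ f, IsContinuous f X T R S ∧
    (∀ x' y, OMem x' y f → (OMem z y lt ∨ z = y) ∧ (OMem y o lt ∨ y = o)) ∧
    OMem x z f ∧ ∀ y ∈ C, OMem y o f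

/-- The space `(X, T)` is realcompact: it is homeomorphic to a closed subspace `C` of a power
`P = R^J` of the real line `R` (with topology `S`). -/
def IsRealcompact (X T R S : V) : Prop := ∃ J P TP C TC f : V,
  IsPower P J R ∧ IsProductTopology P TP J S ∧ IsClosedIn P TP C ∧ IsSubspaceTopology C TC TP ∧
    IsHomeo f X T C TC

end

end Pool.Agent.ZT
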