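import Pool.Agent.Lib_helper91.ZT.Bri

/-!
# Block EMB
-/

set_option linter.unusedSectionVars false
set_option linter.unusedVariables false

universe u

namespace Pool.Agent.ZT

open FirstOrder Language Pool.Agent.ZF1

section
variable {V : Type u} [Lset.Structure V] [IsZF V]

/-! ## Block EMB: the embedding -/

/-- separation of points and closed sets by functions -/
theorem emb_cr {X T R lt Q io S z o : V} (hT : Top X T) (hR : Line R lt Q io)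
    (hS : IsOrderTopology R lt S)
    (hcr : IsCompletelyRegular X T R lt S z o) {U x : V} (hU : U ∈ T) (hx : x ∈ U) :
    ∃ f, Cts X T R lt f ∧ ap f x = z ∧ ∀ y ∈ X, y ∉ U → ap f y = o := by
  have hUX := hT.sub U hU
  have hdd : diff X (diff X U) = U := ext fun y => by
    rw [mem_diff, mem_diff]
    constructor
    · rintro ⟨h1, h2⟩
      by_contra h
      exact h2 ⟨h1, h⟩
    · intro h
      exact ⟨hUX y h, fun h' => h'.2 h⟩
  have hcl : IsClosedIn X T (diff X U) :=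
    (isClosedIn_iff hT).2 ⟨fun y hy => (mem_diff.1 hy).1, by rw [hdd]; exact hU⟩
  obtain ⟨f, hf, _, h1, h2⟩ := hcr _ hcl x (hUX x hx) (fun h => (mem_diff.1 h).2 hx)
  have hf' := (continuous_iff hT hR hS).1 hf
  refine ⟨f, hf', hf'.fn.ap_eq (oMem_iff.1 h1), fun y hy hyU => ?_⟩
  exact hf'.fn.ap_eq (oMem_iff.1 (h2 y (mem_diff.2 ⟨hy, hyU⟩)))

theorem emb_power {P J R g : V} (hP : IsPower P J R) (hg : g ∈ P) :
    IsFn g J ∧ ∀ k ∈ J, ap g k ∈ R := isFun_iff.1 ((hP g).1 hg)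

/-- subbasic sets of the product -/
theorem emb_sub {R lt Q io S J P TP W κ : V} (hP : IsPower P J R)
    (hTP : IsProductTopology P TP J S) (hW : W ∈ S) (hκ : κ ∈ J) :
    sb (fun g => ap g κ ∈ W) P ∈ TP := by
  refine hTP.2.1 _ ⟨κ, hκ, W, hW, fun g => ?_⟩
  rw [mem_sb]
  constructor
  · rintro ⟨hg, h⟩
    exact ⟨hg, _, h, oMem_iff.2 ((emb_power hP hg).1.ap_mem hκ)⟩
  · rintro ⟨hg, y, hy, h⟩
    refine ⟨hg, ?_⟩
    rw [(emb_power hP hg).1.ap_eq (oMem_iff.1 h)]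
    exact hy

theorem emb_ray_lt {R lt Q io S r : V} (hR : Line R lt Q io) (hS : IsOrderTopology R lt S)
    (hr : r ∈ R) : sb (fun x => Lt lt x r) R ∈ S :=
  hS.2.1 _ ⟨r, hr, Or.inr fun z => by rw [mem_sb, oMem_iff]; rfl⟩

theorem emb_ray_gt {R lt Q io S r : V} (hR : Line R lt Q io) (hS : IsOrderTopology R lt S)
    (hr : r ∈ R) : sb (fun x => Lt lt r x) R ∈ S :=
  hS.2.1 _ ⟨r, hr, Or.inl fun z => by rw [mem_sb, oMem_iff]; rfl⟩

/-- EMB1: a point of the power which is not in the image of the space but in its closure defines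
an ideal. Here `J` is the set of all continuous functions, `P` the power, `TP` its topology and
`E` the evaluation map. -/
theorem exists_ideal {X T R lt Q io S z o J P TP E p : V} (hT : Top X T) (hR : Line R lt Q io)
    (hS : IsOrderTopology R lt S) (hz : z ∈ R) (ho : o ∈ R) (hzo : Lt lt z o)
    (hcr : IsCompletelyRegular X T R lt S z o) (hJ : ∀ k, k ∈ J ↔ Cts X T R lt k)
    (hP : IsPower P J R) (hTP : IsProductTopology P TP J S)
    (hE : IsFn E X) (hE' : ∀ x ∈ X, IsFn (ap E x) J ∧ ∀ k ∈ J, ap (ap E x) k = ap k x)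
    (hp : p ∈ P) (hpE : ∀ x ∈ X, p ≠ ap E x) (hcl : ∀ O ∈ TP, p ∈ O → ∃ x ∈ X, ap E x ∈ O) :
    ∃ N, Idl X N ∧
      (∀ x ∈ X, ∃ k, Cts X T R lt k ∧ ap k x = z ∧
        ∀ r ∈ R, Lt lt r o → sb (fun y => Le lt (ap k y) r) X ∈ N) ∧
      ∀ G, Cts X T R lt G → ∃ r ∈ R, sb (fun y => Lt lt (ap G y) r) X ∉ N := by
  have hTP' : Top P TP := top_of hTP.1
  obtain ⟨hpf, hpR⟩ := emb_power hP hp
  have hN : ∀ A, A ∈ sb (fun A => ∃ O ∈ TP, p ∈ O ∧ ∀ x ∈ A, ap E x ∉ O) (pow X) ↔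
      Sub A X ∧ ∃ O ∈ TP, p ∈ O ∧ ∀ x ∈ A, ap E x ∉ O := fun A => by
    rw [mem_sb, ZF1.mem_pow]
  have hI : Idl X (sb (fun A => ∃ O ∈ TP, p ∈ O ∧ ∀ x ∈ A, ap E x ∉ O) (pow X)) := by
    constructor
    · intro A hA
      exact ((hN A).1 hA).1
    · exact (hN _).2 ⟨emp_sub X, P, hTP'.univ, hp, fun x hx => absurd hx (not_mem_emp x)⟩
    · intro A hA B hB
      obtain ⟨h1, O, hO, hpO, h2⟩ := (hN A).1 hA
      exact (hN B).2 ⟨sub_trans hB h1, O, hO, hpO, fun x hx => h2 x (hB x hx)⟩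
    · intro A hA B hB
      obtain ⟨h1, O, hO, hpO, h2⟩ := (hN A).1 hA
      obtain ⟨h1', O', hO', hpO', h2'⟩ := (hN B).1 hB
      refine (hN _).2 ⟨fun x hx => ?_, inter O O', hTP'.inter _ hO _ hO',
        mem_inter.2 ⟨hpO, hpO'⟩, fun x hx hxO => ?_⟩
      · rcases mem_un.1 hx with hx | hx
        · exact h1 x hx
        · exact h1' x hx
      · rcases mem_un.1 hx with hx | hx
        · exact h2 x hx (mem_inter.1 hxO).1
        · exact h2' x hx (mem_inter.1 hxO).2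
    · intro h
      obtain ⟨_, O, hO, hpO, h2⟩ := (hN X).1 h
      obtain ⟨x, hx, hxO⟩ := hcl O hO hpO
      exact h2 x hx hxO
  refine ⟨_, hI, ?_, ?_⟩
  · intro x hx
    obtain ⟨hxf, hxk⟩ := hE' x hx
    have hne : ∃ κ ∈ J, ap p κ ≠ ap κ x := by
      by_contra hcon
      push Not at hcon
      refine hpE x hx (fn_ext hpf hxf fun κ hκ => ?_)
      rw [hcon κ hκ, hxk κ hκ]
    obtain ⟨κ, hκ, hκp⟩ := hne
    have hκc := (hJ κ).1 hκ
    have key : ∀ A O, A ∈ T → x ∈ A → O ∈ TP → p ∈ O → (∀ y ∈ A, ap E y ∉ O) →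
        ∃ k, Cts X T R lt k ∧ ap k x = z ∧ ∀ r ∈ R, Lt lt r o →
          sb (fun y => Le lt (ap k y) r) X ∈
            sb (fun A => ∃ O ∈ TP, p ∈ O ∧ ∀ x ∈ A, ap E x ∉ O) (pow X) := by
      intro A O hA hxA hO hpO hAO
      obtain ⟨f, hf, h1, h2⟩ := emb_cr hT hR hS hcr hA hxA
      refine ⟨f, hf, h1, fun r hr hro => (hN _).2 ⟨fun y hy => (mem_sb.1 hy).1, O, hO, hpO,
        fun y hy => hAO y ?_⟩⟩
      obtain ⟨hyX, hy⟩ := mem_sb.1 hy
      by_contra hyA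
      rw [h2 y hyX hyA] at hy
      exact hR.irr _ ho (hR.lt_of_le_of_lt ho hr ho hy hro)
    rcases hR.tri _ (hκc.mem x hx) _ (hpR κ hκ) with h | h | h
    · obtain ⟨q, hq, h1, h2⟩ := hR.dense _ (hκc.mem x hx) _ (hpR κ hκ) h
      have hqR := hR.sub q hq
      refine key _ _ (hκc.below q hqR) (mem_sb.2 ⟨hx, h1⟩)
        (emb_sub (R := R) (lt := lt) (Q := Q) (io := io) hP hTP (emb_ray_gt hR hS hqR) hκ)
        (mem_sb.2 ⟨hp, mem_sb.2 ⟨hpR κ hκ, h2⟩⟩) fun y hy hyO => ?_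
      obtain ⟨hyX, hy⟩ := mem_sb.1 hy
      have h3 := (mem_sb.1 (mem_sb.1 hyO).2).2
      rw [(hE' y hyX).2 κ hκ] at h3
      exact hR.irr _ hqR (hR.trans _ hqR _ (hκc.mem y hyX) _ hqR h3 hy)
    · exact absurd h.symm hκp
    · obtain ⟨q, hq, h1, h2⟩ := hR.dense _ (hpR κ hκ) _ (hκc.mem x hx) h
      have hqR := hR.sub q hq
      refine key _ _ (hκc.above q hqR) (mem_sb.2 ⟨hx, h2⟩)
        (emb_sub (R := R) (lt := lt) (Q := Q) (io := io) hP hTP (emb_ray_lt hR hS hqR) hκ)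
        (mem_sb.2 ⟨hp, mem_sb.2 ⟨hpR κ hκ, h1⟩⟩) fun y hy hyO => ?_
      obtain ⟨hyX, hy⟩ := mem_sb.1 hy
      have h3 := (mem_sb.1 (mem_sb.1 hyO).2).2
      rw [(hE' y hyX).2 κ hκ] at h3
      exact hR.irr _ hqR (hR.trans _ hqR _ (hκc.mem y hyX) _ hqR hy h3)
  · intro G hG
    have hGJ := (hJ G).2 hG
    obtain ⟨r, hr, hpr⟩ := hR.top _ (hpR G hGJ)
    refine ⟨r, hr, fun h => ?_⟩
    obtain ⟨_, O, hO, hpO, h2⟩ := (hN _).1 h
    have hO' := emb_sub (R := R) (lt := lt) (Q := Q) (io := io) hP hTP (emb_ray_lt hR hS hr) hGJ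
    obtain ⟨x, hx, hxO⟩ := hcl _ (hTP'.inter _ hO _ hO') (mem_inter.2 ⟨hpO,
      mem_sb.2 ⟨hp, mem_sb.2 ⟨hpR G hGJ, hpr⟩⟩⟩)
    obtain ⟨h3, h4⟩ := mem_inter.1 hxO
    have h5 := (mem_sb.1 (mem_sb.1 h4).2).2
    rw [(hE' x hx).2 G hGJ] at h5
    exact h2 x (mem_sb.2 ⟨hx, h5⟩) h3

/-- EMB2: the evaluation map embeds a completely regular space onto a closed subspace as soon as
its image is closed. -/
theorem realcompact_of {X T R lt Q io S z o : V} (hT : Top X T) (h1 : T1 X T)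
    (hR : Line R lt Q io)
    (hS : IsOrderTopology R lt S) (hz : z ∈ R) (ho : o ∈ R) (hzo : Lt lt z o)
    (hcr : IsCompletelyRegular X T R lt S z o)
    (h : ∀ J P TP E p : V, (∀ k, k ∈ J ↔ Cts X T R lt k) → IsPower P J R →
      IsProductTopology P TP J S → IsFn E X →
      (∀ x ∈ X, IsFn (ap E x) J ∧ ∀ k ∈ J, ap (ap E x) k = ap k x) → p ∈ P →
      (∀ x ∈ X, p ≠ ap E x) → ∃ O ∈ TP, p ∈ O ∧ ∀ x ∈ X, ap E x ∉ O) :
    IsRealcompact X T R S := by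
  obtain ⟨J, hJ⟩ := exists_cx X T R lt
  -- the power
  have hP : IsPower (sb (fun g => IsFn g J ∧ ∀ x ∈ J, ap g x ∈ R) (pow (prod J R))) J R := by
    intro g
    rw [mem_sb, isFun_iff]
    refine ⟨fun h => h.2, fun h => ⟨mem_pow.2 fun w hw => ?_, h⟩⟩
    obtain ⟨x, hx, y, rfl⟩ := h.1.1 w hw
    rw [opair_mem_prod]
    refine ⟨hx, ?_⟩
    rw [← h.1.ap_eq hw]
    exact h.2 x hx
  generalize sb (fun g => IsFn g J ∧ ∀ x ∈ J, ap g x ∈ R) (pow (prod J R)) = P at hP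
  obtain ⟨TP, hTP⟩ := exists_coarsest P (fun U => ∃ j ∈ J, ∃ W ∈ S,
    ∀ g, g ∈ U ↔ g ∈ P ∧ ∃ y ∈ W, OMem j y g) (by
      rintro U ⟨j, _, W, _, hU⟩ g hg
      exact ((hU g).1 hg).1)
  have hTP' : Top P TP := top_of hTP.1
  -- the evaluation map
  have hE1 : IsFn (lm X fun x => lm J fun k => ap k x) X := isFn_lm
  have hE2 : ∀ x ∈ X, ap (lm X fun x => lm J fun k => ap k x) x = lm J fun k => ap k x :=
    fun x hx => ap_lm (F := fun x => lm J fun k => ap k x) hx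
  have hE3 : ∀ x ∈ X, IsFn (ap (lm X fun x => lm J fun k => ap k x) x) J ∧
      ∀ k ∈ J, ap (ap (lm X fun x => lm J fun k => ap k x) x) k = ap k x := by
    intro x hx
    rw [hE2 x hx]
    exact ⟨isFn_lm (F := fun k => ap k x), fun k hk => ap_lm (F := fun k => ap k x) hk⟩
  generalize (lm X fun x => lm J fun k => ap k x) = E at hE1 hE2 hE3
  have hEP : ∀ x ∈ X, ap E x ∈ P := by
    intro x hx
    rw [hP, isFun_iff]
    refine ⟨(hE3 x hx).1, fun k hk => ?_⟩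
    rw [(hE3 x hx).2 k hk]
    exact ((hJ k).1 hk).mem x hx
  have hclose := fun p => h J P TP E p hJ hP hTP hE1 hE3
  have hC : ∀ y, y ∈ rp (fun x => ap E x) X ↔ ∃ x ∈ X, y = ap E x :=
    fun y => mem_rp (F := fun x => ap E x)
  generalize rp (fun x => ap E x) X = C at hC
  have hCP : Sub C P := by
    intro y hy
    obtain ⟨x, hx, rfl⟩ := (hC y).1 hy
    exact hEP x hx
  have hCcl : Cl P TP C := by
    refine ⟨hCP, hTP'.of_nhds (fun y hy => (mem_diff.1 hy).1) fun y hy => ?_⟩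
    obtain ⟨hyP, hyC⟩ := mem_diff.1 hy
    obtain ⟨O, hO, hyO, hO'⟩ := hclose y hyP (fun x hx e => hyC ((hC y).2 ⟨x, hx, e⟩))
    refine ⟨O, hO, hyO, fun w hw => mem_diff.2 ⟨hTP'.sub O hO w hw, fun hwC => ?_⟩⟩
    obtain ⟨x, hx, rfl⟩ := (hC w).1 hwC
    exact hO' x hx hw
  have hTC : ∀ U, U ∈ rp (fun O => inter O C) TP ↔ ∃ O ∈ TP, U = inter O C :=
    fun U => mem_rp (F := fun O => inter O C)
  -- injectivity
  have hinj : ∀ x ∈ X, ∀ x' ∈ X, ap E x = ap E x' → x = x' := by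
    intro x hx x' hx' e
    by_contra hne
    obtain ⟨f, hf, h2, h3⟩ := emb_cr hT hR hS hcr (h1 x' hx')
      (mem_diff.2 ⟨hx, fun h => hne (mem_sing.1 h)⟩)
    have hfJ := (hJ f).2 hf
    have h4 : ap f x = ap f x' := by
      rw [← (hE3 x hx).2 f hfJ, ← (hE3 x' hx').2 f hfJ, e]
    rw [h2, h3 x' hx' (fun h => (mem_diff.1 h).2 (mem_sing.2 rfl))] at h4
    rw [h4] at hzo
    exact hR.irr _ ho hzo
  have hEC : IsFun E X C := isFun_iff.2 ⟨hE1, fun x hx => (hC _).2 ⟨x, hx, rfl⟩⟩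
  refine ⟨J, P, TP, C, rp (fun O => inter O C) TP, E, hP, hTP, (isClosedIn_iff hTP').2 hCcl, ?_,
    ⟨hEC, ?_⟩, ⟨hEC, ?_⟩, ?_⟩
  · intro U
    rw [hTC]
    constructor
    · rintro ⟨O, hO, rfl⟩
      exact ⟨O, hO, fun z => mem_inter⟩
    · rintro ⟨O, hO, hU⟩
      exact ⟨O, hO, ext fun z => by rw [hU, mem_inter]⟩
  · intro y hy
    obtain ⟨x, hx, rfl⟩ := (hC y).1 hy
    refine ⟨x, oMem_iff.2 (hE1.ap_mem hx), fun x' hx' => ?_⟩
    have := hE1.mem_iff.1 (oMem_iff.1 hx')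
    exact hinj x' this.1 x hx this.2
  · -- continuity
    have hpull := hTP.2.2 _ (isTopology_of (bri_pull hT hEP)) (by
      rintro U ⟨j, hj, W, hW, hU⟩
      refine mem_sb.2 ⟨mem_pow.2 fun g hg => ((hU g).1 hg).1, ?_⟩
      obtain ⟨W', hW', hW''⟩ := ((continuous_iff hT hR hS).2 ((hJ j).1 hj)).2 W hW
      have : sb (fun x => ap E x ∈ U) X = W' := ext fun x => by
        rw [mem_sb, hW'', hU]
        constructor
        · rintro ⟨hx, _, y, hy, h⟩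
          refine ⟨hx, y, hy, ?_⟩
          rw [oMem_iff] at h ⊢
          rw [((hE3 x hx).1).mem_iff] at h
          rw [((hJ j).1 hj).fn.mem_iff]
          refine ⟨hx, ?_⟩
          rw [← (hE3 x hx).2 j hj]; exact h.2
        · rintro ⟨hx, y, hy, h⟩
          refine ⟨hx, hEP x hx, y, hy, ?_⟩
          rw [oMem_iff] at h ⊢
          rw [((hE3 x hx).1).mem_iff]
          rw [((hJ j).1 hj).fn.mem_iff] at h
          refine ⟨hj, ?_⟩
          rw [(hE3 x hx).2 j hj]; exact h.2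
      rw [this]; exact hW')
    intro U hU
    obtain ⟨O, hO, rfl⟩ := (hTC U).1 hU
    refine ⟨_, (mem_sb.1 (hpull O hO)).2, fun x => ?_⟩
    rw [mem_sb]
    constructor
    · rintro ⟨hx, h⟩
      exact ⟨hx, _, mem_inter.2 ⟨h, (hC _).2 ⟨x, hx, rfl⟩⟩, oMem_iff.2 (hE1.ap_mem hx)⟩
    · rintro ⟨hx, y, hy, h⟩
      refine ⟨hx, ?_⟩
      rw [hE1.ap_eq (oMem_iff.1 h)]
      exact (mem_inter.1 hy).1
  · -- open map
    intro U hU
    have hO : sUn (sb (fun O => ∀ x ∈ X, ap E x ∈ O → x ∈ U) TP) ∈ TP :=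
      hTP'.sUn _ fun O hO => (mem_sb.1 hO).1
    refine ⟨_, (hTC _).2 ⟨_, hO, rfl⟩, fun y => ?_⟩
    rw [mem_inter, mem_sUn, hC]
    constructor
    · rintro ⟨⟨O, hO, hyO⟩, x, hx, rfl⟩
      exact ⟨x, (mem_sb.1 hO).2 x hx hyO, oMem_iff.2 (hE1.ap_mem hx)⟩
    · rintro ⟨x, hxU, h⟩
      have hx := hT.sub U hU x hxU
      have hy := hE1.ap_eq (oMem_iff.1 h)
      subst hy
      refine ⟨?_, x, hx, rfl⟩
      obtain ⟨f, hf, h2, h3⟩ := emb_cr hT hR hS hcr hU hxU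
      have hfJ := (hJ f).2 hf
      refine ⟨_, mem_sb.2 ⟨emb_sub (R := R) (lt := lt) (Q := Q) (io := io) hP hTP
        (emb_ray_lt hR hS ho) hfJ, fun x' hx' hx'O => ?_⟩, ?_⟩
      · by_contra hx'U
        have h4 := (mem_sb.1 (mem_sb.1 hx'O).2).2
        rw [(hE3 x' hx').2 f hfJ, h3 x' hx' hx'U] at h4
        exact hR.irr _ ho h4
      · refine mem_sb.2 ⟨hEP x hx, ?_⟩
        rw [(hE3 x hx).2 f hfJ, h2]
        exact mem_sb.2 ⟨hz, hzo⟩

/-- EMB3: completely regular `T_1` spaces are Hausdorff -/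
theorem haus_of {X T R lt Q io S z o : V} (hT : Top X T) (h1 : T1 X T) (hR : Line R lt Q io)
    (hS : IsOrderTopology R lt S) (hz : z ∈ R) (ho : o ∈ R) (hzo : Lt lt z o)
    (hcr : IsCompletelyRegular X T R lt S z o) : Haus X T := by
  intro x hx y hy hxy
  obtain ⟨f, hf, h2, h3⟩ := emb_cr hT hR hS hcr (h1 y hy)
    (mem_diff.2 ⟨hx, fun h => hxy (mem_sing.1 h)⟩)
  have h4 := h3 y hy (fun h => (mem_diff.1 h).2 (mem_sing.2 rfl))
  obtain ⟨q, hq, h5, h6⟩ := hR.dense z hz o ho hzo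
  have hqR := hR.sub q hq
  refine ⟨_, hf.below q hqR, _, hf.above q hqR, mem_sb.2 ⟨hx, h2 ▸ h5⟩,
    mem_sb.2 ⟨hy, h4 ▸ h6⟩, fun w hw hw' => ?_⟩
  obtain ⟨hwX, hw⟩ := mem_sb.1 hw
  have hw' := (mem_sb.1 hw').2
  exact hR.irr _ hqR (hR.trans _ hqR _ (hf.mem w hwX) _ hqR hw' hw)

end

end Pool.Agent.ZT
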