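import Pool.Agent.Lib_helper91.ZT.BS
import Pool.Agent.Lib_helper91.ZT.TolB

/-!
# Block FIN
-/

set_option linter.unusedSectionVars false
set_option linter.unusedVariables false

universe u

namespace Pool.Agent.ZT

open FirstOrder Language Pool.Agent.ZF1

section
variable {V : Type u} [Lset.Structure V] [IsZF V]

/-! ## Block FIN: the final function -/

/-- the members which are active at `t` -/
noncomputable def FINac (lt Q io Cs j t0 t : V) : V :=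
  sb (fun C => Lt lt t0 t ∧ ∀ s ∈ Q, ap io s ∈ ap j C → Lt lt s t) Cs

instance {lt Q io Cs j t0 : V} {t : (ℕ → V) → V} [ht : DF t] :
    DF (fun v => FINac lt Q io Cs j t0 (t v)) :=
  DF.comp1 (F := FINac lt Q io Cs j t0) (by unfold FINac; infer_instance) ht

theorem FIN_mem_ac {lt Q io Cs j t0 t C : V} : C ∈ FINac lt Q io Cs j t0 t ↔
    C ∈ Cs ∧ Lt lt t0 t ∧ ∀ s ∈ Q, ap io s ∈ ap j C → Lt lt s t := by
  unfold FINac; rw [mem_sb]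

/-- the union of the active sets -/
noncomputable def FINz (lt Q io Cs j t0 W t : V) : V :=
  bu (FINac lt Q io Cs j t0 t) (fun C => ap W (opair C t))

instance {lt Q io Cs j t0 W : V} {t : (ℕ → V) → V} [ht : DF t] :
    DF (fun v => FINz lt Q io Cs j t0 W (t v)) :=
  DF.comp1 (F := FINz lt Q io Cs j t0 W) (by
    unfold FINz
    exact DF.bu (F := fun C v => ap W (opair C (v 0))) (a := fun v => FINac lt Q io Cs j t0 (v 0))) ht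

theorem FIN_mem_z {lt Q io Cs j t0 W t x : V} : x ∈ FINz lt Q io Cs j t0 W t ↔
    ∃ C ∈ FINac lt Q io Cs j t0 t, x ∈ ap W (opair C t) := by
  unfold FINz
  exact mem_bu (F := fun C => ap W (opair C t))

section
variable {X T N R lt Q io Cs j W t0 : V} (hT : Top X T) (hN : Idl X N)
    (hR : Line R lt Q io) (hj : Cnt Cs j) (hc : ∀ x ∈ X, ∃ C ∈ Cs, x ∈ C)
    (hW : ∀ C ∈ Cs, ∀ t ∈ Q, ap W (opair C t) ∈ T ∧ ap W (opair C t) ∈ N ∧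
      Sub C (ap W (opair C t)))
    (hW' : ∀ C ∈ Cs, ∀ t ∈ Q, ∀ t' ∈ Q, Lt lt t t' →
      Way X T (ap W (opair C t)) (ap W (opair C t')))
    (ht0 : t0 ∈ R)
include hT hN hR hj hW hW' ht0

omit hT hN hW hW' ht0 in
theorem FIN_kfin {t : V} (ht : t ∈ Q) : Kfin (FINac lt Q io Cs j t0 t) := by
  refine kfin_sub (kfin_below hj (succ_mem_omega (hR.cnt.1 t ht))) _ fun C hC => ?_
  obtain ⟨hC, h1, h2⟩ := FIN_mem_ac.1 hC
  refine mem_sb.2 ⟨hC, mem_succ.2 ?_⟩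
  rcases nat_tri (hR.cnt.1 t ht) (ap j C) (hj.1 C hC) with h | h | h
  · exact Or.inl h
  · exact Or.inr h
  · exact absurd (h2 t ht h) (hR.irr t (hR.sub t ht))

omit hT hN hj hW hW' in
theorem FIN_ac_mono {t t' : V} (ht : t ∈ Q) (ht' : t' ∈ Q) (htt : Lt lt t t') :
    Sub (FINac lt Q io Cs j t0 t) (FINac lt Q io Cs j t0 t') := by
  intro C hC
  obtain ⟨hC, h1, h2⟩ := FIN_mem_ac.1 hC
  exact FIN_mem_ac.2 ⟨hC, hR.trans _ ht0 _ (hR.sub _ ht) _ (hR.sub _ ht') h1 htt,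
    fun s hs hsC => hR.trans _ (hR.sub _ hs) _ (hR.sub _ ht) _ (hR.sub _ ht') (h2 s hs hsC) htt⟩

omit hN hj ht0 in
theorem FIN_W_mono {C t t' : V} (hC : C ∈ Cs) (ht : t ∈ Q) (ht' : t' ∈ Q) (htt : Lt lt t t') :
    Sub (ap W (opair C t)) (ap W (opair C t')) := by
  intro x hx
  by_contra hx'
  obtain ⟨U, _, hxU, hUA⟩ := hW' C hC t ht t' ht' htt x (hT.sub _ (hW C hC t ht).1 x hx) hx'
  exact hUA x hxU hx

theorem FIN_z_mono {t t' : V} (ht : t ∈ Q) (ht' : t' ∈ Q) (htt : Lt lt t t') :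
    Sub (FINz lt Q io Cs j t0 W t) (FINz lt Q io Cs j t0 W t') := by
  intro x hx
  obtain ⟨C, hC, hx⟩ := FIN_mem_z.1 hx
  exact FIN_mem_z.2 ⟨C, FIN_ac_mono hR ht0 ht ht' htt C hC,
    FIN_W_mono hT hR hW hW' (FIN_mem_ac.1 hC).1 ht ht' htt x hx⟩

theorem FIN_z_open {t : V} (ht : t ∈ Q) : FINz lt Q io Cs j t0 W t ∈ T := by
  refine hT.of_nhds ?_ ?_
  · intro x hx
    obtain ⟨C, hC, hx⟩ := FIN_mem_z.1 hx
    exact hT.sub _ (hW C (FIN_mem_ac.1 hC).1 t ht).1 x hx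
  · intro x hx
    obtain ⟨C, hC, hx⟩ := FIN_mem_z.1 hx
    exact ⟨_, (hW C (FIN_mem_ac.1 hC).1 t ht).1, hx, fun y hy => FIN_mem_z.2 ⟨C, hC, hy⟩⟩

theorem FIN_z_N {t : V} (ht : t ∈ Q) : FINz lt Q io Cs j t0 W t ∈ N := by
  unfold FINz
  refine kfin_bu (FIN_kfin hR hj ht) (fun C => ap W (opair C t)) (fun A => A ∈ N)
    hN.emp (fun A B hA hB => hN.un A hA B hB) fun C hC => ?_
  exact (hW C (FIN_mem_ac.1 hC).1 t ht).2.1

theorem FIN_z_way {t t' : V} (ht : t ∈ Q) (ht' : t' ∈ Q) (htt : Lt lt t t') :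
    Way X T (FINz lt Q io Cs j t0 W t) (FINz lt Q io Cs j t0 W t') := by
  have h1 : Way X T (bu (FINac lt Q io Cs j t0 t) (fun C => ap W (opair C t)))
      (bu (FINac lt Q io Cs j t0 t) (fun C => ap W (opair C t'))) :=
    Way.bu hT (FIN_kfin hR hj ht) (fun C => ap W (opair C t)) (fun C => ap W (opair C t'))
      fun C hC => hW' C (FIN_mem_ac.1 hC).1 t ht t' ht' htt
  intro x hxX hx
  refine h1 x hxX fun hx' => hx ?_
  obtain ⟨C, hC, hx'⟩ := (mem_bu (F := fun C => ap W (opair C t'))).1 hx'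
  exact FIN_mem_z.2 ⟨C, FIN_ac_mono hR ht0 ht ht' htt C hC, hx'⟩

/-- large elements of the dense set -/
theorem FIN_large {r : V} (hr : r ∈ R) : ∃ t ∈ Q, Lt lt r t := by
  obtain ⟨y, hy, hry⟩ := hR.top r hr
  obtain ⟨t, ht, h1, _⟩ := hR.dense r hr y hy hry
  exact ⟨t, ht, h1⟩

include hc in
theorem FIN_z_cover {x : V} (hx : x ∈ X) : ∃ t ∈ Q, x ∈ FINz lt Q io Cs j t0 W t := by
  obtain ⟨C, hC, hxC⟩ := hc x hx
  have hK : Kfin (sb (fun s => ap io s ∈ ap j C) Q) := kfin_below hR.cnt (hj.1 C hC)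
  have h1 : ∃ m ∈ R, Le lt t0 m ∧ ∀ s ∈ Q, ap io s ∈ ap j C → Le lt s m := by
    by_cases hne : ∃ s, s ∈ sb (fun s => ap io s ∈ ap j C) Q
    · obtain ⟨⟨m, hm, hmax⟩, _⟩ := kfin_max_min hR hK
        (fun s hs => hR.sub s (mem_sb.1 hs).1) hne
      have hmR : m ∈ R := hR.sub m (mem_sb.1 hm).1
      rcases hR.tri t0 ht0 m hmR with h | h | h
      · exact ⟨m, hmR, Or.inl h, fun s hs hsC => hmax s (mem_sb.2 ⟨hs, hsC⟩)⟩
      · exact ⟨m, hmR, Or.inr h, fun s hs hsC => hmax s (mem_sb.2 ⟨hs, hsC⟩)⟩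
      · exact ⟨t0, ht0, Or.inr rfl, fun s hs hsC => hR.le_trans (hR.sub s hs) hmR ht0
          (hmax s (mem_sb.2 ⟨hs, hsC⟩)) (Or.inl h)⟩
    · exact ⟨t0, ht0, Or.inr rfl, fun s hs hsC => absurd ⟨s, mem_sb.2 ⟨hs, hsC⟩⟩ hne⟩
  obtain ⟨m, hm, h2, h3⟩ := h1
  obtain ⟨t, ht, hmt⟩ := FIN_large hT hN hR hj hW hW' ht0 hm
  refine ⟨t, ht, FIN_mem_z.2 ⟨C, FIN_mem_ac.2 ⟨hC, ?_, fun s hs hsC => ?_⟩, (hW C hC t ht).2.2 x hxC⟩⟩
  · exact hR.lt_of_le_of_lt ht0 hm (hR.sub t ht) h2 hmt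
  · exact hR.lt_of_le_of_lt (hR.sub s hs) hm (hR.sub t ht) (h3 s hs hsC) hmt

include hc in
theorem FIN_exists_G : ∃ G, IsFn G X ∧ ∀ x ∈ X, ap G x ∈ R ∧
    ∀ r ∈ R, (Lt lt (ap G x) r ↔ ∃ t ∈ Q, Lt lt t r ∧ x ∈ FINz lt Q io Cs j t0 W t) := by
  refine exists_fn X (fun x y => y ∈ R ∧
    ∀ r ∈ R, (Lt lt y r ↔ ∃ t ∈ Q, Lt lt t r ∧ x ∈ FINz lt Q io Cs j t0 W t)) fun x hx => ?_
  obtain ⟨t1, ht1, hxt1⟩ := FIN_z_cover hT hN hR hj hc hW hW' ht0 hx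
  obtain ⟨y, hy, hub, hlub⟩ := hR.sup
    (sb (fun r => ∀ t ∈ Q, x ∈ FINz lt Q io Cs j t0 W t → Le lt r t) R)
    (fun r hr => (mem_sb.1 hr).1) ⟨t0, mem_sb.2 ⟨ht0, fun t ht hxt => by
      obtain ⟨C, hC, _⟩ := FIN_mem_z.1 hxt
      exact Or.inl (FIN_mem_ac.1 hC).2.1⟩⟩
    ⟨t1, hR.sub _ ht1, fun r hr => (mem_sb.1 hr).2 t1 ht1 hxt1⟩
  refine ⟨y, ⟨hy, fun r hr => ⟨fun hyr => ?_, ?_⟩⟩, ?_⟩
  · obtain ⟨r', hr', h1, h2⟩ := hR.dense y hy r hr hyr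
    by_contra hcon
    push Not at hcon
    have h3 : r' ∈ sb (fun r => ∀ t ∈ Q, x ∈ FINz lt Q io Cs j t0 W t → Le lt r t) R := by
      refine mem_sb.2 ⟨hR.sub _ hr', fun t ht hxt => ?_⟩
      rw [← hR.not_lt (hR.sub _ ht) (hR.sub _ hr')]
      intro h4
      exact hcon t ht (hR.trans _ (hR.sub _ ht) _ (hR.sub _ hr') _ hr h4 h2) hxt
    exact (hR.not_lt hy (hR.sub _ hr')).2 (hub r' h3) h1
  · rintro ⟨t, ht, htr, hxt⟩
    exact hR.lt_of_le_of_lt hy (hR.sub _ ht) hr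
      (hlub t (hR.sub _ ht) fun r hr => (mem_sb.1 hr).2 t ht hxt) htr
  · rintro y' ⟨hy', h'⟩
    have h : ∀ r ∈ R, (Lt lt y r ↔ ∃ t ∈ Q, Lt lt t r ∧ x ∈ FINz lt Q io Cs j t0 W t) := by
      intro r hr
      constructor
      · intro hyr
        obtain ⟨r', hr', h1, h2⟩ := hR.dense y hy r hr hyr
        by_contra hcon
        push Not at hcon
        have h3 : r' ∈ sb (fun r => ∀ t ∈ Q, x ∈ FINz lt Q io Cs j t0 W t → Le lt r t) R := by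
          refine mem_sb.2 ⟨hR.sub _ hr', fun t ht hxt => ?_⟩
          rw [← hR.not_lt (hR.sub _ ht) (hR.sub _ hr')]
          intro h4
          exact hcon t ht (hR.trans _ (hR.sub _ ht) _ (hR.sub _ hr') _ hr h4 h2) hxt
        exact (hR.not_lt hy (hR.sub _ hr')).2 (hub r' h3) h1
      · rintro ⟨t, ht, htr, hxt⟩
        exact hR.lt_of_le_of_lt hy (hR.sub _ ht) hr
          (hlub t (hR.sub _ ht) fun r hr => (mem_sb.1 hr).2 t ht hxt) htr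
    rcases hR.tri y' hy' y hy with h1 | h1 | h1
    · exact absurd ((h y hy).2 ((h' y hy).1 h1)) (hR.irr y hy)
    · exact h1
    · exact absurd ((h' y' hy').2 ((h y' hy').1 h1)) (hR.irr y' hy')

end

/-- FIN -/
theorem final_function {X T N R lt Q io Cs j W : V} (hT : Top X T) (hN : Idl X N)
    (hR : Line R lt Q io) (hj : Cnt Cs j) (hc : ∀ x ∈ X, ∃ C ∈ Cs, x ∈ C)
    (hW : ∀ C ∈ Cs, ∀ t ∈ Q, ap W (opair C t) ∈ T ∧ ap W (opair C t) ∈ N ∧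
      Sub C (ap W (opair C t)))
    (hW' : ∀ C ∈ Cs, ∀ t ∈ Q, ∀ t' ∈ Q, Lt lt t t' →
      Way X T (ap W (opair C t)) (ap W (opair C t'))) :
    ∃ G, Cts X T R lt G ∧ ∀ r ∈ R, sb (fun y => Lt lt (ap G y) r) X ∈ N := by
  obtain ⟨t0, ht0⟩ := hR.ne
  obtain ⟨G, hG, hGR⟩ := FIN_exists_G hT hN hR hj hc hW hW' ht0
  refine ⟨G, ⟨hG, fun x hx => (hGR x hx).1, fun r hr => ?_, fun r hr => ?_⟩, fun r hr => ?_⟩
  · refine hT.of_nhds (fun x hx => (mem_sb.1 hx).1) fun x hx => ?_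
    obtain ⟨hxX, hx⟩ := mem_sb.1 hx
    obtain ⟨t, ht, htr, hxt⟩ := ((hGR x hxX).2 r hr).1 hx
    have ho := FIN_z_open hT hN hR hj hW hW' ht0 ht
    refine ⟨_, ho, hxt, fun y hy => ?_⟩
    have hyX := hT.sub _ ho y hy
    exact mem_sb.2 ⟨hyX, ((hGR y hyX).2 r hr).2 ⟨t, ht, htr, hy⟩⟩
  · refine hT.of_nhds (fun x hx => (mem_sb.1 hx).1) fun x hx => ?_
    obtain ⟨hxX, hx⟩ := mem_sb.1 hx
    have hGx := (hGR x hxX).1
    obtain ⟨s', hs', h1, h2⟩ := hR.dense _ hr _ hGx hx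
    obtain ⟨s, hs, h3, h4⟩ := hR.dense _ hr _ (hR.sub _ hs') h1
    have hxs : x ∉ FINz lt Q io Cs j t0 W s' := fun hxs =>
      hR.irr _ hGx (((hGR x hxX).2 _ hGx).2 ⟨s', hs', h2, hxs⟩)
    obtain ⟨U, hU, hxU, hUz⟩ := FIN_z_way hT hN hR hj hW hW' ht0 hs hs' h4 x hxX hxs
    refine ⟨U, hU, hxU, fun y hy => ?_⟩
    have hyX := hT.sub _ hU y hy
    refine mem_sb.2 ⟨hyX, ?_⟩
    rw [← hR.not_le (hGR y hyX).1 hr]
    intro h5
    have h6 : Lt lt (ap G y) s := hR.lt_of_le_of_lt (hGR y hyX).1 hr (hR.sub _ hs) h5 h3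
    obtain ⟨t, ht, hts, hyt⟩ := ((hGR y hyX).2 s (hR.sub _ hs)).1 h6
    exact hUz y hy (FIN_z_mono hT hN hR hj hW hW' ht0 ht hs hts y hyt)
  · obtain ⟨t, ht, hrt⟩ := FIN_large hT hN hR hj hW hW' ht0 hr
    refine hN.mono _ (FIN_z_N hT hN hR hj hW hW' ht0 ht) _ fun y hy => ?_
    obtain ⟨hyX, hy⟩ := mem_sb.1 hy
    obtain ⟨t', ht', htr, hyt⟩ := ((hGR y hyX).2 r hr).1 hy
    exact FIN_z_mono hT hN hR hj hW hW' ht0 ht' ht
      (hR.trans _ (hR.sub _ ht') _ hr _ (hR.sub _ ht) htr hrt) y hyt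

end

end Pool.Agent.ZT
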