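import Pool.Agent.Lib_helper91.ZT.ReaA
import Pool.Agent.Lib_helper91.ZT.Bri

/-!
# Block REA2
-/

set_option linter.unusedSectionVars false
set_option linter.unusedVariables false

universe u

namespace Pool.Agent.ZT

open FirstOrder Language Pool.Agent.ZF1

section
variable {V : Type u} [Lset.Structure V] [IsZF V]

/-! ## Block REA2 -/

/-- Dedekind cuts -/
def ReaCut (D le A : V) : Prop := Sub A D ∧ (∃ x, x ∈ A) ∧ (∃ x ∈ D, x ∉ A) ∧
  (∀ x ∈ A, ∀ y ∈ D, Lt le y x → y ∈ A) ∧ ∀ x ∈ A, ∃ y ∈ A, Lt le x y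

instance {t s r : (ℕ → V) → V} [ht : DF t] [hs : DF s] [hr : DF r] :
    DP (fun v => ReaCut (t v) (s v) (r v)) :=
  DP.comp3 (by unfold ReaCut; infer_instance) ht hs hr

/-- the set of all cuts -/
noncomputable def reaR (D le : V) : V := sb (fun A => ReaCut D le A) (pow D)

theorem mem_reaR {D le A : V} : A ∈ reaR D le ↔ ReaCut D le A := by
  unfold reaR
  rw [mem_sb (Q := fun A => ReaCut D le A), ZF1.mem_pow]
  exact ⟨fun h => h.2, fun h => ⟨h.1, h⟩⟩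

/-- the order of the cuts -/
noncomputable def reaLt (D le : V) : V := sb (fun p => ∃ A ∈ reaR D le, ∃ B ∈ reaR D le,
  p = opair A B ∧ Sub A B ∧ A ≠ B) (prod (reaR D le) (reaR D le))

theorem reaLt_iff {D le A B : V} : OMem A B (reaLt D le) ↔
    A ∈ reaR D le ∧ B ∈ reaR D le ∧ Sub A B ∧ A ≠ B := by
  rw [oMem_iff]
  unfold reaLt
  rw [mem_sb (Q := fun p => ∃ A ∈ reaR D le, ∃ B ∈ reaR D le,
    p = opair A B ∧ Sub A B ∧ A ≠ B)]
  constructor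
  · rintro ⟨_, x', hx', y', hy', e, h⟩
    obtain ⟨rfl, rfl⟩ := opair_inj.1 e
    exact ⟨hx', hy', h⟩
  · rintro ⟨hx, hy, h⟩
    exact ⟨opair_mem_prod.2 ⟨hx, hy⟩, A, hx, B, hy, rfl, h⟩

/-- the cut of the elements below `q` -/
noncomputable def reaP (D le q : V) : V := sb (fun x => Lt le x q) D

instance {t s r : (ℕ → V) → V} [ht : DF t] [hs : DF s] [hr : DF r] :
    DF (fun v => reaP (t v) (s v) (r v)) :=
  DF.comp3 (by unfold reaP; infer_instance) ht hs hr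

theorem mem_reaP {D le q x : V} : x ∈ reaP D le q ↔ x ∈ D ∧ Lt le x q := by
  unfold reaP
  rw [mem_sb (Q := fun x => Lt le x q)]

/-- REA2 -/
theorem exists_realLine : ∃ R lt : V, IsRealLine R lt := by
  obtain ⟨D, le, j, hj, ⟨d0, hd0⟩, hirr, htr, htri, hend, hden⟩ :=
    exists_dense_order (V := V)
  have hcutP : ∀ q ∈ D, reaP D le q ∈ reaR D le := by
    intro q hq
    refine mem_reaR.2 ⟨fun x hx => (mem_reaP.1 hx).1, ?_, ⟨q, hq, ?_⟩, ?_, ?_⟩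
    · obtain ⟨y, hy, hyq⟩ := (hend q hq).1
      exact ⟨y, mem_reaP.2 ⟨hy, hyq⟩⟩
    · exact fun h => hirr q hq (mem_reaP.1 h).2
    · intro x hx y hy hyx
      obtain ⟨h1, h2⟩ := mem_reaP.1 hx
      exact mem_reaP.2 ⟨hy, htr y hy x h1 q hq hyx h2⟩
    · intro x hx
      obtain ⟨h1, h2⟩ := mem_reaP.1 hx
      obtain ⟨z, hz, h3, h4⟩ := hden x h1 q hq h2
      exact ⟨z, mem_reaP.2 ⟨hz, h4⟩, h3⟩
  have hinjP : ∀ q ∈ D, ∀ q' ∈ D, reaP D le q = reaP D le q' → q = q' := by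
    intro q hq q' hq' e
    rcases htri q hq q' hq' with h | h | h
    · exact absurd (mem_reaP.1 (e ▸ mem_reaP.2 ⟨hq, h⟩ : q ∈ reaP D le q)).2 (hirr q hq)
    · exact h
    · exact absurd (mem_reaP.1 (e ▸ mem_reaP.2 ⟨hq', h⟩ : q' ∈ reaP D le q')).2 (hirr q' hq')
  -- a cut lies below an element outside of it
  have hout : ∀ A ∈ reaR D le, ∀ q ∈ D, q ∉ A → ∀ x ∈ A, Lt le x q := by
    intro A hA q hq hqA x hx
    have hc := mem_reaR.1 hA
    rcases htri x (hc.1 x hx) q hq with h | h | h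
    · exact h
    · exact absurd (h ▸ hx) hqA
    · exact absurd (hc.2.2.2.1 x hx q hq h) hqA
  have hcomp : ∀ A ∈ reaR D le, ∀ B ∈ reaR D le, (∃ q ∈ B, q ∉ A) → Sub A B := by
    rintro A hA B hB ⟨q, hqB, hqA⟩ x hx
    have hq := (mem_reaR.1 hB).1 q hqB
    exact (mem_reaR.1 hB).2.2.2.1 q hqB x ((mem_reaR.1 hA).1 x hx) (hout A hA q hq hqA x hx)
  have hlt : ∀ A ∈ reaR D le, ∀ B ∈ reaR D le, (∃ q ∈ B, q ∉ A) →
      OMem A B (reaLt D le) := by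
    rintro A hA B hB ⟨q, hqB, hqA⟩
    refine reaLt_iff.2 ⟨hA, hB, hcomp A hA B hB ⟨q, hqB, hqA⟩, ?_⟩
    rintro rfl
    exact hqA hqB
  have hlt' : ∀ A B, OMem A B (reaLt D le) → ∃ q ∈ B, q ∉ A := by
    intro A B h
    obtain ⟨_, _, h1, h2⟩ := reaLt_iff.1 h
    by_contra hcon
    push Not at hcon
    exact h2 (sub_antisymm h1 hcon)
  have hDcount : ∃ Q, Sub Q (reaR D le) ∧ IsCountable Q ∧
      ∀ x ∈ reaR D le, ∀ y ∈ reaR D le, OMem x y (reaLt D le) →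
        ∃ q ∈ Q, OMem x q (reaLt D le) ∧ OMem q y (reaLt D le) := by
    have hQ : ∀ A, A ∈ rp (fun q => reaP D le q) D ↔ ∃ q ∈ D, A = reaP D le q := fun A =>
      mem_rp (F := fun q => reaP D le q)
    refine ⟨rp (fun q => reaP D le q) D, ?_, ?_, ?_⟩
    · intro A hA
      obtain ⟨q, hq, rfl⟩ := (hQ A).1 hA
      exact hcutP q hq
    · have hval : ∀ A ∈ rp (fun q => reaP D le q) D,
          ∃! y, ∃ q ∈ D, A = reaP D le q ∧ y = ap j q := by
        intro A hA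
        obtain ⟨q, hq, hAq⟩ := (hQ A).1 hA
        refine ⟨ap j q, ⟨q, hq, hAq, rfl⟩, ?_⟩
        rintro y ⟨q', hq', hAq', rfl⟩
        rw [hinjP q' hq' q hq (hAq'.symm.trans hAq)]
      obtain ⟨f, hf, hf'⟩ := exists_fn (rp (fun q => reaP D le q) D)
        (fun A y => ∃ q ∈ D, A = reaP D le q ∧ y = ap j q) hval
      refine ⟨omega, f, fun n => mem_omega, ⟨?_, ?_⟩, ?_⟩
      · intro p hp
        obtain ⟨A, hA, y, rfl⟩ := hf.1 p hp
        obtain ⟨q, hq, hAq, hy⟩ := hf' A hA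
        rw [hf.ap_eq hp] at hy
        refine ⟨A, hA, y, ?_, isOpair_iff.2 rfl⟩
        rw [hy]
        exact hj.1 q hq
      · intro A hA
        refine ⟨ap f A, oMem_iff.2 (hf.ap_mem hA), fun y hy => ?_⟩
        exact (hf.ap_eq (oMem_iff.1 hy)).symm
      · intro A A' y h h'
        rw [oMem_iff] at h h'
        have hA := (hf.mem_iff.1 h).1
        have hA' := (hf.mem_iff.1 h').1
        obtain ⟨q, hq, hAq, hy⟩ := hf' A hA
        obtain ⟨q', hq', hAq', hy'⟩ := hf' A' hA'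
        rw [hf.ap_eq h] at hy
        rw [hf.ap_eq h'] at hy'
        have e := hj.2 q hq q' hq' (hy.symm.trans hy')
        rw [hAq, hAq', e]
    · intro A hA B hB hAB
      obtain ⟨q, hqB, hqA⟩ := hlt' A B hAB
      obtain ⟨q', hq'B, hqq'⟩ := (mem_reaR.1 hB).2.2.2.2 q hqB
      have hq := (mem_reaR.1 hB).1 q hqB
      have hq' := (mem_reaR.1 hB).1 q' hq'B
      refine ⟨reaP D le q', (hQ _).2 ⟨q', hq', rfl⟩, ?_, ?_⟩
      · exact hlt A hA _ (hcutP q' hq') ⟨q, mem_reaP.2 ⟨hq, hqq'⟩, hqA⟩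
      · exact hlt _ (hcutP q' hq') B hB ⟨q', hq'B, fun h => hirr q' hq' (mem_reaP.1 h).2⟩
  refine ⟨reaR D le, reaLt D le, ⟨_, hcutP d0 hd0⟩, ?_, ?_, ?_, ?_, hDcount, ?_⟩
  · intro A _ h
    exact (reaLt_iff.1 h).2.2.2 rfl
  · intro A hA B hB C hC h1 h2
    obtain ⟨q, hq, hqA⟩ := hlt' A B h1
    exact hlt A hA C hC ⟨q, (reaLt_iff.1 h2).2.2.1 q hq, hqA⟩
  · intro A hA B hB
    by_cases h1 : ∃ q ∈ B, q ∉ A
    · exact Or.inl (hlt A hA B hB h1)
    · by_cases h2 : ∃ q ∈ A, q ∉ B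
      · exact Or.inr (Or.inr (hlt B hB A hA h2))
      · push Not at h1 h2
        exact Or.inr (Or.inl (sub_antisymm h2 h1))
  · intro A hA
    have hc := mem_reaR.1 hA
    constructor
    · obtain ⟨x, hx⟩ := hc.2.1
      have hxD := hc.1 x hx
      exact ⟨_, hcutP x hxD, hlt _ (hcutP x hxD) A hA ⟨x, hx, fun h =>
        hirr x hxD (mem_reaP.1 h).2⟩⟩
    · obtain ⟨x, hxD, hx⟩ := hc.2.2.1
      obtain ⟨y, hy, hxy⟩ := (hend x hxD).2
      exact ⟨_, hcutP y hy, hlt A hA _ (hcutP y hy) ⟨x, mem_reaP.2 ⟨hxD, hxy⟩, hx⟩⟩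
  · intro F hF ⟨A0, hA0⟩ ⟨B, hB, hBF⟩
    have hBc := mem_reaR.1 hB
    have hsubB : ∀ A ∈ F, Sub A B := by
      intro A hA
      rcases hBF A hA with h | h
      · exact (reaLt_iff.1 h).2.2.1
      · rw [h]; exact sub_refl B
    have hS : ZF1.sUn F ∈ reaR D le := by
      refine mem_reaR.2 ⟨?_, ?_, ?_, ?_, ?_⟩
      · intro z hz
        obtain ⟨A, hA, hzA⟩ := mem_sUn.1 hz
        exact (mem_reaR.1 (hF A hA)).1 z hzA
      · obtain ⟨x, hx⟩ := (mem_reaR.1 (hF A0 hA0)).2.1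
        exact ⟨x, mem_sUn.2 ⟨A0, hA0, hx⟩⟩
      · obtain ⟨x, hxD, hx⟩ := hBc.2.2.1
        refine ⟨x, hxD, fun h => ?_⟩
        obtain ⟨A, hA, hxA⟩ := mem_sUn.1 h
        exact hx (hsubB A hA x hxA)
      · intro x hx y hy hyx
        obtain ⟨A, hA, hxA⟩ := mem_sUn.1 hx
        exact mem_sUn.2 ⟨A, hA, (mem_reaR.1 (hF A hA)).2.2.2.1 x hxA y hy hyx⟩
      · intro x hx
        obtain ⟨A, hA, hxA⟩ := mem_sUn.1 hx
        obtain ⟨y, hyA, hxy⟩ := (mem_reaR.1 (hF A hA)).2.2.2.2 x hxA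
        exact ⟨y, mem_sUn.2 ⟨A, hA, hyA⟩, hxy⟩
    have hle : ∀ A ∈ reaR D le, ∀ B ∈ reaR D le, Sub A B →
        OMem A B (reaLt D le) ∨ A = B := by
      intro A hA B hB h
      by_cases e : A = B
      · exact Or.inr e
      · exact Or.inl (reaLt_iff.2 ⟨hA, hB, h, e⟩)
    refine ⟨ZF1.sUn F, hS, fun A hA => ?_, fun C hC hCF => ?_⟩
    · exact hle A (hF A hA) _ hS (fun z hz => mem_sUn.2 ⟨A, hA, hz⟩)
    · apply hle _ hS C hC
      intro z hz
      obtain ⟨A, hA, hzA⟩ := mem_sUn.1 hz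
      rcases hCF A hA with h | h
      · exact (reaLt_iff.1 h).2.2.1 z hzA
      · rw [← h]; exact hzA

end

end Pool.Agent.ZT
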