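import Pool.Agent.Lib_helper91.ZT.BS
import Pool.Agent.Lib_helper91.ZT.TolB

/-!
# Block SCA
-/

set_option linter.unusedSectionVars false
set_option linter.unusedVariables false

universe u

namespace Pool.Agent.ZT

open FirstOrder Language Pool.Agent.ZF1

section
variable {V : Type u} [Lset.Structure V] [IsZF V]

/-! ## Block SCA: the scales -/

theorem SCA_mem_Em {X lt Q io p m x : V} : x ∈ Em X lt Q io p m ↔ x ∈ X ∧ ∃ r ∈ Q, ∃ r' ∈ Q,
    ap io r ∈ m ∧ ap io r' ∈ m ∧ Lt lt r r' ∧ x ∈ ap p (opair r r') := by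
  unfold Em; rw [mem_sb]

theorem SCA_mem_Qm {X lt Q io p m x : V} : x ∈ Qm X lt Q io p m ↔
    x ∈ Em X lt Q io p (succ m) ∧ x ∉ Em X lt Q io p m := by
  unfold Qm; rw [mem_diff]

theorem SCA_mem_Wt {X lt Q io v p d t x : V} : x ∈ Wt X lt Q io v p d t ↔ x ∈ X ∧
    (((¬ ∃ r ∈ Q, ∃ r' ∈ Q, Lt lt r r' ∧ x ∈ ap p (opair r r')) ∧
      ∃ r ∈ Q, Lt lt r t ∧ x ∈ ap v r) ∨
    ∃ m ∈ (omega : V), ∃ r ∈ Q, ∃ r' ∈ Q, ap io r ∈ m ∧ ap io r' ∈ m ∧ Lt lt r r' ∧ Lt lt r' t ∧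
      x ∈ ap d (opair m (opair r r'))) := by
  unfold Wt; rw [mem_sb]

theorem SCA_above {a b : V} (ha : a ∈ (omega : V)) (hb : b ∈ (omega : V)) :
    ∃ n ∈ (omega : V), a ∈ n ∧ b ∈ n := by
  rcases nat_tri ha b hb with h | h | h
  · exact ⟨succ a, succ_mem_omega ha, mem_succ.2 (Or.inr rfl), mem_succ.2 (Or.inl h)⟩
  · exact ⟨succ a, succ_mem_omega ha, mem_succ.2 (Or.inr rfl), mem_succ.2 (Or.inr h)⟩
  · exact ⟨succ b, succ_mem_omega hb, mem_succ.2 (Or.inl h), mem_succ.2 (Or.inr rfl)⟩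

theorem SCA_Em_mono {X lt Q io p m n : V} (hn : n ∈ (omega : V)) (hm : m ∈ n ∨ m = n) :
    Sub (Em X lt Q io p m) (Em X lt Q io p n) := by
  intro x hx
  obtain ⟨hxX, r, hr, r', hr', h1, h2, h3, h4⟩ := SCA_mem_Em.1 hx
  rcases hm with hm | rfl
  · exact SCA_mem_Em.2 ⟨hxX, r, hr, r', hr', nat_trans hn m hm _ h1, nat_trans hn m hm _ h2, h3, h4⟩
  · exact hx

/-- the parts `Qm` are disjoint -/
theorem SCA_Qm_disj {X lt Q io p m n x : V} (hm : m ∈ (omega : V)) (hn : n ∈ (omega : V))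
    (h1 : x ∈ Qm X lt Q io p m) (h2 : x ∈ Qm X lt Q io p n) : m = n := by
  rw [SCA_mem_Qm] at h1 h2
  rcases nat_tri hm n hn with h | h | h
  · exact absurd (SCA_Em_mono hm (nat_succ_le hm n h) x h2.1) h1.2
  · exact h.symm
  · exact absurd (SCA_Em_mono hn (nat_succ_le hn m h) x h1.1) h2.2

/-- a point of some `p (r, r')` is in some part -/
theorem SCA_exists_Qm {X T N R lt Q io v p d C0 x r r' : V} (hT : Top X T)
    (hR : Line R lt Q io) (h : ScData X T N C0 R lt Q io v p d) (hr : r ∈ Q) (hr' : r' ∈ Q)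
    (hlt : Lt lt r r') (hx : x ∈ ap p (opair r r')) :
    ∃ m ∈ (omega : V), x ∈ Qm X lt Q io p m := by
  have hxX : x ∈ X := (h.pclo r hr r' hr' hlt).sub hT x hx
  obtain ⟨n0, hn0, h1, h2⟩ := SCA_above (hR.cnt.1 r hr) (hR.cnt.1 r' hr')
  obtain ⟨n, hn, hxn, hmin⟩ := exists_min (V := V) (fun n => x ∈ Em X lt Q io p n)
    ⟨n0, hn0, SCA_mem_Em.2 ⟨hxX, r, hr, r', hr', h1, h2, hlt, hx⟩⟩
  rcases nat_cases hn with rfl | ⟨m, hm, rfl⟩
  · obtain ⟨_, r, hr, r', hr', h1, _⟩ := SCA_mem_Em.1 hxn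
    exact absurd h1 (not_mem_emp _)
  · refine ⟨m, hm, SCA_mem_Qm.2 ⟨hxn, fun hxm => ?_⟩⟩
    rcases hmin m hm hxm with h3 | h3
    · have h4 : m ∈ succ m := mem_succ.2 (Or.inr rfl)
      rw [h3] at h4
      exact not_mem_self m h4
    · exact not_mem_mem h3 (mem_succ.2 (Or.inr rfl))

/-- one piece -/
noncomputable def SCApc (X lt p r r' : V) : V :=
  sb (fun x => Lt lt r r' ∧ x ∈ ap p (opair r r')) X

instance {X lt p : V} {t s : (ℕ → V) → V} [ht : DF t] [hs : DF s] :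
    DF (fun v => SCApc X lt p (t v) (s v)) :=
  DF.comp2 (F := SCApc X lt p) (by unfold SCApc; infer_instance) ht hs

theorem SCA_mem_pc {X lt p r r' x : V} :
    x ∈ SCApc X lt p r r' ↔ x ∈ X ∧ Lt lt r r' ∧ x ∈ ap p (opair r r') := by
  unfold SCApc; rw [mem_sb]

/-- the index set -/
noncomputable def SCAix (Q io m : V) : V := sb (fun x => ap io x ∈ m) Q

theorem SCA_mem_ix {Q io m x : V} : x ∈ SCAix Q io m ↔ x ∈ Q ∧ ap io x ∈ m := by
  unfold SCAix; rw [mem_sb]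

theorem SCA_Em_eq {X lt Q io p m : V} : Em X lt Q io p m =
    bu (SCAix Q io m) (fun r => bu (SCAix Q io m) (fun r' => SCApc X lt p r r')) := by
  refine ext fun x => ?_
  have hF : ∀ r : V, DF (fun v => SCApc X lt p r (v 0)) := fun r => inferInstance
  have hG : DF (fun v : ℕ → V => bu (SCAix Q io m) (fun r' => SCApc X lt p (v 0) r')) :=
    DF.bu (F := fun r' v => SCApc X lt p (v 0) r') (a := fun _ => SCAix Q io m)
  rw [SCA_mem_Em, mem_bu (F := fun r => bu (SCAix Q io m) (fun r' => SCApc X lt p r r'))]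
  constructor
  · rintro ⟨hxX, r, hr, r', hr', h1, h2, h3, h4⟩
    exact ⟨r, SCA_mem_ix.2 ⟨hr, h1⟩, (mem_bu (F := fun r' => SCApc X lt p r r')).2
      ⟨r', SCA_mem_ix.2 ⟨hr', h2⟩, SCA_mem_pc.2 ⟨hxX, h3, h4⟩⟩⟩
  · rintro ⟨r, hr, hx⟩
    obtain ⟨r', hr', hx⟩ := (mem_bu (F := fun r' => SCApc X lt p r r')).1 hx
    obtain ⟨hr, h1⟩ := SCA_mem_ix.1 hr
    obtain ⟨hr', h2⟩ := SCA_mem_ix.1 hr'
    obtain ⟨hxX, h3, h4⟩ := SCA_mem_pc.1 hx
    exact ⟨hxX, r, hr, r', hr', h1, h2, h3, h4⟩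

section
variable {X T N C0 R lt Q io v p d : V} (hT : Top X T) (hN : Idl X N)
    (hR : Line R lt Q io) (h : ScData X T N C0 R lt Q io v p d)
include hT hN hR h

theorem SCA_pc_eq {r r' : V} (hr : r ∈ Q) (hr' : r' ∈ Q) :
    SCApc X lt p r r' = emp ∨ (Lt lt r r' ∧ SCApc X lt p r r' = ap p (opair r r')) := by
  by_cases h1 : Lt lt r r'
  · refine Or.inr ⟨h1, ext fun x => ?_⟩
    rw [SCA_mem_pc]
    exact ⟨fun h => h.2.2, fun hx => ⟨(h.pclo r hr r' hr' h1).sub hT x hx, h1, hx⟩⟩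
  · refine Or.inl (ext fun x => ?_)
    rw [SCA_mem_pc]
    exact ⟨fun h => absurd h.2.1 h1, fun h => absurd h (not_mem_emp _)⟩

theorem SCA_Em_clo {m : V} (hm : m ∈ (omega : V)) : Clo X T (Em X lt Q io p m) := by
  rw [SCA_Em_eq]
  have hK : Kfin (SCAix Q io m) := kfin_below hR.cnt hm
  have hG : DF (fun v : ℕ → V => bu (SCAix Q io m) (fun r' => SCApc X lt p (v 0) r')) :=
    DF.bu (F := fun r' v => SCApc X lt p (v 0) r') (a := fun _ => SCAix Q io m)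
  refine Clo.bu hT hK (fun r => bu (SCAix Q io m) (fun r' => SCApc X lt p r r')) fun r hr => ?_
  refine Clo.bu hT hK (fun r' => SCApc X lt p r r') fun r' hr' => ?_
  rcases SCA_pc_eq hT hN hR h (SCA_mem_ix.1 hr).1 (SCA_mem_ix.1 hr').1 with e | ⟨h1, e⟩
  · show Clo X T (SCApc X lt p r r')
    rw [e]; exact Clo.emp hT
  · show Clo X T (SCApc X lt p r r')
    rw [e]; exact h.pclo r (SCA_mem_ix.1 hr).1 r' (SCA_mem_ix.1 hr').1 h1

theorem SCA_Em_N {m : V} (hm : m ∈ (omega : V)) : Em X lt Q io p m ∈ N := by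
  rw [SCA_Em_eq]
  have hK : Kfin (SCAix Q io m) := kfin_below hR.cnt hm
  have hG : DF (fun v : ℕ → V => bu (SCAix Q io m) (fun r' => SCApc X lt p (v 0) r')) :=
    DF.bu (F := fun r' v => SCApc X lt p (v 0) r') (a := fun _ => SCAix Q io m)
  refine kfin_bu hK (fun r => bu (SCAix Q io m) (fun r' => SCApc X lt p r r')) (fun A => A ∈ N)
    hN.emp (fun A B hA hB => hN.un A hA B hB) fun r hr => ?_
  refine kfin_bu hK (fun r' => SCApc X lt p r r') (fun A => A ∈ N)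
    hN.emp (fun A B hA hB => hN.un A hA B hB) fun r' hr' => ?_
  rcases SCA_pc_eq hT hN hR h (SCA_mem_ix.1 hr).1 (SCA_mem_ix.1 hr').1 with e | ⟨h1, e⟩
  · show SCApc X lt p r r' ∈ N
    rw [e]; exact hN.emp
  · show SCApc X lt p r r' ∈ N
    rw [e]; exact h.pN r (SCA_mem_ix.1 hr).1 r' (SCA_mem_ix.1 hr').1 h1

theorem SCA_Qm_clo {m : V} (hm : m ∈ (omega : V)) : Clo X T (Qm X lt Q io p m) :=
  Clo.diff hT (SCA_Em_clo hT hN hR h (succ_mem_omega hm)) (SCA_Em_clo hT hN hR h hm)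

/-- points of `d (m, r, r')` outside `E` are in `v s` for larger `s` -/
theorem SCA_star {m r r' s y : V} (hm : m ∈ (omega : V)) (hr : r ∈ Q) (hr' : r' ∈ Q)
    (hs : s ∈ Q) (h1 : ap io r ∈ m) (h2 : ap io r' ∈ m) (hlt : Lt lt r r') (hlt' : Lt lt r' s)
    (hy : y ∈ ap d (opair m (opair r r'))) (hyE : y ∉ Em X lt Q io p (succ (ap io s))) :
    y ∈ ap v s := by
  obtain ⟨hyQ, hyv⟩ := (h.d m hm r hr r' hr' h1 h2 hlt).2.2 y hy
  obtain ⟨hy1, hy2⟩ := SCA_mem_Qm.1 hyQ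
  refine h.c1 r' hr' s hs hlt' y hyv fun hp => ?_
  have hio : ap io s ∈ (omega : V) := hR.cnt.1 s hs
  rcases nat_tri hm (ap io s) hio with h3 | h3 | h3
  · exact hy2 (SCA_mem_Em.2 ⟨(SCA_mem_Em.1 hy1).1, r', hr', s, hs, h2, h3, hlt', hp⟩)
  · rw [h3] at hyE; exact hyE hy1
  · exact hyE (SCA_Em_mono (succ_mem_omega hio)
      (nat_succ_le (succ_mem_omega hio) m (mem_succ.2 (Or.inl h3))) y hy1)

/-- points of `v r` outside a large `E` are in the scale -/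
theorem SCA_open1 {r t x : V} (hr : r ∈ Q) (ht : t ∈ Q) (hrt : Lt lt r t)
    (hxp : ¬ ∃ r ∈ Q, ∃ r' ∈ Q, Lt lt r r' ∧ x ∈ ap p (opair r r')) (hx : x ∈ ap v r) :
    ∃ U ∈ T, x ∈ U ∧ Sub U (Wt X lt Q io v p d t) := by
  obtain ⟨r', hr', h1, h2⟩ := hR.dense r (hR.sub r hr) t (hR.sub t ht) hrt
  obtain ⟨M, hM, hM1, hM2⟩ := SCA_above (hR.cnt.1 r hr) (hR.cnt.1 r' hr')
  have hE := SCA_Em_clo hT hN hR h hM
  have hxX : x ∈ X := hT.sub _ (h.vT r hr) x hx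
  refine ⟨inter (ap v r) (diff X (Em X lt Q io p M)), hT.inter _ (h.vT r hr) _ hE.2,
    mem_inter.2 ⟨hx, mem_diff.2 ⟨hxX, fun hxE => ?_⟩⟩, fun y hy => ?_⟩
  · obtain ⟨_, s, hs, s', hs', _, _, h3, h4⟩ := SCA_mem_Em.1 hxE
    exact hxp ⟨s, hs, s', hs', h3, h4⟩
  · obtain ⟨hyv, hy⟩ := mem_inter.1 hy
    obtain ⟨hyX, hyE⟩ := mem_diff.1 hy
    by_cases hyp : ∃ r ∈ Q, ∃ r' ∈ Q, Lt lt r r' ∧ y ∈ ap p (opair r r')
    · obtain ⟨s, hs, s', hs', h3, h4⟩ := hyp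
      obtain ⟨m, hm, hym⟩ := SCA_exists_Qm hT hR h hs hs' h3 h4
      have hMm : M ∈ m ∨ M = m := by
        rcases nat_tri hm M hM with h5 | h5 | h5
        · exact Or.inl h5
        · exact Or.inr h5
        · exact absurd (SCA_Em_mono hM (nat_succ_le hM m h5) y (SCA_mem_Qm.1 hym).1) hyE
      have h5 : ap io r ∈ m := by
        rcases hMm with h5 | rfl
        · exact nat_trans hm M h5 _ hM1
        · exact hM1
      have h6 : ap io r' ∈ m := by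
        rcases hMm with h6 | rfl
        · exact nat_trans hm M h6 _ hM2
        · exact hM2
      exact SCA_mem_Wt.2 ⟨hyX, Or.inr ⟨m, hm, r, hr, r', hr', h5, h6, h1, h2,
        (h.d m hm r hr r' hr' h5 h6 h1).2.1 y hym hyv⟩⟩
    · exact SCA_mem_Wt.2 ⟨hyX, Or.inl ⟨hyp, r, hr, hrt, hyv⟩⟩

end

/-- one piece -/
noncomputable def SCApd (X lt d m t r r' : V) : V :=
  sb (fun x => (Lt lt r r' ∧ Lt lt r' t) ∧ x ∈ ap d (opair m (opair r r'))) X

instance {X lt d m t : V} {t1 s : (ℕ → V) → V} [ht : DF t1] [hs : DF s] :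
    DF (fun v => SCApd X lt d m t (t1 v) (s v)) :=
  DF.comp2 (F := SCApd X lt d m t) (by unfold SCApd; infer_instance) ht hs

theorem SCA_mem_pd {X lt d m t r r' x : V} :
    x ∈ SCApd X lt d m t r r' ↔ x ∈ X ∧ (Lt lt r r' ∧ Lt lt r' t) ∧
      x ∈ ap d (opair m (opair r r')) := by
  unfold SCApd; rw [mem_sb]

/-- SCA -/
theorem scale {X T N C0 R lt Q io v p d : V} (hT : Top X T) (hN : Idl X N)
    (hR : Line R lt Q io) (hC0 : Sub C0 X) (h : ScData X T N C0 R lt Q io v p d) :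
    (∀ t ∈ Q, Wt X lt Q io v p d t ∈ T) ∧ (∀ t ∈ Q, Wt X lt Q io v p d t ∈ N) ∧
    (∀ t ∈ Q, Sub C0 (Wt X lt Q io v p d t)) ∧
    ∀ t ∈ Q, ∀ t' ∈ Q, Lt lt t t' →
      Way X T (Wt X lt Q io v p d t) (Wt X lt Q io v p d t') := by
  refine ⟨fun t ht => ?_, fun t ht => ?_, fun t ht => ?_, fun t ht t' ht' htt => ?_⟩
  · -- open
    refine hT.of_nhds (fun x hx => (SCA_mem_Wt.1 hx).1) fun x hx => ?_
    obtain ⟨hxX, ⟨hxp, r, hr, hrt, hxv⟩ | ⟨m, hm, r, hr, r', hr', h1, h2, h3, h4, h5⟩⟩ :=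
      SCA_mem_Wt.1 hx
    · exact SCA_open1 hT hN hR h hr ht hrt hxp hxv
    · have hc := (h.d m hm r hr r' hr' h1 h2 h3).1
      exact ⟨_, hc.1, h5, fun y hy => SCA_mem_Wt.2 ⟨hc.sub hT y hy,
        Or.inr ⟨m, hm, r, hr, r', hr', h1, h2, h3, h4, hy⟩⟩⟩
  · -- in the ideal
    have hio : ap io t ∈ (omega : V) := hR.cnt.1 t ht
    refine hN.mono _ (hN.un _ (h.vN t ht) _ (SCA_Em_N hT hN hR h (succ_mem_omega hio))) _
      fun x hx => ?_
    rw [mem_un]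
    by_cases hxE : x ∈ Em X lt Q io p (succ (ap io t))
    · exact Or.inr hxE
    left
    obtain ⟨hxX, ⟨hxp, r, hr, hrt, hxv⟩ | ⟨m, hm, r, hr, r', hr', h1, h2, h3, h4, h5⟩⟩ :=
      SCA_mem_Wt.1 hx
    · exact h.c1 r hr t ht hrt x hxv fun hp => hxp ⟨r, hr, t, ht, hrt, hp⟩
    · exact SCA_star hT hN hR h hm hr hr' ht h1 h2 h3 h4 h5 hxE
  · -- contains the set
    intro x hx
    obtain ⟨y, hy, hyt⟩ := hR.bot t (hR.sub t ht)
    obtain ⟨r, hr, _, hrt⟩ := hR.dense y hy t (hR.sub t ht) hyt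
    exact SCA_mem_Wt.2 ⟨hC0 x hx, Or.inl ⟨fun ⟨s, hs, s', hs', h1, h2⟩ =>
      h.pC s hs s' hs' h1 x hx h2, r, hr, hrt, h.vC r hr x hx⟩⟩
  · -- way inside
    intro x hxX hx
    by_cases hxp : ∃ r ∈ Q, ∃ r' ∈ Q, Lt lt r r' ∧ x ∈ ap p (opair r r')
    · obtain ⟨s, hs, s', hs', h1, h2⟩ := hxp
      obtain ⟨m, hm, hxm⟩ := SCA_exists_Qm hT hR h hs hs' h1 h2
      have hK : Kfin (SCAix Q io m) := kfin_below hR.cnt hm
      have hG : DF (fun v : ℕ → V => bu (SCAix Q io m) (fun r' => SCApd X lt d m t' (v 0) r')) :=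
        DF.bu (F := fun r' v => SCApd X lt d m t' (v 0) r') (a := fun _ => SCAix Q io m)
      have hc : Clo X T (bu (SCAix Q io m) (fun r => bu (SCAix Q io m)
          (fun r' => SCApd X lt d m t' r r'))) := by
        refine Clo.bu hT hK (fun r => bu (SCAix Q io m) (fun r' => SCApd X lt d m t' r r'))
          fun r hr => ?_
        refine Clo.bu hT hK (fun r' => SCApd X lt d m t' r r') fun r' hr' => ?_
        show Clo X T (SCApd X lt d m t' r r')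
        obtain ⟨hr, hri⟩ := SCA_mem_ix.1 hr
        obtain ⟨hr', hri'⟩ := SCA_mem_ix.1 hr'
        by_cases h3 : Lt lt r r' ∧ Lt lt r' t'
        · have hd := (h.d m hm r hr r' hr' hri hri' h3.1).1
          have : SCApd X lt d m t' r r' = ap d (opair m (opair r r')) := ext fun z => by
            rw [SCA_mem_pd]
            exact ⟨fun h => h.2.2, fun hz => ⟨hd.sub hT z hz, h3, hz⟩⟩
          rw [this]; exact hd
        · have : SCApd X lt d m t' r r' = emp := ext fun z => by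
            rw [SCA_mem_pd]
            exact ⟨fun h => absurd h.2.1 h3, fun hz => absurd hz (not_mem_emp _)⟩
          rw [this]; exact Clo.emp hT
      refine ⟨inter (Qm X lt Q io p m) (diff X (bu (SCAix Q io m) (fun r => bu (SCAix Q io m)
        (fun r' => SCApd X lt d m t' r r')))), hT.inter _ (SCA_Qm_clo hT hN hR h hm).1 _ hc.2,
        mem_inter.2 ⟨hxm, mem_diff.2 ⟨hxX, ?_⟩⟩, ?_⟩
      · rw [mem_bu (F := fun r => bu (SCAix Q io m) (fun r' => SCApd X lt d m t' r r'))]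
        rintro ⟨r, hr, hxr⟩
        obtain ⟨r', hr', hxr⟩ := (mem_bu (F := fun r' => SCApd X lt d m t' r r')).1 hxr
        obtain ⟨hr, hri⟩ := SCA_mem_ix.1 hr
        obtain ⟨hr', hri'⟩ := SCA_mem_ix.1 hr'
        obtain ⟨_, h3, h4⟩ := SCA_mem_pd.1 hxr
        exact hx (SCA_mem_Wt.2 ⟨hxX, Or.inr ⟨m, hm, r, hr, r', hr', hri, hri', h3.1, h3.2, h4⟩⟩)
      · intro y hy hyW
        obtain ⟨hyQ, hy⟩ := mem_inter.1 hy
        obtain ⟨hyX, hyb⟩ := mem_diff.1 hy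
        obtain ⟨_, ⟨hyp, _⟩ | ⟨n, hn, r, hr, r', hr', h3, h4, h5, h6, h7⟩⟩ := SCA_mem_Wt.1 hyW
        · obtain ⟨_, r, hr, r', hr', _, _, h5, h6⟩ := SCA_mem_Em.1 (SCA_mem_Qm.1 hyQ).1
          exact hyp ⟨r, hr, r', hr', h5, h6⟩
        · have hyn := ((h.d n hn r hr r' hr' h3 h4 h5).2.2 y h7).1
          have e : n = m := SCA_Qm_disj hn hm hyn hyQ
          subst e
          apply hyb
          rw [mem_bu (F := fun r => bu (SCAix Q io n) (fun r' => SCApd X lt d n t' r r'))]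
          refine ⟨r, SCA_mem_ix.2 ⟨hr, h3⟩, ?_⟩
          refine (mem_bu (F := fun r' => SCApd X lt d n t' r r')).2 ⟨r', SCA_mem_ix.2 ⟨hr', h4⟩, ?_⟩
          exact SCA_mem_pd.2 ⟨hyX, ⟨h5, hR.trans _ (hR.sub _ hr') _ (hR.sub _ ht) _
            (hR.sub _ ht') h6 htt⟩, h7⟩
    · obtain ⟨s, hs, h1, h2⟩ := hR.dense t (hR.sub t ht) t' (hR.sub t' ht') htt
      obtain ⟨s', hs', h3, h4⟩ := hR.dense s (hR.sub s hs) t' (hR.sub t' ht') h2
      have hxv : x ∉ ap v s' := fun hxv => hx (SCA_mem_Wt.2 ⟨hxX, Or.inl ⟨hxp, s', hs', h4, hxv⟩⟩)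
      obtain ⟨U, hU, hxU, hUv⟩ := h.c2 s hs s' hs' h3 x hxX
        (fun hp => hxp ⟨s, hs, s', hs', h3, hp⟩) hxv
      have hio : ap io s ∈ (omega : V) := hR.cnt.1 s hs
      have hE := SCA_Em_clo hT hN hR h (succ_mem_omega hio)
      refine ⟨inter U (diff X (Em X lt Q io p (succ (ap io s)))), hT.inter _ hU _ hE.2,
        mem_inter.2 ⟨hxU, mem_diff.2 ⟨hxX, fun hxE => ?_⟩⟩, fun y hy hyW => ?_⟩
      · obtain ⟨_, r, hr, r', hr', _, _, h5, h6⟩ := SCA_mem_Em.1 hxE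
        exact hxp ⟨r, hr, r', hr', h5, h6⟩
      · obtain ⟨hyU, hy⟩ := mem_inter.1 hy
        obtain ⟨hyX, hyE⟩ := mem_diff.1 hy
        refine hUv y hyU ?_
        obtain ⟨_, ⟨hyp, r, hr, h5, h6⟩ | ⟨n, hn, r, hr, r', hr', h5, h6, h7, h8, h9⟩⟩ :=
          SCA_mem_Wt.1 hyW
        · have hrs : Lt lt r s := hR.trans _ (hR.sub _ hr) _ (hR.sub _ ht) _ (hR.sub _ hs) h5 h1
          exact h.c1 r hr s hs hrs y h6 fun hp => hyp ⟨r, hr, s, hs, hrs, hp⟩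
        · exact SCA_star hT hN hR h hn hr hr' hs h5 h6 h7
            (hR.trans _ (hR.sub _ hr') _ (hR.sub _ ht) _ (hR.sub _ hs) h8 h1) h9 hyE

end

end Pool.Agent.ZT
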