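import Pool.Agent.Lib_helper91.ZT.TolB

/-!
# Block SEQ
-/

set_option linter.unusedSectionVars false
set_option linter.unusedVariables false

universe u

namespace Pool.Agent.ZT

open FirstOrder Language Pool.Agent.ZF1

section
variable {V : Type u} [Lset.Structure V] [IsZF V]

/-! ## Block SEQ: closed discrete sequences -/

/-- SEQ: two sequences of points such that all subsets of the set of their points are closed -/
theorem exists_seq {X T U : V} (hT : Top X T) (h1 : T1 X T) (hL : Lind X T)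
    (hU : ∀ n ∈ (omega : V), ap U n ∈ T ∧ Sub (ap U n) (ap U (succ n)) ∧ ∃ x ∈ X, x ∉ ap U n)
    (hc : ∀ x ∈ X, ∃ n ∈ (omega : V), x ∈ ap U n) :
    ∃ y z : V, IsFn y omega ∧ IsFn z omega ∧
      (∀ n ∈ (omega : V), ap y n ∈ X ∧ ap z n ∈ X) ∧
      (∀ n ∈ (omega : V), ∀ m ∈ (omega : V), ap y n = ap y m → n = m) ∧
      (∀ n ∈ (omega : V), ∀ m ∈ (omega : V), ap z n = ap z m → n = m) ∧
      (∀ n ∈ (omega : V), ∀ m ∈ (omega : V), ap y n ≠ ap z m) ∧
      ∀ E, Sub E (un (rn y) (rn z)) → Cl X T E := by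
  -- monotonicity
  have hmono : ∀ m ∈ (omega : V), ∀ n ∈ m, Sub (ap U n) (ap U m) := by
    refine nat_ind (Q := fun m => ∀ n ∈ m, Sub (ap U n) (ap U m)) ?_ ?_
    · intro n hn; exact absurd hn (not_mem_emp n)
    · intro m hm ih n hn
      rcases mem_succ.1 hn with hn | rfl
      · exact sub_trans (ih n hn) (hU m hm).2.1
      · exact (hU n hm).2.1
  have hsucc : ∀ m ∈ (omega : V), ∀ n ∈ (omega : V), n ∈ m → Sub (ap U (succ n)) (ap U m) := by
    intro m hm n hn hnm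
    rcases nat_succ_le hm n hnm with h | h
    · exact hmono m hm _ h
    · rw [h]; exact sub_refl _
  -- open sets
  have hopen : ∀ n ∈ (omega : V), ∀ y ∈ ap U (succ n),
      diff (ap U (succ n)) (sing y) ∈ T := by
    intro n hn y hy
    have hUn := (hU _ (succ_mem_omega hn)).1
    have hyX : y ∈ X := hT.sub _ hUn y hy
    have e : diff (ap U (succ n)) (sing y) = inter (ap U (succ n)) (diff X (sing y)) :=
      ext fun z => by
        simp only [mem_diff, mem_inter]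
        exact ⟨fun h => ⟨h.1, hT.sub _ hUn z h.1, h.2⟩, fun h => ⟨h.1, h.2.2⟩⟩
    rw [e]
    exact hT.inter _ hUn _ (h1 y hyX)
  -- the cover
  have hF : ∀ A, A ∈ sb (fun A => ∃ n ∈ (omega : V), ∃ y ∈ ap U (succ n), y ∉ ap U n ∧
      A = diff (ap U (succ n)) (sing y)) T ↔ A ∈ T ∧ ∃ n ∈ (omega : V), ∃ y ∈ ap U (succ n),
      y ∉ ap U n ∧ A = diff (ap U (succ n)) (sing y) := fun A => mem_sb
  obtain ⟨G, j, hGF, hj, hG⟩ := hL _ (fun A hA => ((hF A).1 hA).1) (by
    intro x hx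
    obtain ⟨n, hn, hxn⟩ := hc x hx
    obtain ⟨x', hx'X, hx'⟩ := (hU n hn).2.2
    obtain ⟨k, hk, hxk, hmin⟩ := exists_min (V := V) (fun k => x' ∈ ap U k) (hc x' hx'X)
    have hnk : n ∈ k := by
      rcases nat_tri hn k hk with h | h | h
      · exact absurd (hmono n hn k h x' hxk) hx'
      · exact absurd (h ▸ hxk) hx'
      · exact h
    rcases nat_cases hk with rfl | ⟨m, hm, rfl⟩
    · exact absurd hnk (not_mem_emp n)
    have hx'm : x' ∉ ap U m := by
      intro h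
      rcases hmin m hm h with h | h
      · exact not_mem_self m (by
          have : m ∈ succ m := mem_succ.2 (Or.inr rfl)
          rwa [h] at this)
      · exact not_mem_mem h (mem_succ.2 (Or.inr rfl))
    refine ⟨diff (ap U (succ m)) (sing x'), (hF _).2 ⟨hopen m hm x' hxk, m, hm, x', hxk, hx'm, rfl⟩,
      mem_diff.2 ⟨hmono _ hk n hnk x hxn, fun h => ?_⟩⟩
    rw [mem_sing] at h
    rw [h] at hxn
    exact hx' hxn)
  -- the candidates
  have hcanDP : DP (fun v : ℕ → V => v 1 ∈ ap U (succ (v 0)) ∧ v 1 ∉ ap U (v 0) ∧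
      diff (ap U (succ (v 0))) (sing (v 1)) ∈ G) := inferInstance
  obtain ⟨Can, hCan⟩ : ∃ Can : V → V → Prop, Can = fun n y => y ∈ ap U (succ n) ∧ y ∉ ap U n ∧
      diff (ap U (succ n)) (sing y) ∈ G := ⟨_, rfl⟩
  have hCD : ∀ (t s : (ℕ → V) → V) [DF t] [DF s], DP (fun v => Can (t v) (s v)) :=
    fun t s _ _ => DP.comp2 (R := Can) (by rw [hCan]; exact hcanDP) inferInstance inferInstance
  have hCi : ∀ n y, Can n y ↔ y ∈ ap U (succ n) ∧ y ∉ ap U n ∧
      diff (ap U (succ n)) (sing y) ∈ G := fun n y => by rw [hCan]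
  have hN1 : ∀ n, n ∈ sb (fun n => ∃ y, Can n y) (omega : V) ↔ n ∈ (omega : V) ∧ ∃ y, Can n y :=
    fun n => mem_sb
  obtain ⟨N1, hN1e⟩ : ∃ N1 : V, N1 = sb (fun n => ∃ y, Can n y) (omega : V) := ⟨_, rfl⟩
  rw [← hN1e] at hN1
  have hNs : Sub N1 omega := fun n hn => ((hN1 n).1 hn).1
  have hNu : Unb N1 := by
    intro m hm
    by_contra hcon
    push Not at hcon
    obtain ⟨x, hx, hxm⟩ := (hU _ (succ_mem_omega hm)).2.2
    obtain ⟨A, hA, hxA⟩ := hG x hx
    obtain ⟨_, n, hn, y, hy, hyn, rfl⟩ := (hF A).1 (hGF A hA)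
    have hnN : n ∈ N1 := (hN1 n).2 ⟨hn, y, (hCi n y).2 ⟨hy, hyn, hA⟩⟩
    have h2 : Sub (ap U (succ n)) (ap U (succ m)) := by
      rcases nat_tri hm n hn with h | h | h
      · exact hsucc _ (succ_mem_omega hm) n hn (mem_succ.2 (Or.inl h))
      · rw [h]; exact sub_refl _
      · exact absurd h (hcon n hnN)
    exact hxm (h2 x (mem_diff.1 hxA).1)
  -- the choice
  have hD : ∀ (t s : (ℕ → V) → V) [DF t] [DF s],
      DF (fun v => diff (ap U (succ (t v))) (sing (s v))) := fun t s _ _ => inferInstance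
  obtain ⟨f, hf, hfP⟩ := exists_fn N1 (fun n y => Can n y ∧ ∀ y', Can n y' → y = y' ∨
      ap j (diff (ap U (succ n)) (sing y)) ∈ ap j (diff (ap U (succ n)) (sing y'))) (by
    intro n hn
    obtain ⟨hnω, y0, hy0⟩ := (hN1 n).1 hn
    have hy0' := (hCi n y0).1 hy0
    obtain ⟨i, hi, ⟨y, hy, hyi⟩, hmin⟩ := exists_min (V := V)
      (fun i => ∃ y, Can n y ∧ ap j (diff (ap U (succ n)) (sing y)) = i)
      ⟨ap j (diff (ap U (succ n)) (sing y0)), hj.1 _ hy0'.2.2, y0, hy0, rfl⟩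
    refine ⟨y, ⟨hy, ?_⟩, ?_⟩
    · intro y' hy'
      have a := (hCi n y).1 hy
      have a' := (hCi n y').1 hy'
      rcases hmin _ (hj.1 _ a'.2.2) ⟨y', hy', rfl⟩ with h | h
      · left
        have e := hj.2 _ a.2.2 _ a'.2.2 (hyi.trans h)
        by_contra hne
        have : y ∈ diff (ap U (succ n)) (sing y') :=
          mem_diff.2 ⟨a.1, fun h => hne (mem_sing.1 h)⟩
        rw [← e] at this
        exact (mem_diff.1 this).2 (mem_sing.2 rfl)
      · right
        rw [hyi]; exact h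
    · rintro y' ⟨hy', hmin'⟩
      have a := (hCi n y).1 hy
      have a' := (hCi n y').1 hy'
      rcases hmin' y hy with h | h
      · exact h
      · rcases hmin _ (hj.1 _ a'.2.2) ⟨y', hy', rfl⟩ with h' | h'
        · rw [hyi, ← h'] at h
          exact absurd h (not_mem_self _)
        · rw [hyi] at h
          exact (not_mem_mem h h').elim)
  have hfC : ∀ n ∈ N1, ap f n ∈ ap U (succ n) ∧ ap f n ∉ ap U n := fun n hn =>
    ⟨((hCi _ _).1 (hfP n hn).1).1, ((hCi _ _).1 (hfP n hn).1).2.1⟩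
  have hfX : ∀ n ∈ N1, ap f n ∈ X := fun n hn =>
    hT.sub _ (hU _ (succ_mem_omega (hNs n hn))).1 _ (hfC n hn).1
  have hfi : ∀ n ∈ N1, ∀ m ∈ N1, ap f n = ap f m → n = m := by
    intro n hn m hm h
    rcases nat_tri (hNs n hn) m (hNs m hm) with h' | h' | h'
    · exfalso
      have := hsucc n (hNs n hn) m (hNs m hm) h' _ (hfC m hm).1
      rw [← h] at this
      exact (hfC n hn).2 this
    · exact h'.symm
    · exfalso
      have := hsucc m (hNs m hm) n (hNs n hn) h' _ (hfC n hn).1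
      rw [h] at this
      exact (hfC m hm).2 this
  -- splitting
  obtain ⟨E0, hE0, hE1, hE2⟩ := exists_split hNs hNu
  obtain ⟨ν, hν, hνm, hνi⟩ := exists_enum (sub_trans hE0 hNs) hE1
  obtain ⟨μ, hμ, hμm, hμi⟩ := exists_enum (N := diff N1 E0)
    (fun n hn => hNs n (mem_diff.1 hn).1) hE2
  have hνN : ∀ n ∈ (omega : V), ap ν n ∈ N1 := fun n hn => hE0 _ (hνm n hn)
  have hμN : ∀ n ∈ (omega : V), ap μ n ∈ N1 := fun n hn => (mem_diff.1 (hμm n hn)).1
  have hya : ∀ n ∈ (omega : V), ap (lm (omega : V) (fun n => ap f (ap ν n))) n = ap f (ap ν n) :=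
    fun n hn => ap_lm (F := fun n => ap f (ap ν n)) hn
  have hza : ∀ n ∈ (omega : V), ap (lm (omega : V) (fun n => ap f (ap μ n))) n = ap f (ap μ n) :=
    fun n hn => ap_lm (F := fun n => ap f (ap μ n)) hn
  have hyf : IsFn (lm (omega : V) (fun n => ap f (ap ν n))) omega := isFn_lm
  have hzf : IsFn (lm (omega : V) (fun n => ap f (ap μ n))) omega := isFn_lm
  refine ⟨lm (omega : V) (fun n => ap f (ap ν n)), lm (omega : V) (fun n => ap f (ap μ n)),
    hyf, hzf, ?_, ?_, ?_, ?_, ?_⟩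
  · intro n hn
    rw [hya n hn, hza n hn]
    exact ⟨hfX _ (hνN n hn), hfX _ (hμN n hn)⟩
  · intro n hn m hm h
    rw [hya n hn, hya m hm] at h
    exact hνi n hn m hm (hfi _ (hνN n hn) _ (hνN m hm) h)
  · intro n hn m hm h
    rw [hza n hn, hza m hm] at h
    exact hμi n hn m hm (hfi _ (hμN n hn) _ (hμN m hm) h)
  · intro n hn m hm h
    rw [hya n hn, hza m hm] at h
    have e := hfi _ (hνN n hn) _ (hμN m hm) h
    have h2 := hνm n hn
    rw [e] at h2
    exact (mem_diff.1 (hμm m hm)).2 h2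
  · intro E hE
    have hEf : ∀ e ∈ E, ∃ n ∈ N1, e = ap f n := by
      intro e he
      rcases mem_un.1 (hE e he) with h | h
      · obtain ⟨n, hn⟩ := mem_rn.1 h
        obtain ⟨hn1, hn2⟩ := hyf.mem_iff.1 hn
        exact ⟨ap ν n, hνN n hn1, by rw [← hn2, hya n hn1]⟩
      · obtain ⟨n, hn⟩ := mem_rn.1 h
        obtain ⟨hn1, hn2⟩ := hzf.mem_iff.1 hn
        exact ⟨ap μ n, hμN n hn1, by rw [← hn2, hza n hn1]⟩
    have hEX : Sub E X := by
      intro e he
      obtain ⟨n, hn, rfl⟩ := hEf e he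
      exact hfX n hn
    refine ⟨hEX, hT.of_nhds (fun z hz => (mem_diff.1 hz).1) ?_⟩
    intro x hx
    obtain ⟨hxX, hxE⟩ := mem_diff.1 hx
    obtain ⟨n, hn, hxn⟩ := hc x hxX
    have hk : Kfin (inter E (ap U n)) := by
      refine kfin_image (kfin_nat hn) (fun a z => a ∈ N1 ∧ z = ap f a) ?_ _ ?_
      · rintro a _ z z' ⟨_, h⟩ ⟨_, h'⟩
        rw [h, h']
      · intro z hz
        obtain ⟨hzE, hzU⟩ := mem_inter.1 hz
        obtain ⟨a, ha, rfl⟩ := hEf z hzE
        refine ⟨a, ?_, ha, rfl⟩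
        rcases nat_tri hn a (hNs a ha) with h | h | h
        · exact h
        · rw [h] at ha ⊢
          rw [h] at hzU
          exact absurd hzU (hfC n ha).2
        · exact absurd (hmono a (hNs a ha) n h _ hzU) (hfC a ha).2
    have hcl := cl_of_kfin hT h1 hk (fun z hz => hEX z (mem_inter.1 hz).1)
    refine ⟨inter (ap U n) (diff X (inter E (ap U n))), hT.inter _ (hU n hn).1 _ hcl.2,
      mem_inter.2 ⟨hxn, mem_diff.2 ⟨hxX, fun h => hxE (mem_inter.1 h).1⟩⟩, ?_⟩
    intro z hz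
    obtain ⟨hzU, hz2⟩ := mem_inter.1 hz
    obtain ⟨hzX, hz3⟩ := mem_diff.1 hz2
    exact mem_diff.2 ⟨hzX, fun h => hz3 (mem_inter.2 ⟨h, hzU⟩)⟩

end

end Pool.Agent.ZT
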