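import Pool.Agent.Lib_helper91.ZT.BS
import Pool.Agent.Lib_helper91.ZT.TopB

/-!
# Block STA
-/

set_option linter.unusedSectionVars false
set_option linter.unusedVariables false

universe u

namespace Pool.Agent.ZT

open FirstOrder Language Pool.Agent.ZF1

section
variable {V : Type u} [Lset.Structure V] [IsZF V]

/-! ## Block STA: choice of the codes -/

variable {B : BS V}

/-- preimages of open intervals -/
theorem Cts.between {X T R lt k : V} (hk : Cts X T R lt k) (hT : Top X T) {l r x : V}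
    (hl : l ∈ R) (hr : r ∈ R) (hx : x ∈ X) (h1 : Lt lt l (ap k x)) (h2 : Lt lt (ap k x) r) :
    ∃ U ∈ T, x ∈ U ∧ ∀ y ∈ U, y ∈ X ∧ Lt lt l (ap k y) ∧ Lt lt (ap k y) r := by
  refine ⟨inter (sb (fun x => Lt lt l (ap k x)) X) (sb (fun x => Lt lt (ap k x) r) X),
    hT.inter _ (hk.above l hl) _ (hk.below r hr), ?_, ?_⟩
  · simp only [mem_inter, mem_sb]
    exact ⟨⟨hx, h1⟩, hx, h2⟩
  · intro y hy
    simp only [mem_inter, mem_sb] at hy
    exact ⟨hy.1.1, hy.1.2, hy.2.2⟩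

/-- STA1: preimages of the code sets are open -/
theorem code_open {B : BS V} (hB : B.Ok) {X T k : V} (hT : Top X T) (hk : Cts X T B.R B.lt k)
    (c : Fin 6) : sb (fun x => B.Code c (ap k x)) X ∈ T := by
  refine hT.of_nhds (fun x hx => (mem_sb.1 hx).1) ?_
  intro x hx
  obtain ⟨hxX, hx⟩ := mem_sb.1 hx
  have hi1 : (succ emp : V) ∈ (omega : V) := succ_mem_omega emp_mem_omega
  fin_cases c
  · obtain ⟨q, hq, i, hi, hc, h1, h2⟩ := hx
    obtain ⟨U, hU, hxU, h⟩ := hk.between hT (hB.eR q hq i hi) (hB.eR q hq _ (succ_mem_omega hi))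
      hxX h1 h2
    exact ⟨U, hU, hxU, fun y hy => mem_sb.2 ⟨(h y hy).1, q, hq, i, hi, hc, (h y hy).2⟩⟩
  · obtain ⟨q, hq, i, hi, hc, h1, h2⟩ := hx
    obtain ⟨U, hU, hxU, h⟩ := hk.between hT (hB.eR q hq i hi) (hB.eR q hq _ (succ_mem_omega hi))
      hxX h1 h2
    exact ⟨U, hU, hxU, fun y hy => mem_sb.2 ⟨(h y hy).1, q, hq, i, hi, hc, (h y hy).2⟩⟩
  · obtain ⟨q, hq, i, hi, hc, h1, h2⟩ := hx
    obtain ⟨U, hU, hxU, h⟩ := hk.between hT (hB.eR q hq i hi) (hB.eR q hq _ (succ_mem_omega hi))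
      hxX h1 h2
    exact ⟨U, hU, hxU, fun y hy => mem_sb.2 ⟨(h y hy).1, q, hq, i, hi, hc, (h y hy).2⟩⟩
  · obtain ⟨q, hq, h1, h2⟩ := hx
    obtain ⟨U, hU, hxU, h⟩ := hk.between hT (hB.eR q hq _ hi1) (hB.eR q hq _ (succ_mem_omega hi1))
      hxX h1 h2
    exact ⟨U, hU, hxU, fun y hy => mem_sb.2 ⟨(h y hy).1, q, hq, (h y hy).2⟩⟩
  · obtain ⟨q, hq, h1, h2⟩ := hx
    have hi : B.k q ∈ (omega : V) := succ_mem_omega (succ_mem_omega (hB.line.cnt.1 q hq))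
    obtain ⟨U, hU, hxU, h⟩ := hk.between hT (hB.eR q hq _ hi) (hB.eR q hq _ (succ_mem_omega hi))
      hxX h1 h2
    exact ⟨U, hU, hxU, fun y hy => mem_sb.2 ⟨(h y hy).1, q, hq, (h y hy).2⟩⟩
  · obtain ⟨q, hq, h1, h2⟩ := hx
    obtain ⟨U, hU, hxU, h⟩ := hk.between hT (hB.aR q hq) (hB.bR q hq) hxX h1 h2
    exact ⟨U, hU, hxU, fun y hy => mem_sb.2 ⟨(h y hy).1, q, hq, (h y hy).2⟩⟩

/-- one step: choice of one code for all members of the cover -/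
theorem stage_step (hB : B.Ok) {X T Cs j H : V} (hT : Top X T) (hcc : CC T)
    (hj : Cnt Cs j) (c : Fin 6) (hne : ∀ C ∈ Cs, ∃ k, k ∈ ap H C)
    (hK : ∀ C ∈ Cs, ∀ k ∈ ap H C, Cts X T B.R B.lt k) :
    ∃ H', IsFn H' Cs ∧ ∀ C ∈ Cs, (∃ k, k ∈ ap H' C) ∧ ∀ k ∈ ap H' C, k ∈ ap H C ∧
      ∀ k' ∈ ap H' C, ∀ x ∈ X, (B.Code c (ap k x) ↔ B.Code c (ap k' x)) := by
  obtain ⟨w, hw, hw'⟩ := hcc Cs j hj (fun C W => ∃ k ∈ ap H C, W = sb (fun x => B.Code c (ap k x)) X)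
    inferInstance (fun C hC => by
      obtain ⟨k, hk⟩ := hne C hC
      exact ⟨_, code_open hB hT (hK C hC k hk) c, k, hk, rfl⟩)
  have hap : ∀ C ∈ Cs, ap (lm Cs fun C => sb (fun k => ap w C = sb (fun x => B.Code c (ap k x)) X)
      (ap H C)) C = sb (fun k => ap w C = sb (fun x => B.Code c (ap k x)) X) (ap H C) :=
    fun C hC => ap_lm (F := fun C => sb (fun k => ap w C = sb (fun x => B.Code c (ap k x)) X)
      (ap H C)) hC
  refine ⟨lm Cs fun C => sb (fun k => ap w C = sb (fun x => B.Code c (ap k x)) X) (ap H C),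
    isFn_lm, fun C hC => ?_⟩
  rw [hap C hC]
  refine ⟨?_, ?_⟩
  · obtain ⟨k, hk, hk'⟩ := (hw' C hC).2
    exact ⟨k, mem_sb.2 ⟨hk, hk'⟩⟩
  · intro k hk
    obtain ⟨hk1, hk2⟩ := mem_sb.1 hk
    refine ⟨hk1, fun k' hk' x hx => ?_⟩
    obtain ⟨hk'1, hk'2⟩ := mem_sb.1 hk'
    have h1 : sb (fun x => B.Code c (ap k x)) X = sb (fun x => B.Code c (ap k' x)) X :=
      hk2.symm.trans hk'2
    have h2 : x ∈ sb (fun x => B.Code c (ap k x)) X ↔ x ∈ sb (fun x => B.Code c (ap k' x)) X := by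
      rw [h1]
    simp only [mem_sb, hx, true_and] at h2
    exact h2

/-- STA2 -/
theorem stage_a {B : BS V} (hB : B.Ok) {X T Cs j K : V} (hT : Top X T) (hcc : CC T)
    (hj : Cnt Cs j) (P : V → V → Prop) [hP : DP (fun v => P (v 0) (v 1))]
    (hK : ∀ k ∈ K, Cts X T B.R B.lt k) (h : ∀ C ∈ Cs, ∃ k ∈ K, P C k) :
    ∃ H, IsFn H Cs ∧ ∀ C ∈ Cs, (∃ k, k ∈ ap H C) ∧ ∀ k ∈ ap H C, k ∈ K ∧ P C k ∧
      ∀ k' ∈ ap H C, B.Same X k k' := by
  have hP' : ∀ (t s : (ℕ → V) → V) [DF t] [DF s], DP (fun v => P (t v) (s v)) :=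
    fun t s _ _ => DP.comp2 hP inferInstance inferInstance
  have key : ∀ l : List (Fin 6), ∃ H, IsFn H Cs ∧ ∀ C ∈ Cs, (∃ k, k ∈ ap H C) ∧
      ∀ k ∈ ap H C, k ∈ K ∧ P C k ∧ ∀ k' ∈ ap H C, ∀ x ∈ X, ∀ c ∈ l,
        (B.Code c (ap k x) ↔ B.Code c (ap k' x)) := by
    intro l
    induction l with
    | nil =>
      have h1 : DP (fun v : ℕ → V => P (v 1) (v 0)) := hP' _ _
      have h2 : DF (fun v : ℕ → V => sb (fun k => P (v 0) k) K) := by
        exact DF.sb (Q := fun k v => P (v 0) k) (a := fun _ => K)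
      have hap : ∀ C ∈ Cs, ap (lm Cs fun C => sb (fun k => P C k) K) C = sb (fun k => P C k) K :=
        fun C hC => ap_lm (F := fun C => sb (fun k => P C k) K) hC
      refine ⟨lm Cs fun C => sb (fun k => P C k) K, isFn_lm (F := fun C => sb (fun k => P C k) K),
        fun C hC => ?_⟩
      have h3 : DP (fun v : ℕ → V => P C (v 0)) := hP' (fun _ => C) (fun v => v 0)
      rw [hap C hC]
      constructor
      · obtain ⟨k, hk, hk'⟩ := h C hC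
        exact ⟨k, mem_sb.2 ⟨hk, hk'⟩⟩
      · intro k hk
        obtain ⟨hk1, hk2⟩ := mem_sb.1 hk
        exact ⟨hk1, hk2, fun k' _ x _ c hc => absurd hc (List.not_mem_nil)⟩
    | cons c l ih =>
      obtain ⟨H, hH, hH'⟩ := ih
      obtain ⟨H', h1, h2⟩ := stage_step (H := H) hB hT hcc hj c (fun C hC => (hH' C hC).1)
        (fun C hC k hk => hK k ((hH' C hC).2 k hk).1)
      refine ⟨H', h1, fun C hC => ⟨(h2 C hC).1, fun k hk => ?_⟩⟩
      obtain ⟨h3, h4⟩ := (h2 C hC).2 k hk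
      obtain ⟨h5, h6, h7⟩ := (hH' C hC).2 k h3
      refine ⟨h5, h6, fun k' hk' x hx c' hc' => ?_⟩
      rcases List.mem_cons.1 hc' with rfl | hc'
      · exact h4 k' hk' x hx
      · exact h7 k' ((h2 C hC).2 k' hk').1 x hx c' hc'
  obtain ⟨H, hH, hH'⟩ := key (List.finRange 6)
  refine ⟨H, hH, fun C hC => ⟨(hH' C hC).1, fun k hk => ?_⟩⟩
  obtain ⟨h1, h2, h3⟩ := (hH' C hC).2 k hk
  exact ⟨h1, h2, fun k' hk' x hx c => h3 k' hk' x hx c (List.mem_finRange c)⟩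

end

end Pool.Agent.ZT
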