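import Pool.Agent.Lib_helper91.ZT.Cut
import Pool.Agent.Lib_helper91.ZT.TolB

/-!
# Block STB
-/

set_option linter.unusedSectionVars false
set_option linter.unusedVariables false

universe u

namespace Pool.Agent.ZT

open FirstOrder Language Pool.Agent.ZF1

section
variable {V : Type u} [Lset.Structure V] [IsZF V]

/-! ## Block STB: the remaining choices -/

instance {X lt Q io : V} {t s : (ℕ → V) → V} [ht : DF t] [hs : DF s] :
    DF (fun v => Qm X lt Q io (t v) (s v)) := by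
  unfold Qm
  infer_instance

theorem mem_Em {X lt Q io p m x : V} : x ∈ Em X lt Q io p m ↔ x ∈ X ∧ ∃ r ∈ Q, ∃ r' ∈ Q,
    ap io r ∈ m ∧ ap io r' ∈ m ∧ Lt lt r r' ∧ x ∈ ap p (opair r r') := by
  unfold Em
  exact mem_sb

theorem cnt_omega : Cnt (omega : V) (lm omega fun n => n) := by
  refine ⟨fun n hn => ?_, fun n hn m hm h => ?_⟩
  · rw [ap_lm hn]; exact hn
  · rwa [ap_lm hn, ap_lm hm] at h

section
variable {B : BS V} {X T N C0 H : V}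

/-- the properties of a class of functions with the same codes -/
structure Cla (B : BS V) (X T N C0 H : V) : Prop where
  cts : ∀ k ∈ H, Cts X T B.R B.lt k
  le : ∀ k ∈ H, ∀ x ∈ C0, Le B.lt (ap k x) B.u
  mem : ∀ k ∈ H, ∀ r ∈ B.R, Lt B.lt r B.o → sb (fun y => Le B.lt (ap k y) r) X ∈ N
  same : ∀ k ∈ H, ∀ k' ∈ H, B.Same X k k'

theorem BS.IsBelow.eq {k q W : V} (h : B.IsBelow X k q W) :
    W = sb (fun x => Lt B.lt (ap k x) (ap B.b q)) X :=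
  ext fun x => (h x).trans (mem_sb (Q := fun x => Lt B.lt (ap k x) (ap B.b q))).symm

theorem v_props (hB : B.Ok) (hN : Idl X N) (hC : Sub C0 X) (hH : Cla B X T N C0 H) {k q W : V}
    (hk : k ∈ H) (hq : q ∈ B.Q) (hW : B.IsBelow X k q W) : W ∈ T ∧ W ∈ N ∧ Sub C0 W := by
  refine ⟨?_, ?_, ?_⟩
  · rw [hW.eq]
    exact (hH.cts k hk).below _ (hB.bR q hq)
  · refine hN.mono _ (hH.mem k hk _ (hB.bR q hq) (hB.bo q hq)) _ fun x hx => ?_
    obtain ⟨h1, h2⟩ := (hW x).1 hx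
    exact mem_sb.2 ⟨h1, Or.inl h2⟩
  · intro x hx
    refine (hW x).2 ⟨hC x hx, ?_⟩
    have hL := hB.line
    have hkx := (hH.cts k hk).mem x (hC x hx)
    refine hL.lt_of_le_of_lt hkx hB.uR (hB.bR q hq) (hH.le k hk x hx) ?_
    have h1 := hB.es q hq emp emp_mem_omega
    have h2 := hB.eb q hq emp emp_mem_omega
    rw [hB.e0 q hq] at h2
    exact hL.trans _ hB.uR _ (hB.aR q hq) _ (hB.bR q hq) (hB.ua q hq) h2

theorem exists_p (hB : B.Ok) (hT : Top X T) (hN : Idl X N) (hC : Sub C0 X)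
    (hH : Cla B X T N C0 H) {k k' r r' vr vr' : V} (hk : k ∈ H) (hk' : k' ∈ H) (hr : r ∈ B.Q)
    (hr' : r' ∈ B.Q) (hlt : Lt B.lt r r') (hvr : B.IsBelow X k r vr)
    (hvr' : B.IsBelow X k' r' vr') :
    ∃ P ∈ T, (Clo X T P ∧ P ∈ N ∧ (∀ x ∈ C0, x ∉ P) ∧ B.Cutt X T H P ∧
      ∃ k ∈ H, ∃ k' ∈ H, B.IsBelow X k r vr ∧ B.IsBelow X k' r' vr' ∧
        ∀ x ∈ X, Le B.lt (ap k x) (ap B.b r) → Le B.lt (ap B.a r') (ap k' x) → x ∈ P) := by
  have hL := hB.line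
  obtain ⟨q1, hq1, h1, h2⟩ := hL.dense r (hL.sub r hr) r' (hL.sub r' hr') hlt
  obtain ⟨q2, hq2, h3, h4⟩ := hL.dense q1 (hL.sub q1 hq1) r' (hL.sub r' hr') h2
  obtain ⟨P, hP1, hP2, hP3, hP4⟩ := exists_cut (H := H) hB hT (hH.cts k hk) (hH.cts k' hk') hq1
    hq2 h3 (hH.same k hk k' hk') (fun κ hκ => ⟨hH.cts κ hκ, hH.same κ hκ k hk,
      hH.same κ hκ k' hk'⟩)
  have hPX := hP1.sub hT
  refine ⟨P, hP1.1, hP1, ?_, ?_, hP4, k, hk, k', hk', hvr, hvr', ?_⟩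
  · refine hN.mono _ (hH.mem k hk _ (hB.bR q1 hq1) (hB.bo q1 hq1)) _ fun x hx => ?_
    exact mem_sb.2 ⟨hPX x hx, Or.inl (hP3 x hx).1⟩
  · intro x hxC hxP
    have hkx := (hH.cts k' hk').mem x (hC x hxC)
    have h5 := (hP3 x hxP).2
    have h6 := hL.lt_of_le_of_lt hkx hB.uR (hB.aR q2 hq2) (hH.le k' hk' x hxC) (hB.ua q2 hq2)
    exact hL.irr _ hkx (hL.trans _ hkx _ (hB.aR q2 hq2) _ hkx h6 h5)
  · intro x hx h5 h6
    have hkx := (hH.cts k hk).mem x hx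
    have hkx' := (hH.cts k' hk').mem x hx
    refine hP2 x hx (Or.inl ?_) (Or.inl ?_)
    · exact hL.lt_of_le_of_lt hkx (hB.bR r hr) (hB.aR q1 hq1) h5 (hB.ord r hr q1 hq1 h1)
    · exact hL.lt_of_lt_of_le (hB.bR q2 hq2) (hB.aR r' hr') hkx' (hB.ord q2 hq2 r' hr' h4) h6

theorem BS.Cutt.un (hT : Top X T) {A A' : V} (h : B.Cutt X T H A) (h' : B.Cutt X T H A') :
    B.Cutt X T H (un A A') := by
  intro κ hκ q hq
  obtain ⟨D, hD1, hD2, hD3⟩ := h κ hκ q hq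
  obtain ⟨D', hD1', hD2', hD3'⟩ := h' κ hκ q hq
  refine ⟨ZF1.un D D', hD1.un hT hD1', ?_, ?_⟩
  · intro x hx hle
    rcases mem_un.1 hx with hx | hx
    · exact mem_un.2 (Or.inl (hD2 x hx hle))
    · exact mem_un.2 (Or.inr (hD2' x hx hle))
  · intro x hx
    rcases mem_un.1 hx with hx | hx
    · exact ⟨mem_un.2 (Or.inl (hD3 x hx).1), (hD3 x hx).2⟩
    · exact ⟨mem_un.2 (Or.inr (hD3' x hx).1), (hD3' x hx).2⟩

theorem BS.Cutt.mono (hT : Top X T) {A A' : V} (h : B.Cutt X T H A) (hA' : Clo X T A')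
    (hs : Sub A' A) : B.Cutt X T H A' := by
  intro κ hκ q hq
  obtain ⟨D, hD1, hD2, hD3⟩ := h κ hκ q hq
  refine ⟨inter D A', hD1.inter hT hA', ?_, ?_⟩
  · intro x hx hle
    exact mem_inter.2 ⟨hD2 x (hs x hx) hle, hx⟩
  · intro x hx
    obtain ⟨h1, h2⟩ := mem_inter.1 hx
    exact ⟨h2, (hD3 x h1).2⟩

theorem BS.Cutt.emp (hT : Top X T) : B.Cutt X T H ZF1.emp := fun κ hκ q hq =>
  ⟨ZF1.emp, Clo.emp hT, fun x hx => absurd hx (not_mem_emp x), fun x hx =>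
    absurd hx (not_mem_emp x)⟩

theorem em_good (hB : B.Ok) (hT : Top X T) {p m : V} (hm : m ∈ (omega : V))
    (hp : ∀ r ∈ B.Q, ∀ r' ∈ B.Q, Lt B.lt r r' → Clo X T (ap p (opair r r')) ∧
      B.Cutt X T H (ap p (opair r r'))) :
    Clo X T (Em X B.lt B.Q B.io p m) ∧ B.Cutt X T H (Em X B.lt B.Q B.io p m) := by
  have hK : Kfin (sb (fun x => ap B.io x ∈ m) B.Q) := kfin_below hB.line.cnt hm
  have hK2 := kfin_prod hK hK
  have hK3 : Kfin (sb (fun π => Lt B.lt (p1 π) (p2 π))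
    (prod (sb (fun x => ap B.io x ∈ m) B.Q) (sb (fun x => ap B.io x ∈ m) B.Q))) :=
    kfin_sub hK2 _ fun z hz => (mem_sb.1 hz).1
  have e : Em X B.lt B.Q B.io p m = bu (sb (fun π => Lt B.lt (p1 π) (p2 π))
      (prod (sb (fun x => ap B.io x ∈ m) B.Q) (sb (fun x => ap B.io x ∈ m) B.Q)))
      (fun π => ap p π) := ext fun x => by
    rw [mem_Em, mem_bu]
    constructor
    · rintro ⟨_, r, hr, r', hr', h1, h2, h3, h4⟩
      refine ⟨opair r r', mem_sb.2 ⟨opair_mem_prod.2 ⟨mem_sb.2 ⟨hr, h1⟩, mem_sb.2 ⟨hr', h2⟩⟩, ?_⟩,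
        h4⟩
      rw [p1_opair, p2_opair]; exact h3
    · rintro ⟨π, hπ, hx⟩
      obtain ⟨h1, h2⟩ := mem_sb.1 hπ
      obtain ⟨r, hr, r', hr', rfl⟩ := mem_prod.1 h1
      rw [p1_opair, p2_opair] at h2
      obtain ⟨hr, h3⟩ := mem_sb.1 hr
      obtain ⟨hr', h4⟩ := mem_sb.1 hr'
      exact ⟨(hp r hr r' hr' h2).1.sub hT x hx, r, hr, r', hr', h3, h4, h2, hx⟩
  rw [e]
  refine kfin_bu hK3 (fun π => ap p π) (fun A => Clo X T A ∧ B.Cutt X T H A)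
    ⟨Clo.emp hT, BS.Cutt.emp hT⟩ (fun A A' h h' => ⟨h.1.un hT h'.1, h.2.un hT h'.2⟩) ?_
  intro π hπ
  obtain ⟨h1, h2⟩ := mem_sb.1 hπ
  obtain ⟨r, hr, r', hr', rfl⟩ := mem_prod.1 h1
  rw [p1_opair, p2_opair] at h2
  exact hp r (mem_sb.1 hr).1 r' (mem_sb.1 hr').1 h2

theorem exists_d (hB : B.Ok) (hT : Top X T) (hH : Cla B X T N C0 H) {p v m r r' : V}
    (hm : m ∈ (omega : V)) (hr : r ∈ B.Q) (hr' : r' ∈ B.Q) (hlt : Lt B.lt r r')
    (hrm : ap B.io r ∈ m) (hrm' : ap B.io r' ∈ m)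
    (hp : ∀ r ∈ B.Q, ∀ r' ∈ B.Q, Lt B.lt r r' → Clo X T (ap p (opair r r')) ∧
      B.Cutt X T H (ap p (opair r r')) ∧
      ∃ k ∈ H, ∃ k' ∈ H, B.IsBelow X k r (ap v r) ∧ B.IsBelow X k' r' (ap v r') ∧
        ∀ x ∈ X, Le B.lt (ap k x) (ap B.b r) → Le B.lt (ap B.a r') (ap k' x) →
          x ∈ ap p (opair r r')) :
    ∃ D ∈ T, Clo X T D ∧ (∀ x ∈ Qm X B.lt B.Q B.io p m, x ∈ ap v r → x ∈ D) ∧
      ∀ x ∈ D, x ∈ Qm X B.lt B.Q B.io p m ∧ x ∈ ap v r' := by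
  have hL := hB.line
  have hp' : ∀ r ∈ B.Q, ∀ r' ∈ B.Q, Lt B.lt r r' → Clo X T (ap p (opair r r')) ∧
      B.Cutt X T H (ap p (opair r r')) := fun r hr r' hr' h =>
    ⟨(hp r hr r' hr' h).1, (hp r hr r' hr' h).2.1⟩
  have h1 := em_good (H := H) hB hT (succ_mem_omega hm) hp'
  have h2 := em_good (H := H) hB hT hm hp'
  have hQ : Clo X T (Qm X B.lt B.Q B.io p m) := Clo.diff hT h1.1 h2.1
  have hQc : B.Cutt X T H (Qm X B.lt B.Q B.io p m) :=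
    h1.2.mono hT hQ fun x hx => (mem_diff.1 hx).1
  obtain ⟨_, _, k, hk, k', hk', hv, hv', hkk⟩ := hp r hr r' hr' hlt
  obtain ⟨D, hD1, hD2, hD3⟩ := hQc k' hk' r' hr'
  refine ⟨D, hD1.1, hD1, ?_, ?_⟩
  · intro x hxQ hxv
    have hxX := hQ.sub hT x hxQ
    refine hD2 x hxQ ?_
    have hxp : x ∉ ap p (opair r r') := fun h =>
      (mem_diff.1 hxQ).2 (mem_Em.2 ⟨hxX, r, hr, r', hr', hrm, hrm', hlt, h⟩)
    have hkx' := (hH.cts k' hk').mem x hxX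
    by_contra hcon
    rw [hL.not_le hkx' (hB.aR r' hr')] at hcon
    exact hxp (hkk x hxX (Or.inl ((hv x).1 hxv).2) (Or.inl hcon))
  · intro x hx
    obtain ⟨h3, h4⟩ := hD3 x hx
    exact ⟨h3, (hv' x).2 ⟨hQ.sub hT x h3, h4⟩⟩

end

/-- STB: for all members of the cover at once, scale data -/
theorem stage_b {B : BS V} (hB : B.Ok) {X T N Cs j H : V} (hT : Top X T) (hN : Idl X N)
    (hcc : CC T) (hs : Sub Cs T) (hj : Cnt Cs j)
    (hne : ∀ C ∈ Cs, ∃ k, k ∈ ap H C)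
    (hH : ∀ C ∈ Cs, ∀ k ∈ ap H C, Cts X T B.R B.lt k ∧ (∀ x ∈ C, Le B.lt (ap k x) B.u) ∧
      (∀ r ∈ B.R, Lt B.lt r B.o → sb (fun y => Le B.lt (ap k y) r) X ∈ N) ∧
      ∀ k' ∈ ap H C, B.Same X k k') :
    ∃ v p d : V, ∀ C ∈ Cs,
      ScData X T N C B.R B.lt B.Q B.io (ap v C) (ap p C) (ap d C) := by
  have hL := hB.line
  have hCX : ∀ C ∈ Cs, Sub C X := fun C hC => hT.sub C (hs C hC)
  have hCl : ∀ C ∈ Cs, Cla B X T N C (ap H C) := fun C hC =>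
    ⟨fun k hk => (hH C hC k hk).1, fun k hk => (hH C hC k hk).2.1,
      fun k hk => (hH C hC k hk).2.2.1, fun k hk => (hH C hC k hk).2.2.2⟩
  obtain ⟨j1, hj1⟩ := cnt_prod hL.cnt hL.cnt
  obtain ⟨j2, hj2⟩ := cnt_prod (cnt_omega (V := V)) hj1
  obtain ⟨j3, hj3⟩ := cnt_prod hj hL.cnt
  obtain ⟨j4, hj4⟩ := cnt_prod hj hj1
  obtain ⟨j5, hj5⟩ := cnt_prod hj hj2
  -- round B
  obtain ⟨vv, hvv, hvv'⟩ := hcc _ _ hj3
    (fun π W => ∃ k ∈ ap H (p1 π), B.IsBelow X k (p2 π) W) inferInstance (by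
      intro π hπ
      obtain ⟨C, hC, q, hq, rfl⟩ := mem_prod.1 hπ
      obtain ⟨k, hk⟩ := hne C hC
      rw [p1_opair, p2_opair]
      refine ⟨sb (fun x => Lt B.lt (ap k x) (ap B.b q)) X,
        ((hCl C hC).cts k hk).below _ (hB.bR q hq), k, hk, fun x => mem_sb⟩)
  have hv1 : ∀ C ∈ Cs, ∀ q ∈ B.Q, ∃ k ∈ ap H C, B.IsBelow X k q (ap vv (opair C q)) := by
    intro C hC q hq
    have := (hvv' _ (opair_mem_prod.2 ⟨hC, hq⟩)).2
    rwa [p1_opair, p2_opair] at this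
  -- round C
  obtain ⟨pp, hpp, hpp'⟩ := hcc _ _ hj4
    (fun π W => Lt B.lt (p1 (p2 π)) (p2 (p2 π)) → (Clo X T W ∧ W ∈ N ∧ (∀ x ∈ p1 π, x ∉ W) ∧
      B.Cutt X T (ap H (p1 π)) W ∧ ∃ k ∈ ap H (p1 π), ∃ k' ∈ ap H (p1 π),
        B.IsBelow X k (p1 (p2 π)) (ap vv (opair (p1 π) (p1 (p2 π)))) ∧
        B.IsBelow X k' (p2 (p2 π)) (ap vv (opair (p1 π) (p2 (p2 π)))) ∧
        ∀ x ∈ X, Le B.lt (ap k x) (ap B.b (p1 (p2 π))) →
          Le B.lt (ap B.a (p2 (p2 π))) (ap k' x) → x ∈ W)) inferInstance (by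
      intro π hπ
      obtain ⟨C, hC, π', hπ', rfl⟩ := mem_prod.1 hπ
      obtain ⟨r, hr, r', hr', rfl⟩ := mem_prod.1 hπ'
      simp only [p1_opair, p2_opair]
      by_cases hlt : Lt B.lt r r'
      · obtain ⟨k, hk, hk1⟩ := hv1 C hC r hr
        obtain ⟨k', hk', hk1'⟩ := hv1 C hC r' hr'
        obtain ⟨P, hP, hP'⟩ := exists_p hB hT hN (hCX C hC) (hCl C hC) hk hk' hr hr' hlt hk1 hk1'
        exact ⟨P, hP, fun _ => hP'⟩
      · exact ⟨emp, hT.emp_mem, fun h => absurd h hlt⟩)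
  have hp1 : ∀ C ∈ Cs, ∀ r ∈ B.Q, ∀ r' ∈ B.Q, Lt B.lt r r' →
      Clo X T (ap pp (opair C (opair r r'))) ∧ ap pp (opair C (opair r r')) ∈ N ∧
      (∀ x ∈ C, x ∉ ap pp (opair C (opair r r'))) ∧
      B.Cutt X T (ap H C) (ap pp (opair C (opair r r'))) ∧ ∃ k ∈ ap H C, ∃ k' ∈ ap H C,
        B.IsBelow X k r (ap vv (opair C r)) ∧
        B.IsBelow X k' r' (ap vv (opair C r')) ∧
        ∀ x ∈ X, Le B.lt (ap k x) (ap B.b r) →
          Le B.lt (ap B.a r') (ap k' x) → x ∈ ap pp (opair C (opair r r')) := by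
    intro C hC r hr r' hr' hlt
    have := (hpp' _ (opair_mem_prod.2 ⟨hC, opair_mem_prod.2 ⟨hr, hr'⟩⟩)).2
    simp only [p1_opair, p2_opair] at this
    exact this hlt
  -- the functions
  have hv2 : ∀ C ∈ Cs, ap (lm Cs fun C => lm B.Q fun q => ap vv (opair C q)) C =
      lm B.Q fun q => ap vv (opair C q) := fun C hC =>
    ap_lm (F := fun C => lm B.Q fun q => ap vv (opair C q)) hC
  have hv3 : ∀ C ∈ Cs, ∀ q ∈ B.Q, ap (lm B.Q fun q => ap vv (opair C q)) q =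
      ap vv (opair C q) := fun C hC q hq => ap_lm (F := fun q => ap vv (opair C q)) hq
  have hp2 : ∀ C ∈ Cs, ap (lm Cs fun C => lm (prod B.Q B.Q) fun q => ap pp (opair C q)) C =
      lm (prod B.Q B.Q) fun q => ap pp (opair C q) := fun C hC =>
    ap_lm (F := fun C => lm (prod B.Q B.Q) fun q => ap pp (opair C q)) hC
  have hp3 : ∀ C ∈ Cs, ∀ r ∈ B.Q, ∀ r' ∈ B.Q,
      ap (lm (prod B.Q B.Q) fun q => ap pp (opair C q)) (opair r r') =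
      ap pp (opair C (opair r r')) := fun C hC r hr r' hr' =>
    ap_lm (F := fun q => ap pp (opair C q)) (opair_mem_prod.2 ⟨hr, hr'⟩)
  have hp4 : ∀ C ∈ Cs, ∀ r ∈ B.Q, ∀ r' ∈ B.Q, Lt B.lt r r' →
      Clo X T (ap (lm (prod B.Q B.Q) fun q => ap pp (opair C q)) (opair r r')) ∧
      B.Cutt X T (ap H C) (ap (lm (prod B.Q B.Q) fun q => ap pp (opair C q)) (opair r r')) ∧
      ∃ k ∈ ap H C, ∃ k' ∈ ap H C,
        B.IsBelow X k r (ap (lm B.Q fun q => ap vv (opair C q)) r) ∧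
        B.IsBelow X k' r' (ap (lm B.Q fun q => ap vv (opair C q)) r') ∧
        ∀ x ∈ X, Le B.lt (ap k x) (ap B.b r) →
          Le B.lt (ap B.a r') (ap k' x) →
            x ∈ ap (lm (prod B.Q B.Q) fun q => ap pp (opair C q)) (opair r r') := by
    intro C hC r hr r' hr' hlt
    rw [hp3 C hC r hr r' hr', hv3 C hC r hr, hv3 C hC r' hr']
    obtain ⟨h1, _, _, h4, h5⟩ := hp1 C hC r hr r' hr' hlt
    exact ⟨h1, h4, h5⟩
  -- round D
  obtain ⟨dd, hdd, hdd'⟩ := hcc _ _ hj5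
    (fun π W => (ap B.io (p1 (p2 (p2 π))) ∈ p1 (p2 π) ∧ ap B.io (p2 (p2 (p2 π))) ∈ p1 (p2 π) ∧
        Lt B.lt (p1 (p2 (p2 π))) (p2 (p2 (p2 π)))) →
      (Clo X T W ∧ (∀ x ∈ Qm X B.lt B.Q B.io (lm (prod B.Q B.Q) fun q => ap pp (opair (p1 π) q))
          (p1 (p2 π)), x ∈ ap vv (opair (p1 π) (p1 (p2 (p2 π)))) → x ∈ W) ∧
        ∀ x ∈ W, x ∈ Qm X B.lt B.Q B.io (lm (prod B.Q B.Q) fun q => ap pp (opair (p1 π) q))
          (p1 (p2 π)) ∧ x ∈ ap vv (opair (p1 π) (p2 (p2 (p2 π)))))) inferInstance (by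
      intro π hπ
      obtain ⟨C, hC, π', hπ', rfl⟩ := mem_prod.1 hπ
      obtain ⟨m, hm, π'', hπ'', rfl⟩ := mem_prod.1 hπ'
      obtain ⟨r, hr, r', hr', rfl⟩ := mem_prod.1 hπ''
      simp only [p1_opair, p2_opair]
      by_cases h : ap B.io r ∈ m ∧ ap B.io r' ∈ m ∧ Lt B.lt r r'
      · obtain ⟨D, hD, hD'⟩ := exists_d (v := lm B.Q fun q => ap vv (opair C q)) hB hT (hCl C hC)
          hm hr hr' h.2.2 h.1 h.2.1 (hp4 C hC)
        rw [hv3 C hC r hr, hv3 C hC r' hr'] at hD'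
        exact ⟨D, hD, fun _ => hD'⟩
      · exact ⟨emp, hT.emp_mem, fun h' => absurd h' h⟩)
  have hd2 : ∀ C ∈ Cs, ap (lm Cs fun C => lm (prod omega (prod B.Q B.Q)) fun q =>
      ap dd (opair C q)) C = lm (prod omega (prod B.Q B.Q)) fun q => ap dd (opair C q) :=
    fun C hC => ap_lm (F := fun C => lm (prod omega (prod B.Q B.Q)) fun q => ap dd (opair C q)) hC
  refine ⟨lm Cs fun C => lm B.Q fun q => ap vv (opair C q),
    lm Cs fun C => lm (prod B.Q B.Q) fun q => ap pp (opair C q),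
    lm Cs fun C => lm (prod omega (prod B.Q B.Q)) fun q => ap dd (opair C q), fun C hC => ?_⟩
  rw [hv2 C hC, hp2 C hC, hd2 C hC]
  have hvp : ∀ q ∈ B.Q, ap vv (opair C q) ∈ T ∧ ap vv (opair C q) ∈ N ∧
      Sub C (ap vv (opair C q)) := by
    intro q hq
    obtain ⟨k, hk, hk'⟩ := hv1 C hC q hq
    exact v_props hB hN (hCX C hC) (hCl C hC) hk hq hk'
  constructor
  · intro r hr
    rw [hv3 C hC r hr]; exact (hvp r hr).1
  · intro r hr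
    rw [hv3 C hC r hr]; exact (hvp r hr).2.1
  · intro r hr
    rw [hv3 C hC r hr]; exact (hvp r hr).2.2
  · intro r hr r' hr' hlt
    rw [hp3 C hC r hr r' hr']; exact (hp1 C hC r hr r' hr' hlt).1
  · intro r hr r' hr' hlt
    rw [hp3 C hC r hr r' hr']; exact (hp1 C hC r hr r' hr' hlt).2.1
  · intro r hr r' hr' hlt
    rw [hp3 C hC r hr r' hr']; exact (hp1 C hC r hr r' hr' hlt).2.2.1
  · intro r hr r' hr' hlt x hx hxp
    rw [hv3 C hC r hr] at hx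
    rw [hp3 C hC r hr r' hr'] at hxp
    rw [hv3 C hC r' hr']
    obtain ⟨_, _, _, _, k, hk, k', hk', h1, h2, h3⟩ := hp1 C hC r hr r' hr' hlt
    obtain ⟨hxX, hx1⟩ := (h1 x).1 hx
    have hkx' := ((hCl C hC).cts k' hk').mem x hxX
    refine (h2 x).2 ⟨hxX, ?_⟩
    by_contra hcon
    rw [hL.not_lt hkx' (hB.bR r' hr')] at hcon
    refine hxp (h3 x hxX (Or.inl hx1) (hL.le_trans (hB.aR r' hr') (hB.bR r' hr') hkx' ?_ hcon))
    have h4 := hB.eb r' hr' emp emp_mem_omega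
    rw [hB.e0 r' hr'] at h4
    exact Or.inl h4
  · intro r hr r' hr' hlt x hxX hxp hxv
    rw [hv3 C hC r' hr'] at hxv
    rw [hp3 C hC r hr r' hr'] at hxp
    rw [hv3 C hC r hr]
    obtain ⟨_, _, _, _, k, hk, k', hk', h1, h2, h3⟩ := hp1 C hC r hr r' hr' hlt
    have hkx := ((hCl C hC).cts k hk).mem x hxX
    have hkx' := ((hCl C hC).cts k' hk').mem x hxX
    have h5 : ¬ Lt B.lt (ap k' x) (ap B.b r') := fun h => hxv ((h2 x).2 ⟨hxX, h⟩)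
    rw [hL.not_lt hkx' (hB.bR r' hr')] at h5
    have h4 := hB.eb r' hr' emp emp_mem_omega
    rw [hB.e0 r' hr'] at h4
    have h6 : Le B.lt (ap B.a r') (ap k' x) :=
      hL.le_trans (hB.aR r' hr') (hB.bR r' hr') hkx' (Or.inl h4) h5
    have h7 : ¬ Le B.lt (ap k x) (ap B.b r) := fun h => hxp (h3 x hxX h h6)
    rw [hL.not_le hkx (hB.bR r hr)] at h7
    refine ⟨sb (fun x => Lt B.lt (ap B.b r) (ap k x)) X,
      ((hCl C hC).cts k hk).above _ (hB.bR r hr), mem_sb.2 ⟨hxX, h7⟩, fun y hy hyv => ?_⟩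
    obtain ⟨hyX, hy⟩ := mem_sb.1 hy
    have h8 := ((h1 y).1 hyv).2
    have hky := ((hCl C hC).cts k hk).mem y hyX
    exact hL.irr _ hky (hL.trans _ hky _ (hB.bR r hr) _ hky h8 hy)
  · intro m hm r hr r' hr' hrm hrm' hlt
    rw [hv3 C hC r hr, hv3 C hC r' hr', ap_lm (F := fun q => ap dd (opair C q))
      (opair_mem_prod.2 ⟨hm, opair_mem_prod.2 ⟨hr, hr'⟩⟩)]
    have := (hdd' _ (opair_mem_prod.2 ⟨hC, opair_mem_prod.2 ⟨hm, opair_mem_prod.2 ⟨hr, hr'⟩⟩⟩)).2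
    simp only [p1_opair, p2_opair] at this
    exact this ⟨hrm, hrm', hlt⟩

end

end Pool.Agent.ZT
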