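import Pool.Agent.Lib_helper91.ZT.TopB
import Pool.Agent.Lib_helper91.ZT.Cov
import Pool.Agent.Lib_helper91.ZT.Seq
import Pool.Agent.Lib_helper91.ZT.Cho
import Pool.Agent.Lib_helper91.ZT.Blk
import Pool.Agent.Lib_helper91.ZT.Bar
import Pool.Agent.Lib_helper91.ZT.Cut
import Pool.Agent.Lib_helper91.ZT.Sta
import Pool.Agent.Lib_helper91.ZT.Stb
import Pool.Agent.Lib_helper91.ZT.Sca
import Pool.Agent.Lib_helper91.ZT.Fin
import Pool.Agent.Lib_helper91.ZT.Bri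
import Pool.Agent.Lib_helper91.ZT.Emb
import Pool.Agent.Lib_helper91.ZT.ReaB

/-!
# The main lemma and the theorem
-/

set_option linter.unusedSectionVars false
set_option linter.unusedVariables false

universe u

namespace Pool.Agent.ZT

open FirstOrder Language Pool.Agent.ZF1

section
variable {V : Type u} [Lset.Structure V] [IsZF V]

theorem main_lemma {X T N R lt Q io u o : V} (hT : Top X T) (h1 : T1 X T) (hH : Haus X T)
    (hL : Lind X T) (hN : Idl X N) (hR : Line R lt Q io) (hu : u ∈ R) (ho : o ∈ R)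
    (huo : Lt lt u o)
    (hk : ∀ x ∈ X, ∃ k, Cts X T R lt k ∧ Lt lt (ap k x) u ∧
      ∀ r ∈ R, Lt lt r o → sb (fun y => Le lt (ap k y) r) X ∈ N) :
    ∃ G, Cts X T R lt G ∧ ∀ r ∈ R, sb (fun y => Lt lt (ap G y) r) X ∈ N := by
  obtain ⟨Cs, j, hCsT, hj, hcov, hgood⟩ := exists_cover hT hL hR hu hk
  have hCN : ∀ C ∈ Cs, C ∈ N := by
    intro C hC
    obtain ⟨k, _, hku, hkN⟩ := hgood C hC
    refine hN.mono _ (hkN u hu huo) _ fun x hx => ?_
    exact mem_sb.2 ⟨hT.sub C (hCsT C hC) x hx, hku x hx⟩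
  obtain ⟨U, hU, hUc⟩ := exists_incr hT hN hCsT hj hcov hCN
  obtain ⟨y, z, hy, hz, hyzX, hyi, hzi, hyz, hcl⟩ := exists_seq hT h1 hL hU hUc
  have hcc : CC T := cc_of_seq hT hH hL hy hz hyzX hyi hzi hyz hcl
  obtain ⟨a, b, e, col, hB⟩ := exists_blocks hR hu ho huo
  obtain ⟨K, hK⟩ := exists_cx X T R lt
  obtain ⟨H, hHf, hH'⟩ := stage_a hB hT hcc hj
    (fun C k => (∀ x ∈ C, Le lt (ap k x) u) ∧
      ∀ r ∈ R, Lt lt r o → sb (fun y => Le lt (ap k y) r) X ∈ N)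
    (fun k hk => (hK k).1 hk) (fun C hC => by
      obtain ⟨k, h1, h2, h3⟩ := hgood C hC
      exact ⟨k, (hK k).2 h1, h2, h3⟩)
  obtain ⟨v, p, d, hsc⟩ := stage_b (H := H) hB hT hN hcc hCsT hj (fun C hC => (hH' C hC).1)
    (fun C hC k hk => by
      obtain ⟨h2, h3, h4⟩ := (hH' C hC).2 k hk
      exact ⟨(hK k).1 h2, h3.1, h3.2, h4⟩)
  have hDF : DF (fun w : ℕ → V => Wt X lt Q io (ap v (p1 (w 0))) (ap p (p1 (w 0)))
    (ap d (p1 (w 0))) (p2 (w 0))) := inferInstance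
  have hW : ∀ C ∈ Cs, ∀ t ∈ Q, ap (lm (prod Cs Q) fun π => Wt X lt Q io (ap v (p1 π))
      (ap p (p1 π)) (ap d (p1 π)) (p2 π)) (opair C t) =
      Wt X lt Q io (ap v C) (ap p C) (ap d C) t := by
    intro C hC t ht
    rw [ap_lm (F := fun π => Wt X lt Q io (ap v (p1 π))
      (ap p (p1 π)) (ap d (p1 π)) (p2 π)) (opair_mem_prod.2 ⟨hC, ht⟩), p1_opair, p2_opair]
  have hS : ∀ C ∈ Cs, _ := fun C hC =>
    scale hT hN hR (hT.sub C (hCsT C hC)) (hsc C hC)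
  refine final_function (W := lm (prod Cs Q) fun π => Wt X lt Q io (ap v (p1 π))
      (ap p (p1 π)) (ap d (p1 π)) (p2 π)) hT hN hR hj hcov ?_ ?_
  · intro C hC t ht
    rw [hW C hC t ht]
    exact ⟨(hS C hC).1 t ht, (hS C hC).2.1 t ht, (hS C hC).2.2.1 t ht⟩
  · intro C hC t ht t' ht' htt
    rw [hW C hC t ht, hW C hC t' ht']
    exact (hS C hC).2.2.2 t ht t' ht' htt

end

theorem main {V : Type u} [Lset.Structure V] (hV : ModelsZF V) (R lt S z o X T : V)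
    (hR : IsRealLine R lt) (hS : IsOrderTopology R lt S) (hz : z ∈ R) (ho : o ∈ R)
    (hzo : OMem z o lt) (hT : IsTopology X T) (h1 : IsT1 X T)
    (hcr : IsCompletelyRegular X T R lt S z o) (hL : IsLindelof X T) :
    IsRealcompact X T R S := by
  have _ : IsZF V := isZF_of_modelsZF hV
  have hT' := top_of hT
  have h1' := t1_of hT' h1
  have hL' : Lind X T := by
    intro F hF hc
    obtain ⟨G, hG, hcnt, hGc⟩ := hL F hF hc
    obtain ⟨j, hj⟩ := cnt_of hcnt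
    exact ⟨G, j, hG, hj, hGc⟩
  obtain ⟨Q, io, hR'⟩ := line_of hR
  have hzo' : Lt lt z o := oMem_iff.1 hzo
  have hH := haus_of hT' h1' hR' hS hz ho hzo' hcr
  obtain ⟨u, hu, hzu, huo⟩ := hR'.dense z hz o ho hzo'
  refine realcompact_of hT' h1' hR' hS hz ho hzo' hcr ?_
  intro J P TP E p hJ hP hTP hE hE' hp hpE
  by_contra hcon
  push Not at hcon
  obtain ⟨N, hN, hk, hG⟩ := exists_ideal hT' hR' hS hz ho hzo' hcr hJ hP hTP hE hE' hp hpE hcon
  obtain ⟨G, hG1, hG2⟩ := main_lemma hT' h1' hH hL' hN hR' (hR'.sub u hu) ho huo (fun x hx => by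
    obtain ⟨k, h2, h3, h4⟩ := hk x hx
    exact ⟨k, h2, h3 ▸ hzu, h4⟩)
  obtain ⟨r, hr, hr'⟩ := hG G hG1
  exact hr' (hG2 r hr)

/-- non-vacuity: the real line exists in every model of ZF -/
theorem main_exists {V : Type u} [Lset.Structure V] (hV : ModelsZF V) :
    ∃ R lt S z o : V, IsRealLine R lt ∧ IsOrderTopology R lt S ∧ z ∈ R ∧ o ∈ R ∧
      OMem z o lt := by
  have _ : IsZF V := isZF_of_modelsZF hV
  obtain ⟨R, lt, hR⟩ := exists_realLine (V := V)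
  obtain ⟨Q, io, hR'⟩ := line_of hR
  obtain ⟨z, hz⟩ := hR'.ne
  obtain ⟨o, ho, hzo⟩ := hR'.top z hz
  obtain ⟨S, hS⟩ := exists_coarsest R (fun U => ∃ a ∈ R,
    (∀ z, z ∈ U ↔ z ∈ R ∧ OMem a z lt) ∨ (∀ z, z ∈ U ↔ z ∈ R ∧ OMem z a lt)) (by
      rintro U ⟨a, _, h | h⟩ x hx
      · exact ((h x).1 hx).1
      · exact ((h x).1 hx).1)
  exact ⟨R, lt, S, z, o, hR, hS, hz, ho, oMem_iff.2 hzo⟩

end Pool.Agent.ZT
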