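import Pool.Agent.Lib_helper91.ZT.TolB

/-!
# Block REA1
-/

set_option linter.unusedSectionVars false
set_option linter.unusedVariables false

universe u

namespace Pool.Agent.ZT

open FirstOrder Language Pool.Agent.ZF1

section
variable {V : Type u} [Lset.Structure V] [IsZF V]

/-! ## Block REA: the real line exists -/

/-- one step of the numbering of the finite sets of natural numbers -/
noncomputable def reaStep (k n g s : V) : V :=
  ap k (opair (sb (fun _ => n ∈ s) (succ emp)) (ap g (diff s (sing n))))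

instance {t1 t2 t3 t4 : (ℕ → V) → V} [h1 : DF t1] [h2 : DF t2] [h3 : DF t3] [h4 : DF t4] :
    DF (fun v => reaStep (t1 v) (t2 v) (t3 v) (t4 v)) :=
  DF.comp4 (by unfold reaStep; infer_instance) h1 h2 h3 h4

theorem rea_flag {n s n' s' : V} (h : sb (fun _ => n ∈ s) (succ (emp : V)) =
    sb (fun _ => n' ∈ s') (succ emp)) : n ∈ s ↔ n' ∈ s' := by
  have h1 : ∀ n s : V, (emp : V) ∈ sb (fun _ => n ∈ s) (succ (emp : V)) ↔ n ∈ s := by
    intro n s
    rw [mem_sb (Q := fun _ => n ∈ s)]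
    exact ⟨fun h => h.2, fun h => ⟨mem_succ.2 (Or.inr rfl), h⟩⟩
  rw [← h1 n s, ← h1 n' s', h]

theorem rea_flag_mem (n s : V) : sb (fun _ => n ∈ s) (succ (emp : V)) ∈ (omega : V) := by
  by_cases h : n ∈ s
  · have : sb (fun _ => n ∈ s) (succ (emp : V)) = succ emp := ext fun z => by
      rw [mem_sb (Q := fun _ => n ∈ s)]
      exact ⟨fun h' => h'.1, fun h' => ⟨h', h⟩⟩
    rw [this]
    exact succ_mem_omega emp_mem_omega
  · have : sb (fun _ => n ∈ s) (succ (emp : V)) = emp := ext fun z => by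
      rw [mem_sb (Q := fun _ => n ∈ s)]
      exact ⟨fun h' => absurd h'.2 h, fun h' => absurd h' (not_mem_emp z)⟩
    rw [this]
    exact emp_mem_omega

theorem rea_cnt_omega : Cnt (omega : V) (lm omega (fun x => x)) := by
  have h : ∀ x ∈ (omega : V), ap (lm omega (fun x => x)) x = x := fun x hx =>
    ap_lm (F := fun x => x) hx
  refine ⟨fun x hx => ?_, fun x hx y hy e => ?_⟩
  · rw [h x hx]; exact hx
  · rw [h x hx, h y hy] at e; exact e

/-- numbering of the subsets of the natural numbers `n` -/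
theorem rea_num : ∃ k G : V, Cnt (prod (omega : V) omega) k ∧ ∀ n ∈ (omega : V),
    (∀ s, Sub s n → ap (ap G n) s ∈ (omega : V)) ∧
    ∀ s, Sub s n → ∀ s', Sub s' n → ap (ap G n) s = ap (ap G n) s' → s = s' := by
  obtain ⟨k, hk⟩ := cnt_prod (rea_cnt_omega (V := V)) (rea_cnt_omega (V := V))
  obtain ⟨G, hG, hG0, hGs⟩ := exists_rec (lm (pow (emp : V)) (fun _ => emp))
    (fun n g => lm (pow (succ n)) (fun s => reaStep k n g s))
  refine ⟨k, G, hk, ?_⟩
  refine nat_ind (Q := fun n => (∀ s, Sub s n → ap (ap G n) s ∈ (omega : V)) ∧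
    ∀ s, Sub s n → ∀ s', Sub s' n → ap (ap G n) s = ap (ap G n) s' → s = s') ?_ ?_
  · rw [hG0]
    refine ⟨fun s hs => ?_, fun s hs s' hs' _ => ?_⟩
    · rw [ap_lm (F := fun _ => (emp : V)) (mem_pow.2 hs)]
      exact emp_mem_omega
    · rw [sub_emp hs, sub_emp hs']
  · rintro n hn ⟨ih1, ih2⟩
    have hval : ∀ s, Sub s (succ n) → ap (ap G (succ n)) s = reaStep k n (ap G n) s := by
      intro s hs
      rw [hGs n hn]
      exact ap_lm (F := fun s => reaStep k n (ap G n) s) (mem_pow.2 hs)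
    have hdiff : ∀ s, Sub s (succ n) → Sub (diff s (sing n)) n := by
      intro s hs z hz
      obtain ⟨h1, h2⟩ := mem_diff.1 hz
      rcases mem_succ.1 (hs z h1) with h | h
      · exact h
      · exact absurd (mem_sing.2 h) h2
    have hmem : ∀ s, Sub s (succ n) → opair (sb (fun _ => n ∈ s) (succ (emp : V)))
        (ap (ap G n) (diff s (sing n))) ∈ prod (omega : V) omega := fun s hs =>
      opair_mem_prod.2 ⟨rea_flag_mem n s, ih1 _ (hdiff s hs)⟩
    refine ⟨fun s hs => ?_, fun s hs s' hs' e => ?_⟩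
    · rw [hval s hs]
      exact hk.1 _ (hmem s hs)
    · rw [hval s hs, hval s' hs'] at e
      have e1 := hk.2 _ (hmem s hs) _ (hmem s' hs') e
      obtain ⟨e2, e3⟩ := opair_inj.1 e1
      have e4 := rea_flag e2
      have e5 := ih2 _ (hdiff s hs) _ (hdiff s' hs') e3
      refine ext fun z => ?_
      by_cases hz : z = n
      · rw [hz]; exact e4
      · have h1 : ∀ s : V, z ∈ s ↔ z ∈ diff s (sing n) := fun s => by
          rw [mem_diff, mem_sing]
          exact ⟨fun h => ⟨h, hz⟩, fun h => h.1⟩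
        rw [h1 s, h1 s', e5]

/-- the finite non-empty sets of natural numbers -/
noncomputable def reaD : V := sb (fun x => Kfin x ∧ x ≠ emp) (pow omega)

theorem mem_reaD {x : V} : x ∈ (reaD : V) ↔ Sub x omega ∧ Kfin x ∧ x ≠ emp := by
  unfold reaD
  rw [mem_sb (Q := fun x => Kfin x ∧ x ≠ emp), ZF1.mem_pow]

theorem rea_cntD : ∃ j : V, Cnt reaD j := by
  obtain ⟨k, G, hk, hG⟩ := rea_num (V := V)
  obtain ⟨j, hj, hj'⟩ := exists_fn (reaD : V) (fun s y => ∃ m ∈ (omega : V), Sub s m ∧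
    (∀ m' ∈ (omega : V), Sub s m' → m = m' ∨ m ∈ m') ∧ y = ap k (opair m (ap (ap G m) s))) (by
    intro s hs
    obtain ⟨h1, h2, _⟩ := mem_reaD.1 hs
    obtain ⟨m, hm, h3, h4⟩ := exists_min (V := V) (fun m => Sub s m) (kfin_bdd h2 h1)
    refine ⟨_, ⟨m, hm, h3, h4, rfl⟩, ?_⟩
    rintro y ⟨m', hm', h3', h4', rfl⟩
    have : m' = m := by
      rcases h4 m' hm' h3' with e | e
      · exact e.symm
      · rcases h4' m hm h3 with e' | e'
        · exact e'
        · exact (not_mem_mem e e').elim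
    rw [this])
  refine ⟨j, fun s hs => ?_, fun s hs s' hs' e => ?_⟩
  · obtain ⟨m, hm, h1, _, h3⟩ := hj' s hs
    rw [h3]
    exact hk.1 _ (opair_mem_prod.2 ⟨hm, (hG m hm).1 s h1⟩)
  · obtain ⟨m, hm, h1, _, h3⟩ := hj' s hs
    obtain ⟨m', hm', h1', _, h3'⟩ := hj' s' hs'
    rw [h3, h3'] at e
    have e1 := hk.2 _ (opair_mem_prod.2 ⟨hm, (hG m hm).1 s h1⟩) _
      (opair_mem_prod.2 ⟨hm', (hG m' hm').1 s' h1'⟩) e
    obtain ⟨e2, e3⟩ := opair_inj.1 e1
    subst e2
    exact (hG m hm).2 s h1 s' h1' e3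

/-- the order of finite sets by the least element of the symmetric difference -/
def ReaLess (x y : V) : Prop := ∃ m ∈ y, m ∉ x ∧ ∀ i ∈ m, (i ∈ x ↔ i ∈ y)

instance {t s : (ℕ → V) → V} [ht : DF t] [hs : DF s] : DP (fun v => ReaLess (t v) (s v)) :=
  DP.comp2 (by unfold ReaLess; infer_instance) ht hs

/-- the order as a set -/
noncomputable def reaLe : V :=
  sb (fun p => ∃ x ∈ (reaD : V), ∃ y ∈ (reaD : V), p = opair x y ∧ ReaLess x y) (prod reaD reaD)

theorem rea_lt_iff {x y : V} : Lt reaLe x y ↔ x ∈ (reaD : V) ∧ y ∈ (reaD : V) ∧ ReaLess x y := by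
  unfold Lt reaLe
  rw [mem_sb (Q := fun p => ∃ x ∈ (reaD : V), ∃ y ∈ (reaD : V), p = opair x y ∧ ReaLess x y)]
  constructor
  · rintro ⟨_, x', hx', y', hy', e, h⟩
    obtain ⟨rfl, rfl⟩ := opair_inj.1 e
    exact ⟨hx', hy', h⟩
  · rintro ⟨hx, hy, h⟩
    exact ⟨opair_mem_prod.2 ⟨hx, hy⟩, x, hx, y, hy, rfl, h⟩

theorem rea_up {x k : V} (hx : x ∈ (reaD : V)) (hk : k ∈ (omega : V)) (h : ∀ n ∈ x, n ∈ k) :
    ins x k ∈ (reaD : V) ∧ ReaLess x (ins x k) := by
  obtain ⟨h1, h2, _⟩ := mem_reaD.1 hx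
  refine ⟨mem_reaD.2 ⟨?_, kfin_ins h2 k, ?_⟩, k, mem_ins_self x k, ?_, ?_⟩
  · intro z hz
    rcases mem_ins.1 hz with hz | hz
    · exact h1 z hz
    · rw [hz]; exact hk
  · intro e
    exact not_mem_emp k (e ▸ mem_ins_self x k)
  · intro hkx
    exact not_mem_self k (h k hkx)
  · intro i hi
    rw [mem_ins]
    refine ⟨Or.inl, fun h' => ?_⟩
    rcases h' with h' | h'
    · exact h'
    · rw [h'] at hi
      exact absurd hi (not_mem_self k)

/-- REA1: a countable dense linear order without end points -/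
theorem exists_dense_order : ∃ D le j : V, Cnt D j ∧ (∃ x, x ∈ D) ∧
    (∀ x ∈ D, ¬ Lt le x x) ∧
    (∀ x ∈ D, ∀ y ∈ D, ∀ z ∈ D, Lt le x y → Lt le y z → Lt le x z) ∧
    (∀ x ∈ D, ∀ y ∈ D, Lt le x y ∨ x = y ∨ Lt le y x) ∧
    (∀ x ∈ D, (∃ y ∈ D, Lt le y x) ∧ ∃ y ∈ D, Lt le x y) ∧
    ∀ x ∈ D, ∀ y ∈ D, Lt le x y → ∃ z ∈ D, Lt le x z ∧ Lt le z y := by
  obtain ⟨j, hj⟩ := rea_cntD (V := V)
  refine ⟨reaD, reaLe, j, hj, ?_, ?_, ?_, ?_, ?_, ?_⟩
  · refine ⟨sing emp, mem_reaD.2 ⟨?_, kfin_sing emp, ?_⟩⟩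
    · intro z hz
      rw [mem_sing.1 hz]
      exact emp_mem_omega
    · intro e
      exact not_mem_emp emp (e ▸ mem_sing.2 rfl)
  · intro x hx h
    obtain ⟨_, _, m, h1, h2, _⟩ := rea_lt_iff.1 h
    exact h2 h1
  · intro x hx y hy z hz hxy hyz
    obtain ⟨_, _, m, h1, h2, h3⟩ := rea_lt_iff.1 hxy
    obtain ⟨_, _, m', h1', h2', h3'⟩ := rea_lt_iff.1 hyz
    have hm : m ∈ (omega : V) := (mem_reaD.1 hy).1 m h1
    have hm' : m' ∈ (omega : V) := (mem_reaD.1 hz).1 m' h1'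
    refine rea_lt_iff.2 ⟨hx, hz, ?_⟩
    rcases nat_tri hm' m hm with h | h | h
    · refine ⟨m, (h3' m h).1 h1, h2, fun i hi => ?_⟩
      exact (h3 i hi).trans (h3' i (nat_lt_trans hm' hi h))
    · exact absurd (h ▸ h1) h2'
    · refine ⟨m', h1', fun hx' => h2' ((h3 m' h).1 hx'), fun i hi => ?_⟩
      exact (h3 i (nat_lt_trans hm hi h)).trans (h3' i hi)
  · intro x hx y hy
    by_cases hxy : x = y
    · exact Or.inr (Or.inl hxy)
    · have hx1 := (mem_reaD.1 hx).1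
      have hy1 := (mem_reaD.1 hy).1
      have hex : ∃ n ∈ (omega : V), ¬ (n ∈ x ↔ n ∈ y) := by
        by_contra hcon
        push Not at hcon
        apply hxy
        refine ext fun z => ⟨fun hz => ?_, fun hz => ?_⟩
        · exact (hcon z (hx1 z hz)).1 hz
        · exact (hcon z (hy1 z hz)).2 hz
      obtain ⟨m, hm, h1, h2⟩ := exists_min (V := V) (fun n => ¬ (n ∈ x ↔ n ∈ y)) hex
      have h3 : ∀ i ∈ m, (i ∈ x ↔ i ∈ y) := by
        intro i hi
        by_contra hcon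
        rcases h2 i (omega_trans hm i hi) hcon with e | e
        · rw [e] at hi
          exact not_mem_self i hi
        · exact not_mem_mem hi e
      by_cases hmx : m ∈ x
      · have hmy : m ∉ y := fun hmy => h1 ⟨fun _ => hmy, fun _ => hmx⟩
        exact Or.inr (Or.inr (rea_lt_iff.2 ⟨hy, hx, m, hmx, hmy, fun i hi => (h3 i hi).symm⟩))
      · have hmy : m ∈ y := by
          by_contra hmy
          exact h1 ⟨fun h => absurd h hmx, fun h => absurd h hmy⟩
        exact Or.inl (rea_lt_iff.2 ⟨hx, hy, m, hmy, hmx, h3⟩)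
  · intro x hx
    obtain ⟨h1, h2, h3⟩ := mem_reaD.1 hx
    constructor
    · obtain ⟨a, ha⟩ := (eq_emp_or x).resolve_left h3
      obtain ⟨m, hm, h4, h5⟩ := exists_min (V := V) (fun n => n ∈ x) ⟨a, h1 a ha, ha⟩
      have hlow : ∀ i ∈ m, i ∉ x := by
        intro i hi hix
        rcases h5 i (h1 i hix) hix with e | e
        · rw [e] at hi
          exact not_mem_self i hi
        · exact not_mem_mem hi e
      have hmem : sing (succ m) ∈ (reaD : V) := mem_reaD.2 ⟨fun z hz => by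
          rw [mem_sing.1 hz]
          exact succ_mem_omega hm, kfin_sing _, fun e =>
          not_mem_emp (succ m) (e ▸ mem_sing.2 rfl)⟩
      refine ⟨sing (succ m), hmem, rea_lt_iff.2 ⟨hmem, hx, m, h4, ?_, ?_⟩⟩
      · intro h
        have e := mem_sing.1 h
        have h6 : m ∈ succ m := mem_succ.2 (Or.inr rfl)
        rw [← e] at h6
        exact not_mem_self m h6
      · intro i hi
        refine ⟨fun h => ?_, fun h => absurd h (hlow i hi)⟩
        have e := mem_sing.1 h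
        rw [e] at hi
        exact (not_mem_mem hi (mem_succ.2 (Or.inr rfl))).elim
    · obtain ⟨k, hk, h4⟩ := kfin_bdd h2 h1
      obtain ⟨h5, h6⟩ := rea_up hx hk h4
      exact ⟨ins x k, h5, rea_lt_iff.2 ⟨hx, h5, h6⟩⟩
  · intro x hx y hy hxy
    obtain ⟨h1, h2, _⟩ := mem_reaD.1 hx
    obtain ⟨h1', h2', _⟩ := mem_reaD.1 hy
    obtain ⟨_, _, m, hm1, hm2, hm3⟩ := rea_lt_iff.1 hxy
    obtain ⟨k, hk, h4⟩ := kfin_bdd (kfin_un h2 h2') (fun z hz => (mem_un.1 hz).elim (h1 z) (h1' z))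
    obtain ⟨h5, h6⟩ := rea_up hx hk (fun n hn => h4 n (mem_un.2 (Or.inl hn)))
    have hmk : m ∈ k := h4 m (mem_un.2 (Or.inr hm1))
    refine ⟨ins x k, h5, rea_lt_iff.2 ⟨hx, h5, h6⟩, rea_lt_iff.2 ⟨h5, hy, m, hm1, ?_, ?_⟩⟩
    · intro h
      rcases mem_ins.1 h with h | h
      · exact hm2 h
      · rw [h] at hmk
        exact not_mem_self k hmk
    · intro i hi
      rw [← hm3 i hi, mem_ins]
      refine ⟨fun h => ?_, Or.inl⟩
      rcases h with h | h
      · exact h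
      · rw [h] at hi
        exact (not_mem_mem hi hmk).elim

end

end Pool.Agent.ZT
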