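import Pool.Agent.Lib_helper91.ZT.TopB

/-!
# Block TOLA (recursion, enumeration)
-/

set_option linter.unusedSectionVars false
set_option linter.unusedVariables false

universe u

namespace Pool.Agent.ZT

open FirstOrder Language Pool.Agent.ZF1

section
variable {V : Type u} [Lset.Structure V] [IsZF V]

/-! ## Block TOL: tools -/

/-- extending a function by one pair -/
theorem IsFn.insert {f I a y J : V} (hf : IsFn f I) (ha : a ∉ I) (hJ : ∀ z, z ∈ J ↔ z ∈ I ∨ z = a) :
    IsFn (ins f (opair a y)) J ∧ ap (ins f (opair a y)) a = y ∧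
      ∀ i ∈ I, ap (ins f (opair a y)) i = ap f i := by
  have h1 : IsFn (ins f (opair a y)) J := by
    constructor
    · intro z hz
      rcases mem_ins.1 hz with hz | rfl
      · obtain ⟨x, hx, w, rfl⟩ := hf.1 z hz
        exact ⟨x, (hJ x).2 (Or.inl hx), w, rfl⟩
      · exact ⟨a, (hJ a).2 (Or.inr rfl), y, rfl⟩
    · intro x hx
      by_cases hxa : x = a
      · subst hxa
        refine ⟨y, mem_ins.2 (Or.inr rfl), fun w hw => ?_⟩
        rcases mem_ins.1 hw with hw | hw
        · obtain ⟨x', hx', w', e⟩ := hf.1 _ hw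
          obtain ⟨rfl, rfl⟩ := opair_inj.1 e
          exact absurd hx' ha
        · exact (opair_inj.1 hw).2
      · have hxI : x ∈ I := ((hJ x).1 hx).resolve_right hxa
        refine ⟨ap f x, mem_ins.2 (Or.inl (hf.ap_mem hxI)), fun w hw => ?_⟩
        rcases mem_ins.1 hw with hw | hw
        · exact (hf.ap_eq hw).symm
        · exact absurd (opair_inj.1 hw).1 hxa
  refine ⟨h1, h1.ap_eq (mem_ins.2 (Or.inr rfl)), fun i hi => ?_⟩
  exact h1.ap_eq (mem_ins.2 (Or.inl (hf.ap_mem hi)))

/-- TOL1: recursion -/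
theorem exists_rec (a : V) (F : V → V → V) [hF : DF (fun v => F (v 0) (v 1))] :
    ∃ s : V, IsFn s omega ∧ ap s emp = a ∧ ∀ n ∈ (omega : V), ap s (succ n) = F n (ap s n) := by
  have hF' : ∀ (t s : (ℕ → V) → V) [DF t] [DF s], DF (fun v => F (t v) (s v)) :=
    fun t s _ _ => DF.comp2 hF inferInstance inferInstance
  let Att : V → V → Prop := fun f n => IsFn f (succ n) ∧ ap f emp = a ∧
    ∀ i ∈ n, ap f (succ i) = F i (ap f i)
  have hAtt : DP (fun v : ℕ → V => Att (v 0) (v 1)) := by
    change DP (fun v : ℕ → V => IsFn (v 0) (succ (v 1)) ∧ ap (v 0) emp = a ∧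
      ∀ i ∈ v 1, ap (v 0) (succ i) = F i (ap (v 0) i))
    infer_instance
  have hAtt' : ∀ (t s : (ℕ → V) → V) [DF t] [DF s], DP (fun v => Att (t v) (s v)) :=
    fun t s _ _ => DP.comp2 hAtt inferInstance inferInstance
  -- extension
  have hext : ∀ n ∈ (omega : V), ∀ f, Att f n → ∃ f', Att f' (succ n) ∧
      ap f' (succ n) = F n (ap f n) := by
    intro n hn f ⟨h1, h2, h3⟩
    have hnot : succ n ∉ succ n := not_mem_self _
    obtain ⟨k1, k2, k3⟩ := h1.insert (y := F n (ap f n)) hnot (J := succ (succ n))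
      (fun z => mem_succ)
    refine ⟨_, ⟨k1, ?_, ?_⟩, k2⟩
    · rw [k3 emp, h2]
      rcases nat_emp_or (succ_mem_omega hn) with h | h
      · exact absurd h (succ_ne_emp n)
      · exact h
    · intro i hi
      have hin : i ∈ succ n := hi
      rcases mem_succ.1 hi with hi' | rfl
      · have : succ i ∈ succ n := by
          rcases nat_succ_le hn i hi' with h | h
          · exact mem_succ.2 (Or.inl h)
          · exact mem_succ.2 (Or.inr h)
        rw [k3 _ this, k3 _ hin]
        exact h3 i hi'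
      · rw [k2, k3 _ hin]
  have hex : ∀ n ∈ (omega : V), ∃ f, Att f n := by
    refine nat_ind (Q := fun n => ∃ f, Att f n) ?_ ?_
    · refine ⟨lm (succ emp) (fun _ => a), isFn_lm (F := fun _ => a), ?_, ?_⟩
      · exact ap_lm (F := fun _ => a) (mem_succ.2 (Or.inr rfl))
      · intro i hi; exact absurd hi (not_mem_emp i)
    · intro n hn ⟨f, hf⟩
      obtain ⟨f', hf', _⟩ := hext n hn f hf
      exact ⟨f', hf'⟩
  have huniq : ∀ n ∈ (omega : V), ∀ f f', Att f n → Att f' n → ap f n = ap f' n := by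
    intro n hn f f' h h'
    have key : ∀ i ∈ (omega : V), i ∈ succ n → ap f i = ap f' i := by
      refine nat_ind (Q := fun i => i ∈ succ n → ap f i = ap f' i) ?_ ?_
      · intro _
        rw [h.2.1, h'.2.1]
      · intro i hi ih his
        have hin : i ∈ n := by
          rcases mem_succ.1 his with h1 | h1
          · exact nat_lt_trans hn (mem_succ.2 (Or.inr rfl)) h1
          · rw [← h1]; exact mem_succ.2 (Or.inr rfl)
        rw [h.2.2 i hin, h'.2.2 i hin, ih (mem_succ.2 (Or.inl hin))]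
    exact key n hn (mem_succ.2 (Or.inr rfl))
  obtain ⟨s, hs, hs'⟩ := exists_fn (omega : V) (fun n y => ∃ f, Att f n ∧ ap f n = y) (by
    intro n hn
    obtain ⟨f, hf⟩ := hex n hn
    refine ⟨ap f n, ⟨f, hf, rfl⟩, ?_⟩
    rintro y ⟨f', hf', rfl⟩
    exact huniq n hn f' f hf' hf)
  refine ⟨s, hs, ?_, ?_⟩
  · obtain ⟨f, hf, h⟩ := hs' emp emp_mem_omega
    rw [← h, hf.2.1]
  · intro n hn
    obtain ⟨f, hf, h⟩ := hs' n hn
    obtain ⟨f', hf', h'⟩ := hs' (succ n) (succ_mem_omega hn)
    obtain ⟨f'', hf'', h''⟩ := hext n hn f hf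
    rw [← h', huniq _ (succ_mem_omega hn) f' f'' hf' hf'', h'', h]

/-- TOL2: unbounded sets of natural numbers can be enumerated -/
theorem exists_enum {N : V} (hN : Sub N omega) (hU : Unb N) : ∃ f : V, IsFn f omega ∧
    (∀ n ∈ (omega : V), ap f n ∈ N) ∧
    ∀ n ∈ (omega : V), ∀ m ∈ (omega : V), ap f n = ap f m → n = m := by
  obtain ⟨r0, hr0, h0, _⟩ := exists_min (fun s => s ∈ N) (by
    obtain ⟨n, hn, _⟩ := hU emp emp_mem_omega
    exact ⟨n, hN n hn, hn⟩)
  have hDF : DF (fun v : ℕ → V => the fun s => Nx N (v 1) s) :=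
    DF.the (P := fun s v => Nx N (v 1) s)
  obtain ⟨f, hf, hf0, hfs⟩ := exists_rec r0 (fun _ r => the fun s => Nx N r s)
  have hNx : ∀ r ∈ (omega : V), Nx N r (the fun s => Nx N r s) := by
    intro r hr
    obtain ⟨s, hs⟩ := exists_nx hN hU hr
    exact the_spec (P := fun s => Nx N r s) ⟨s, hs, fun y hy => nx_unique hN hU hy hs⟩
  have hfN : ∀ n ∈ (omega : V), ap f n ∈ N := by
    refine nat_ind (Q := fun n => ap f n ∈ N) ?_ ?_
    · rw [hf0]; exact h0
    · intro n hn ih
      rw [hfs n hn]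
      exact (hNx _ (hN _ ih)).1
  have hinc : ∀ n ∈ (omega : V), ap f n ∈ ap f (succ n) := by
    intro n hn
    rw [hfs n hn]
    exact (hNx _ (hN _ (hfN n hn))).2.1
  have hmono : ∀ m ∈ (omega : V), ∀ n ∈ m, ap f n ∈ ap f m := by
    refine nat_ind (Q := fun m => ∀ n ∈ m, ap f n ∈ ap f m) ?_ ?_
    · intro n hn; exact absurd hn (not_mem_emp n)
    · intro m hm ih n hn
      rcases mem_succ.1 hn with hn | rfl
      · exact nat_lt_trans (hN _ (hfN _ (succ_mem_omega hm))) (ih n hn) (hinc m hm)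
      · exact hinc _ hm
  refine ⟨f, hf, hfN, fun n hn m hm h => ?_⟩
  rcases nat_tri hm n hn with h1 | h1 | h1
  · have := hmono m hm n h1
    rw [h] at this
    exact absurd this (not_mem_self _)
  · exact h1
  · have := hmono n hn m h1
    rw [h] at this
    exact absurd this (not_mem_self _)

end

end Pool.Agent.ZT
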