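import Pool.Agent.Lib_helper1.ZF.Omega
import Pool.Agent.Lib_helper1.ZF.Models
import Pool.Agent.Lib_helper91.ZT.Defs

/-!
# Tools: descriptions, set builders, function application, all closed under definability
-/

set_option linter.unusedSectionVars false
set_option linter.unusedVariables false

universe u

namespace Pool.Agent.ZT

open FirstOrder Language Pool.Agent.ZF1

section
variable {V : Type u} [Lset.Structure V] [IsZF V]

/-! ### Composition of definable functions -/

/-- composition of definable functions -/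
theorem DF.comp1 {F : V → V} (h : DF (fun v => F (v 0))) {t : (ℕ → V) → V} (ht : DF t) :
    DF (fun v => F (t v)) := by
  refine ⟨?_⟩
  have ht' : DF (fun v => t (shift v)) := ht.rename (fun n => n + 1)
  exact DP.comp2 (R := fun y x => y = F x) h.out (DF.var 0) ht'

theorem DF.comp2 {F : V → V → V} (h : DF (fun v => F (v 0) (v 1))) {t s : (ℕ → V) → V}
    (ht : DF t) (hs : DF s) : DF (fun v => F (t v) (s v)) := by
  refine ⟨?_⟩
  have ht' : DF (fun v => t (shift v)) := ht.rename (fun n => n + 1)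
  have hs' : DF (fun v => s (shift v)) := hs.rename (fun n => n + 1)
  exact DP.comp3 (R := fun y x z => y = F x z) h.out (DF.var 0) ht' hs'

theorem DF.comp3 {F : V → V → V → V} (h : DF (fun v => F (v 0) (v 1) (v 2)))
    {t s r : (ℕ → V) → V} (ht : DF t) (hs : DF s) (hr : DF r) :
    DF (fun v => F (t v) (s v) (r v)) := by
  refine ⟨?_⟩
  have ht' : DF (fun v => t (shift v)) := ht.rename (fun n => n + 1)
  have hs' : DF (fun v => s (shift v)) := hs.rename (fun n => n + 1)
  have hr' : DF (fun v => r (shift v)) := hr.rename (fun n => n + 1)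
  exact DP.comp4 (R := fun y x z w => y = F x z w) h.out (DF.var 0) ht' hs' hr'

theorem DF.comp4 {F : V → V → V → V → V} (h : DF (fun v => F (v 0) (v 1) (v 2) (v 3)))
    {t s r q : (ℕ → V) → V} (ht : DF t) (hs : DF s) (hr : DF r) (hq : DF q) :
    DF (fun v => F (t v) (s v) (r v) (q v)) := by
  refine ⟨?_⟩
  have ht' : DF (fun v => t (shift v)) := ht.rename (fun n => n + 1)
  have hs' : DF (fun v => s (shift v)) := hs.rename (fun n => n + 1)
  have hr' : DF (fun v => r (shift v)) := hr.rename (fun n => n + 1)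
  have hq' : DF (fun v => q (shift v)) := hq.rename (fun n => n + 1)
  exact DP.comp5 (R := fun y x z w w' => y = F x z w w') h.out (DF.var 0) ht' hs' hr' hq'

/-! ### Descriptions -/

open Classical in
/-- the unique `y` with `P y`, and `∅` if there is none -/
noncomputable def the (P : V → Prop) : V := if h : ∃! y, P y then h.choose else emp

theorem the_spec {P : V → Prop} (h : ∃! y, P y) : P (the P) := by
  unfold the
  rw [dif_pos h]
  exact h.choose_spec.1

theorem the_eq {P : V → Prop} {y : V} (h : P y) (hu : ∀ z, P z → z = y) : the P = y :=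
  hu _ (the_spec ⟨y, h, hu⟩)

instance DF.the {P : V → (ℕ → V) → Prop} [h : DP (fun v => P (v 0) (shift v))] :
    DF (fun v => ZT.the (fun y => P y v)) := by
  refine ⟨?_⟩
  have h0 : DP (fun v => P (v 0) (shift v)) := h
  -- P with the first variable kept and the second one skipped
  have h1 : DP (fun v => P (v 0) (shift (shift v))) :=
    DP.rename (Q := fun v => P (v 0) (shift v)) h skipOne
  have h2 : DP (fun v : ℕ → V => P (v 0) (shift v) ∧ ∀ y, P y (shift v) → y = v 0) := by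
    have : DP (fun v : ℕ → V => ∀ y, P y (shift v) → y = v 0) :=
      DP.all' (P := fun y v => P y (shift v) → y = v 0) DP.imp
    exact DP.and
  have h3 : DP (fun v : ℕ → V => ∃! y, P y (shift v)) := by
    have e : DP (fun v : ℕ → V => ∃! y, P y v) := inferInstance
    exact e.rename (fun n => n + 1)
  have h4 : DP (fun v : ℕ → V => (P (v 0) (shift v) ∧ ∀ y, P y (shift v) → y = v 0) ∨
      (¬ (∃! y, P y (shift v)) ∧ v 0 = emp)) := inferInstance
  refine h4.congr fun v => ?_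
  constructor
  · rintro (⟨h5, h6⟩ | ⟨h5, h6⟩)
    · exact (the_eq (P := fun y => P y (shift v)) h5 h6).symm
    · unfold ZT.the
      rw [dif_neg h5]
      exact h6
  · intro h5
    by_cases h6 : ∃! y, P y (shift v)
    · left
      have h7 := the_spec h6
      rw [← h5] at h7
      exact ⟨h7, fun y hy => h6.unique hy h7⟩
    · right
      refine ⟨h6, ?_⟩
      rw [h5]
      unfold ZT.the
      rw [dif_neg h6]

/-! ### Set builders -/

/-- `{z ∈ a : Q z}` -/
noncomputable def sb (Q : V → Prop) (a : V) : V := the fun b => ∀ z, z ∈ b ↔ z ∈ a ∧ Q z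

theorem mem_sb {Q : V → Prop} [h : DP (fun v => Q (v 0))] {a z : V} :
    z ∈ sb Q a ↔ z ∈ a ∧ Q z := by
  have h1 : ∃! b : V, ∀ z, z ∈ b ↔ z ∈ a ∧ Q z :=
    ⟨sep Q a, fun z => mem_sep, fun b hb => ext fun z => (hb z).trans mem_sep.symm⟩
  exact the_spec h1 z

instance DF.sb {Q : V → (ℕ → V) → Prop} {a : (ℕ → V) → V}
    [h : DP (fun v => Q (v 0) (shift v))] [ha : DF a] :
    DF (fun v => ZT.sb (fun z => Q z v) (a v)) := by
  unfold ZT.sb
  have h1 : DP (fun v => Q (v 0) (shift (shift v))) :=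
    DP.rename (Q := fun v => Q (v 0) (shift v)) h skipOne
  have h2 : DF (fun v : ℕ → V => a (shift v)) := ha.rename (fun n => n + 1)
  have h3 : DF (fun v : ℕ → V => a (shift (shift v))) := ha.rename (fun n => n + 2)
  have h4 : DP (fun v : ℕ → V => ∀ z, z ∈ v 0 ↔ z ∈ a (shift v) ∧ Q z (shift v)) :=
    DP.all' (P := fun z v => z ∈ v 0 ↔ z ∈ a (shift v) ∧ Q z (shift v)) inferInstance
  exact DF.the (P := fun b v => ∀ z, z ∈ b ↔ z ∈ a v ∧ Q z v)

/-- `{F i : i ∈ I}` -/
noncomputable def rp (F : V → V) (I : V) : V := the fun b => ∀ z, z ∈ b ↔ ∃ i ∈ I, z = F i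

theorem mem_rp {F : V → V} [h : DF (fun v => F (v 0))] {I z : V} :
    z ∈ rp F I ↔ ∃ i ∈ I, z = F i := by
  have h0 : DF (fun v : ℕ → V => F (v 0)) := h
  have h2 : DP (fun v : ℕ → V => v 1 = F (v 0)) := inferInstance
  obtain ⟨b, hb⟩ := exists_repl (fun x y => y = F x) I (fun x _ => ⟨F x, rfl, fun y hy => hy⟩)
  have h1 : ∃! b : V, ∀ z, z ∈ b ↔ ∃ i ∈ I, z = F i :=
    ⟨b, hb, fun b' hb' => ext fun z => (hb' z).trans (hb z).symm⟩
  exact the_spec h1 z

instance DF.rp {F : V → (ℕ → V) → V} {a : (ℕ → V) → V}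
    [h : DF (fun v => F (v 0) (shift v))] [ha : DF a] :
    DF (fun v => ZT.rp (fun z => F z v) (a v)) := by
  unfold ZT.rp
  have h1 : DF (fun v => F (v 0) (shift (shift (shift v)))) := h.rename
    (fun n => match n with | 0 => 0 | (n + 1) => n + 3)
  have h3 : DF (fun v : ℕ → V => a (shift (shift v))) := ha.rename (fun n => n + 2)
  have h5 : DP (fun v : ℕ → V => ∃ i, i ∈ a (shift (shift v)) ∧ v 0 = F i (shift (shift v))) := by
    have : DP (fun v : ℕ → V => v 0 ∈ a (shift (shift (shift v))) ∧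
        v 1 = F (v 0) (shift (shift (shift v)))) := by
      have : DF (fun v : ℕ → V => a (shift (shift (shift v)))) := ha.rename (fun n => n + 3)
      infer_instance
    exact DP.ex (P := fun i v => i ∈ a (shift (shift v)) ∧ v 0 = F i (shift (shift v)))
  have h4 : DP (fun v : ℕ → V => ∀ z, z ∈ v 0 ↔ ∃ i, i ∈ a (shift v) ∧ z = F i (shift v)) :=
    DP.all' (P := fun z v => z ∈ v 0 ↔ ∃ i, i ∈ a (shift v) ∧ z = F i (shift v)) (by infer_instance)
  exact DF.the (P := fun b v => ∀ z, z ∈ b ↔ ∃ i ∈ a v, z = F i v)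

/-- the function `i ↦ F i` on `I` -/
noncomputable def lm (I : V) (F : V → V) : V := rp (fun i => opair i (F i)) I

instance DF.lm {F : V → (ℕ → V) → V} {a : (ℕ → V) → V}
    [h : DF (fun v => F (v 0) (shift v))] [ha : DF a] :
    DF (fun v => ZT.lm (a v) (fun z => F z v)) := by
  unfold ZT.lm
  have h1 : DF (fun v => opair (v 0) (F (v 0) (shift v))) := inferInstance
  exact DF.rp (F := fun i v => opair i (F i v))

theorem mem_lm {F : V → V} [h : DF (fun v => F (v 0))] {I z : V} :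
    z ∈ lm I F ↔ ∃ i ∈ I, z = opair i (F i) := by
  unfold lm
  have : DF (fun v : ℕ → V => opair (v 0) (F (v 0))) := inferInstance
  exact mem_rp (F := fun i => opair i (F i))

/-- `⋃ {F i : i ∈ I}` -/
noncomputable def bu (I : V) (F : V → V) : V := sUn (rp F I)

instance DF.bu {F : V → (ℕ → V) → V} {a : (ℕ → V) → V}
    [h : DF (fun v => F (v 0) (shift v))] [ha : DF a] :
    DF (fun v => ZT.bu (a v) (fun z => F z v)) := by
  unfold ZT.bu
  infer_instance

theorem mem_bu {F : V → V} [h : DF (fun v => F (v 0))] {I z : V} :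
    z ∈ bu I F ↔ ∃ i ∈ I, z ∈ F i := by
  unfold bu
  rw [mem_sUn]
  constructor
  · rintro ⟨y, hy, hz⟩
    obtain ⟨i, hi, rfl⟩ := mem_rp.1 hy
    exact ⟨i, hi, hz⟩
  · rintro ⟨i, hi, hz⟩
    exact ⟨F i, mem_rp.2 ⟨i, hi, rfl⟩, hz⟩

/-! ### Functions -/

/-- `f` is a function with domain `I` -/
def IsFn (f I : V) : Prop := (∀ z ∈ f, ∃ x ∈ I, ∃ y, z = opair x y) ∧ ∀ x ∈ I, ∃! y, opair x y ∈ f

instance {t s : (ℕ → V) → V} [ht : DF t] [hs : DF s] : DP (fun v => IsFn (t v) (s v)) :=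
  DP.comp2 (by unfold IsFn; infer_instance) ht hs

/-- the value of `f` at `x` -/
noncomputable def ap (f x : V) : V := the fun y => opair x y ∈ f

instance DF.ap {t s : (ℕ → V) → V} [ht : DF t] [hs : DF s] : DF (fun v => ZT.ap (t v) (s v)) := by
  unfold ZT.ap
  have h1 : DF (fun v : ℕ → V => t (shift v)) := ht.rename (fun n => n + 1)
  have h2 : DF (fun v : ℕ → V => s (shift v)) := hs.rename (fun n => n + 1)
  exact DF.the (P := fun y v => opair (s v) y ∈ t v)

theorem IsFn.ap_mem {f I x : V} (h : IsFn f I) (hx : x ∈ I) : opair x (ap f x) ∈ f :=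
  the_spec (h.2 x hx)

theorem IsFn.ap_eq {f I x y : V} (h : IsFn f I) (hxy : opair x y ∈ f) : ap f x = y := by
  obtain ⟨x', hx', y', e⟩ := h.1 _ hxy
  obtain ⟨rfl, rfl⟩ := opair_inj.1 e
  exact (h.2 x hx').unique (h.ap_mem hx') hxy

theorem IsFn.mem_iff {f I x y : V} (h : IsFn f I) : opair x y ∈ f ↔ x ∈ I ∧ ap f x = y := by
  constructor
  · intro hxy
    refine ⟨?_, h.ap_eq hxy⟩
    obtain ⟨x', hx', y', e⟩ := h.1 _ hxy
    obtain ⟨rfl, rfl⟩ := opair_inj.1 e
    exact hx'
  · rintro ⟨hx, rfl⟩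
    exact h.ap_mem hx

theorem IsFn.dm_eq {f I : V} (h : IsFn f I) : dm f = I := ext fun x => by
  rw [mem_dm]
  exact ⟨fun ⟨y, hy⟩ => (h.mem_iff.1 hy).1, fun hx => ⟨_, h.ap_mem hx⟩⟩

theorem fn_ext {f g I : V} (hf : IsFn f I) (hg : IsFn g I) (h : ∀ x ∈ I, ap f x = ap g x) :
    f = g := by
  refine ext fun z => ⟨fun hz => ?_, fun hz => ?_⟩
  · obtain ⟨x, hx, y, rfl⟩ := hf.1 z hz
    rw [hg.mem_iff]
    exact ⟨hx, (h x hx).symm.trans (hf.ap_eq hz)⟩
  · obtain ⟨x, hx, y, rfl⟩ := hg.1 z hz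
    rw [hf.mem_iff]
    exact ⟨hx, (h x hx).trans (hg.ap_eq hz)⟩

theorem isFn_lm {F : V → V} [h : DF (fun v => F (v 0))] {I : V} : IsFn (lm I F) I := by
  constructor
  · intro z hz
    obtain ⟨i, hi, rfl⟩ := mem_lm.1 hz
    exact ⟨i, hi, F i, rfl⟩
  · intro x hx
    refine ⟨F x, mem_lm.2 ⟨x, hx, rfl⟩, fun y hy => ?_⟩
    obtain ⟨i, _, e⟩ := mem_lm.1 hy
    obtain ⟨rfl, rfl⟩ := opair_inj.1 e
    rfl

theorem ap_lm {F : V → V} [h : DF (fun v => F (v 0))] {I x : V} (hx : x ∈ I) :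
    ap (lm I F) x = F x :=
  isFn_lm.ap_eq (mem_lm.2 ⟨x, hx, rfl⟩)

/-- functions from relations -/
theorem exists_fn (I : V) (P : V → V → Prop) [hP : DP (fun v => P (v 0) (v 1))]
    (h : ∀ x ∈ I, ∃! y, P x y) : ∃ f, IsFn f I ∧ ∀ x ∈ I, P x (ap f x) := by
  have hP' : ∀ (t s : (ℕ → V) → V) [DF t] [DF s], DP (fun v => P (t v) (s v)) :=
    fun t s _ _ => DP.comp2 hP inferInstance inferInstance
  have h1 : DF (fun v : ℕ → V => the fun y => P (v 0) y) := by
    have : DP (fun v : ℕ → V => P (v 1) (v 0)) := inferInstance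
    exact DF.the (P := fun y v => P (v 0) y)
  refine ⟨lm I (fun x => the fun y => P x y), isFn_lm, fun x hx => ?_⟩
  rw [ap_lm (F := fun x => the fun y => P x y) hx]
  exact the_spec (h x hx)

/-! ### Countable sets -/

/-- `j` is an injective function from `I` into the natural numbers -/
def Cnt (I j : V) : Prop := (∀ x ∈ I, ap j x ∈ (omega : V)) ∧
  ∀ x ∈ I, ∀ y ∈ I, ap j x = ap j y → x = y

instance {t s : (ℕ → V) → V} [ht : DF t] [hs : DF s] : DP (fun v => Cnt (t v) (s v)) :=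
  DP.comp2 (by unfold Cnt; infer_instance) ht hs

/-- the element of `A` of least index -/
noncomputable def fst (j A : V) : V :=
  the fun x => x ∈ A ∧ ∀ y ∈ A, x = y ∨ ap j x ∈ ap j y

instance {t s : (ℕ → V) → V} [ht : DF t] [hs : DF s] : DF (fun v => fst (t v) (s v)) := by
  unfold fst
  have h1 : DF (fun v : ℕ → V => t (shift v)) := ht.rename (fun n => n + 1)
  have h2 : DF (fun v : ℕ → V => s (shift v)) := hs.rename (fun n => n + 1)
  have h3 : DF (fun v : ℕ → V => t (shift (shift v))) := ht.rename (fun n => n + 2)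
  have h4 : DF (fun v : ℕ → V => s (shift (shift v))) := hs.rename (fun n => n + 2)
  exact DF.the (P := fun x v => x ∈ s v ∧ ∀ y ∈ s v, x = y ∨ ZT.ap (t v) x ∈ ZT.ap (t v) y)

theorem fst_spec {I j A : V} (hj : Cnt I j) (hA : Sub A I) (hne : ∃ x, x ∈ A) :
    fst j A ∈ A ∧ ∀ y ∈ A, fst j A = y ∨ ap j (fst j A) ∈ ap j y := by
  unfold fst
  obtain ⟨x0, hx0⟩ := hne
  obtain ⟨n, hn, ⟨x, hx, hxn⟩, hmin⟩ := exists_min (V := V) (fun n => ∃ x ∈ A, ap j x = n)
    ⟨ap j x0, hj.1 x0 (hA x0 hx0), x0, hx0, rfl⟩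
  refine the_spec (P := fun x => x ∈ A ∧ ∀ y ∈ A, x = y ∨ ap j x ∈ ap j y) ⟨x, ⟨hx, ?_⟩, ?_⟩
  · intro y hy
    rcases hmin (ap j y) (hj.1 y (hA y hy)) ⟨y, hy, rfl⟩ with h | h
    · exact Or.inl (hj.2 x (hA x hx) y (hA y hy) (hxn.trans h))
    · rw [hxn]; exact Or.inr h
  · rintro y ⟨hy, hy'⟩
    rcases hy' x hx with h | h
    · exact h
    · rcases hmin (ap j y) (hj.1 y (hA y hy)) ⟨y, hy, rfl⟩ with h' | h'
      · rw [hxn, h'] at h
        exact absurd h (not_mem_self _)
      · rw [hxn] at h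
        exact (not_mem_mem h h').elim

end

end Pool.Agent.ZT
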